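import Pool.Agent.Lib.MP_0430e4_lc.Las.FUN2

/-!
# FUN3: the profile of the pair function
-/

set_option autoImplicit false

namespace Pool.Agent.Lib.MP_0430e4_lc.Las

open Finset
open Tensor (chi flp)
open Impr (wt)
open LPL (hat)

variable {n : ℕ}

theorem FUN3_wt_comp (x : Fin n → Bool) (p : Equiv.Perm (Fin n)) : wt (x ∘ p) = wt x := by
  unfold wt
  apply Finset.card_bij (fun i _ => p i)
  · intro i hi
    simpa using hi
  · intro i _ j _ h
    exact p.injective h
  · intro j hj
    refine ⟨p.symm j, ?_, by simp⟩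
    simpa using hj

theorem FUN3_chi_comp (x v : Fin n → Bool) (p : Equiv.Perm (Fin n)) :
    chi (x ∘ p) (v ∘ p) = chi x v := by
  unfold Tensor.chi
  exact Equiv.prod_comp p (fun i => if x i = true ∧ v i = true then (-1 : ℝ) else 1)

theorem FUN3_hat_comp (F : (Fin n → Bool) → ℝ) (hF : ∀ x (p : Equiv.Perm (Fin n)), F (x ∘ p) = F x)
    (v : Fin n → Bool) (p : Equiv.Perm (Fin n)) : hat F (v ∘ p) = hat F v := by
  unfold LPL.hat
  have h1 : ∀ x, F x * chi x v = F (x ∘ p) * chi (x ∘ p) (v ∘ p) := by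
    intro x
    rw [hF, FUN3_chi_comp]
  rw [Finset.sum_congr rfl (fun x _ => h1 x)]
  exact (Equiv.sum_comp (Equiv.arrowCongr p.symm (Equiv.refl Bool))
    (fun x => F x * chi x (v ∘ p))).symm

/-- a word of weight `j` -/
def FUN3_word (n j : ℕ) : Fin n → Bool := fun i => decide (i.val < j)

theorem FUN3_wt_word {n j : ℕ} (h : j ≤ n) : wt (FUN3_word n j) = j := by
  unfold wt FUN3_word
  simp only [decide_eq_true_eq]
  rw [Fin.card_filter_val_lt]
  exact min_eq_right h

theorem FUN3_sum_wt (F : (Fin n → Bool) → ℝ) (j : ℕ) (c : ℝ)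
    (h : ∀ x, wt x = j → F x = c) :
    (n.choose j : ℝ) * c = ∑ x ∈ univ.filter (fun x : Fin n → Bool => wt x = j), F x := by
  rw [Finset.sum_congr rfl (g := fun _ => c)]
  · rw [Finset.sum_const, card_wt, nsmul_eq_mul]
  · intro x hx
    exact h x (Finset.mem_filter.1 hx).2

theorem FUN3_choose_half {n a j : ℕ} (h1 : a ≤ j) (h2 : 2 * j ≤ n) :
    n.choose a ≤ n.choose j := by
  induction j, h1 using Nat.le_induction with
  | base => exact le_rfl
  | succ j hj ih =>
    exact (ih (by omega)).trans (Nat.choose_le_succ_of_lt_half_left (by omega))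

theorem FUN3_choose {n a j : ℕ} (h1 : a ≤ j) (h2 : j + a ≤ n) : n.choose a ≤ n.choose j := by
  rcases le_or_gt (2 * j) n with h | h
  · exact FUN3_choose_half h1 (by omega)
  · rw [← Nat.choose_symm (show j ≤ n by omega)]
    exact FUN3_choose_half (by omega) (by omega)

theorem FUN3_ball {n d : ℕ} :
    ∑ x : Fin n → Bool, (if wt x < d then (1 : ℝ) else 0) = ball n d := by
  unfold ball
  rw [← Finset.sum_filter]
  have e : (univ.filter fun x : Fin n → Bool => wt x < d) =
      (range d).biUnion fun j => univ.filter fun x : Fin n → Bool => wt x = j := by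
    ext x
    simp
  rw [e, Finset.sum_biUnion]
  · apply Finset.sum_congr rfl
    intro j _
    have := FUN3_sum_wt (n := n) (fun _ => (1 : ℝ)) j 1 (fun _ _ => rfl)
    rw [← this, mul_one]
  · intro i _ j _ hij
    apply Finset.disjoint_left.2
    intro x hx hx2
    rw [Finset.mem_filter] at hx hx2
    exact hij (hx.2.symm.trans hx2.2)

/-- The profile of the pair function. -/
theorem exists_profile {k d2 d : ℕ} (hk : 2 * k + 2 ≤ n) (hd : 1 ≤ d) (hdd : d ≤ d2)
    (hd2 : 2 * d2 < n) {κ : ℝ} (hκ : 0 < κ)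
    (hc : 4 * ((k : ℝ) + 1) * (n - k) ≤ (1 - κ) * ((n : ℝ) - 2 * d2) ^ 2) :
    ∃ a : ℕ → ℝ, (∀ j < d, a j = -1) ∧
      (∀ j, d ≤ j → κ ^ 2 * a j ^ 2 * n.choose d2 ≤ ball n d) ∧
      (∑ x : Fin n → Bool, a (wt x) ^ 2 ≤ (1 + (κ ^ 2)⁻¹) * ball n d) ∧
      (∀ v : Fin n → Bool, hat (fun x => a (wt x)) v ^ 2 * n.choose (k + 1) ≤
        2 ^ n * ((1 + (κ ^ 2)⁻¹) * ball n d)) := by
  obtain ⟨q, q1, q2, q3, q4⟩ := exists_q (by omega : 2 * k + 1 ≤ n) hd2 hκ hc
    (d := d)
  have hball0 : 0 ≤ ball n d := Finset.sum_nonneg fun _ _ => Nat.cast_nonneg _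
  have hκ2 : 0 < κ ^ 2 := by positivity
  set a : ℕ → ℝ := fun j => if j < d then -1 else
    if d2 ≤ j ∧ j + d2 ≤ n then q (FUN3_word n j) else 0 with ha
  have hq : ∀ x : Fin n → Bool, q (FUN3_word n (wt x)) = q x := by
    intro x
    obtain ⟨p, hp⟩ := exists_perm (x := x) (y := FUN3_word n (wt x))
      (by rw [FUN3_wt_word (LPL.wt_le x)])
    rw [hp, q1]
  have ha1 : ∀ j < d, a j = -1 := fun j hj => if_pos hj
  have haM : ∀ x : Fin n → Bool, x ∈ Mid n d2 → a (wt x) = q x := by
    intro x hx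
    have hx2 : d2 ≤ wt x ∧ wt x + d2 ≤ n := (Finset.mem_filter.1 hx).2
    show (if wt x < d then (-1 : ℝ) else _) = q x
    rw [if_neg (by omega), if_pos hx2, hq]
  have haform : ∀ x : Fin n → Bool, a (wt x) =
      -(if wt x < d then (1 : ℝ) else 0) + (if x ∈ Mid n d2 then q x else 0) := by
    intro x
    by_cases h1 : wt x < d
    · have h2 : x ∉ Mid n d2 := by
        intro hx
        have hx2 : d2 ≤ wt x ∧ wt x + d2 ≤ n := (Finset.mem_filter.1 hx).2
        omega
      rw [if_pos h1, if_neg h2, ha1 _ h1, add_zero]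
    · by_cases h2 : x ∈ Mid n d2
      · rw [if_neg h1, if_pos h2, haM x h2]; ring
      · have h3 : ¬ (d2 ≤ wt x ∧ wt x + d2 ≤ n) := by
          intro hx
          exact h2 (Finset.mem_filter.2 ⟨Finset.mem_univ _, hx⟩)
        show (if wt x < d then (-1 : ℝ) else _) = _
        rw [if_neg h1, if_neg h3, if_neg h1, if_neg h2]; ring
  have haSq : ∀ x : Fin n → Bool, a (wt x) ^ 2 =
      (if wt x < d then (1 : ℝ) else 0) + (if x ∈ Mid n d2 then q x ^ 2 else 0) := by
    intro x
    rw [haform]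
    by_cases h1 : wt x < d
    · have h2 : x ∉ Mid n d2 := by
        intro hx
        have hx2 : d2 ≤ wt x ∧ wt x + d2 ≤ n := (Finset.mem_filter.1 hx).2
        omega
      simp [h1, h2]
    · by_cases h2 : x ∈ Mid n d2
      · simp [h1, h2]
      · simp [h1, h2]
  have hq4 : ∑ x, q x ^ 2 ≤ (κ ^ 2)⁻¹ * ball n d := by
    rw [inv_mul_eq_div, le_div_iff₀ hκ2]
    linarith
  have hsq : ∑ x : Fin n → Bool, a (wt x) ^ 2 ≤ (1 + (κ ^ 2)⁻¹) * ball n d := by
    rw [Finset.sum_congr rfl (fun x _ => haSq x), Finset.sum_add_distrib, FUN3_ball]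
    have : ∑ x : Fin n → Bool, (if x ∈ Mid n d2 then q x ^ 2 else 0) ≤ ∑ x, q x ^ 2 := by
      apply Finset.sum_le_sum
      intro x _
      split_ifs
      · exact le_rfl
      · positivity
    linarith
  refine ⟨a, ha1, ?_, hsq, ?_⟩
  · intro j hj
    by_cases hj2 : d2 ≤ j ∧ j + d2 ≤ n
    · have e1 : a j = q (FUN3_word n j) := by
        show (if j < d then (-1 : ℝ) else _) = _
        rw [if_neg (by omega), if_pos hj2]
      have e2 := FUN3_sum_wt (fun x : Fin n → Bool => q x ^ 2) j (a j ^ 2) (by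
        intro x hx
        rw [e1, ← hx, hq])
      have e3 : ∑ x ∈ univ.filter (fun x : Fin n → Bool => wt x = j), q x ^ 2 ≤ ∑ x, q x ^ 2 :=
        Finset.sum_le_univ_sum_of_nonneg fun x => sq_nonneg _
      have e4 : ((n.choose d2 : ℕ) : ℝ) ≤ n.choose j := by
        exact_mod_cast FUN3_choose hj2.1 hj2.2
      have e5 : a j ^ 2 * n.choose d2 ≤ ∑ x, q x ^ 2 := by
        calc a j ^ 2 * n.choose d2 ≤ a j ^ 2 * n.choose j :=
              mul_le_mul_of_nonneg_left e4 (sq_nonneg _)
          _ = n.choose j * a j ^ 2 := mul_comm _ _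
          _ ≤ _ := by rw [e2]; exact e3
      calc κ ^ 2 * a j ^ 2 * n.choose d2 = κ ^ 2 * (a j ^ 2 * n.choose d2) := by ring
        _ ≤ κ ^ 2 * ∑ x, q x ^ 2 := mul_le_mul_of_nonneg_left e5 hκ2.le
        _ ≤ ball n d := q4
    · have e1 : a j = 0 := by
        show (if j < d then (-1 : ℝ) else _) = _
        rw [if_neg (by omega), if_neg hj2]
      rw [e1]
      simpa using hball0
  · intro v
    have hR0 : 0 ≤ (2 : ℝ) ^ n * ((1 + (κ ^ 2)⁻¹) * ball n d) := by positivity
    have hinv : ∀ (u : Fin n → Bool) (p : Equiv.Perm (Fin n)),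
        hat (fun x => a (wt x)) (u ∘ p) = hat (fun x => a (wt x)) u := by
      intro u p
      apply FUN3_hat_comp
      intro x p'
      show a (wt (x ∘ p')) = a (wt x)
      rw [FUN3_wt_comp]
    by_cases hv : v ∈ Lo n k
    · have h0 : hat (fun x => a (wt x)) v = 0 := by
        unfold LPL.hat
        have e1 : ∀ x : Fin n → Bool, a (wt x) * chi x v =
            -((if wt x < d then (1 : ℝ) else 0) * chi x v) +
            (if x ∈ Mid n d2 then q x * chi x v else 0) := by
          intro x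
          rw [haform]
          by_cases h2 : x ∈ Mid n d2
          · rw [if_pos h2, if_pos h2]; ring
          · rw [if_neg h2, if_neg h2]; ring
        rw [Finset.sum_congr rfl (fun x _ => e1 x), Finset.sum_add_distrib,
          Finset.sum_neg_distrib, ← q3 v hv]
        rw [← Finset.sum_filter]
        have e2 : (univ.filter fun x : Fin n → Bool => x ∈ Mid n d2) = Mid n d2 := by
          ext x; simp
        rw [e2]
        ring
      rw [h0]
      simpa using hR0
    · have hv2 : ¬ (wt v ≤ k ∨ n ≤ wt v + k) := by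
        intro h
        exact hv (Finset.mem_filter.2 ⟨Finset.mem_univ _, h⟩)
      have hwn := LPL.wt_le v
      have e2 := FUN3_sum_wt (fun x : Fin n → Bool => hat (fun x => a (wt x)) x ^ 2) (wt v)
        (hat (fun x => a (wt x)) v ^ 2) (by
          intro x hx
          obtain ⟨p, hp⟩ := exists_perm hx.symm
          show hat (fun x => a (wt x)) x ^ 2 = _
          rw [hp, hinv])
      have e3 : ∑ x ∈ univ.filter (fun x : Fin n → Bool => wt x = wt v),
          hat (fun x => a (wt x)) x ^ 2 ≤ ∑ x, hat (fun x => a (wt x)) x ^ 2 :=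
        Finset.sum_le_univ_sum_of_nonneg fun x => sq_nonneg _
      have e4 : ((n.choose (k + 1) : ℕ) : ℝ) ≤ n.choose (wt v) := by
        exact_mod_cast FUN3_choose (by omega) (by omega)
      have e5 : ∑ x : Fin n → Bool, hat (fun x => a (wt x)) x ^ 2 =
          2 ^ n * ∑ x : Fin n → Bool, a (wt x) ^ 2 := by
        have := LPL.parseval (fun x : Fin n → Bool => a (wt x)) (fun x => a (wt x))
        simp only [sq]
        exact this
      calc hat (fun x => a (wt x)) v ^ 2 * n.choose (k + 1)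
          ≤ hat (fun x => a (wt x)) v ^ 2 * n.choose (wt v) :=
            mul_le_mul_of_nonneg_left e4 (sq_nonneg _)
        _ = n.choose (wt v) * hat (fun x => a (wt x)) v ^ 2 := mul_comm _ _
        _ ≤ ∑ x, hat (fun x => a (wt x)) x ^ 2 := by rw [e2]; exact e3
        _ = 2 ^ n * ∑ x : Fin n → Bool, a (wt x) ^ 2 := e5
        _ ≤ _ := mul_le_mul_of_nonneg_left hsq (by positivity)

end Pool.Agent.Lib.MP_0430e4_lc.Las
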