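import Pool.Agent.Lib.MP_0430e4_lc.Las.Defs
import Pool.Agent.Lib.MP_0430e4_lc.LPL.ENT
import Pool.Agent.Lib.MP_0430e4_lc.Harm.Calc1

/-!
# GAP: MRRW is larger than Gilbert-Varshamov
-/

set_option autoImplicit false

namespace Pool.Agent.Lib.MP_0430e4_lc.Las

open Finset Filter

/-- `h(p) > 4 p (1-p) log 2` for `1/5 ≤ p < 1/2` -/
theorem gap_large {p : ℝ} (h1 : 1 / 5 ≤ p) (h2 : p < 1 / 2) :
    4 * (p * (1 - p)) * Real.log 2 < Real.binEntropy p := by
  have hp : 0 < p := by linarith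
  have hq : 0 < 1 - p := by linarith
  have e1 : Real.log p = Real.log (1 + (2 * p - 1)) - Real.log 2 := by
    rw [← Real.log_div (by linarith) (by norm_num)]
    congr 1
    ring
  have e2 : Real.log (1 - p) = Real.log (1 + (1 - 2 * p)) - Real.log 2 := by
    rw [← Real.log_div (by linarith) (by norm_num)]
    congr 1
    ring
  have i1 := LPL.log_one_add_le_cubic (u := 2 * p - 1) (by linarith)
  have i2 := LPL.log_one_add_le_cubic (u := 1 - 2 * p) (by linarith)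
  have hl : (0.69 : ℝ) ≤ Real.log 2 := by
    have := Real.log_two_gt_d9
    linarith
  have e3 : Real.binEntropy p = Real.log 2 - p * Real.log (1 + (2 * p - 1))
      - (1 - p) * Real.log (1 + (1 - 2 * p)) := by
    unfold Real.binEntropy
    rw [Real.log_inv, Real.log_inv, e1, e2]
    ring
  rw [e3]
  have j1 : p * Real.log (1 + (2 * p - 1)) ≤ p * ((2 * p - 1) - (2 * p - 1) ^ 2 / 2
      + (2 * p - 1) ^ 3 / 3) := mul_le_mul_of_nonneg_left i1 hp.le
  have j2 : (1 - p) * Real.log (1 + (1 - 2 * p)) ≤ (1 - p) * ((1 - 2 * p) - (1 - 2 * p) ^ 2 / 2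
      + (1 - 2 * p) ^ 3 / 3) := mul_le_mul_of_nonneg_left i2 hq.le
  have j3 : p * ((2 * p - 1) - (2 * p - 1) ^ 2 / 2 + (2 * p - 1) ^ 3 / 3)
      + (1 - p) * ((1 - 2 * p) - (1 - 2 * p) ^ 2 / 2 + (1 - 2 * p) ^ 3 / 3)
      = (1 - 2 * p) ^ 2 * (1 / 2 + (1 - 2 * p) ^ 2 / 3) := by ring
  have j4 : (1 - 2 * p) ^ 2 ≤ 9 / 25 := by nlinarith
  have j0 : 0 < (1 - 2 * p) ^ 2 := by
    have : 0 < 1 - 2 * p := by linarith
    positivity
  have j5 : (1 - 2 * p) ^ 2 * (1 / 2 + (1 - 2 * p) ^ 2 / 3) < (1 - 2 * p) ^ 2 * Real.log 2 :=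
    mul_lt_mul_of_pos_left (by linarith) j0
  have j6 : 4 * (p * (1 - p)) * Real.log 2 = Real.log 2 - (1 - 2 * p) ^ 2 * Real.log 2 := by ring
  linarith

/-- `h(p) > 4 p (1-p) log 2` for `0 < p < 1/2` -/
theorem gap_ent {p : ℝ} (h0 : 0 < p) (h2 : p < 1 / 2) :
    4 * (p * (1 - p)) * Real.log 2 < Real.binEntropy p := by
  rcases le_or_gt (1 / 5) p with h1 | h1
  · exact gap_large h1 h2
  · have h3 := Harm.Calc.binEntropy_ge h0 (by linarith)
    have hy0 : 0 < p * (1 - p) := mul_pos h0 (by linarith)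
    have hy1 : p * (1 - p) < 4 / 25 := by nlinarith
    refine lt_of_lt_of_le ?_ h3
    rw [mul_comm 4, mul_assoc]
    refine mul_lt_mul_of_pos_left ?_ hy0
    have h4 : Real.log (p * (1 - p)) ≤ Real.log (4 / 25) := Real.log_le_log hy0 hy1.le
    have h5 : Real.log (4 / 25) < 1 - 4 * Real.log 2 := by
      have h6 : Real.log (4 / 25) + 4 * Real.log 2 = Real.log (64 / 25) := by
        have : (4 : ℝ) * Real.log 2 = Real.log (2 ^ 4) := by
          rw [Real.log_pow]; norm_num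
        rw [this, ← Real.log_mul (by norm_num) (by norm_num)]
        norm_num
      have h7 : Real.log (64 / 25) < 1 := by
        rw [Real.log_lt_iff_lt_exp (by norm_num)]
        have := Real.exp_one_gt_d9
        linarith
      linarith
    linarith

/-- MRRW is larger than Gilbert-Varshamov -/
theorem gap {δ : ℝ} (h0 : 0 < δ) (h1 : δ < 1 / 2) :
    1 - H2 δ < H2 (1 / 2 - Real.sqrt (δ * (1 - δ))) := by
  have hl : 0 < Real.log 2 := Real.log_pos (by norm_num)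
  have hy0 : 0 < δ * (1 - δ) := mul_pos h0 (by linarith)
  have hs0 : 0 < Real.sqrt (δ * (1 - δ)) := Real.sqrt_pos.2 hy0
  have hs2 : Real.sqrt (δ * (1 - δ)) ^ 2 = δ * (1 - δ) := Real.sq_sqrt hy0.le
  have hs1 : Real.sqrt (δ * (1 - δ)) < 1 / 2 := by
    nlinarith [sq_nonneg (1 - 2 * δ)]
  have a1 := gap_ent h0 h1
  have a2 := gap_ent (p := 1 / 2 - Real.sqrt (δ * (1 - δ))) (by linarith) (by linarith)
  have a3 : 4 * ((1 / 2 - Real.sqrt (δ * (1 - δ))) * (1 - (1 / 2 - Real.sqrt (δ * (1 - δ))))) =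
      1 - 4 * (δ * (1 - δ)) := by
    have : (1 / 2 - Real.sqrt (δ * (1 - δ))) * (1 - (1 / 2 - Real.sqrt (δ * (1 - δ)))) =
        1 / 4 - Real.sqrt (δ * (1 - δ)) ^ 2 := by ring
    rw [this, hs2]
    ring
  rw [a3] at a2
  unfold H2
  rw [sub_lt_iff_lt_add, ← add_div, lt_div_iff₀ hl]
  nlinarith

end Pool.Agent.Lib.MP_0430e4_lc.Las
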