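import Pool.Agent.Lib.MP_0430e4_lc.Las.Defs
import Pool.Agent.Lib.MP_0430e4_lc.TensorEntropy
import Pool.Agent.Lib.MP_0430e4_lc.Impr.ASY3

/-!
# NUM1: entropy estimates and the final numerical estimate
-/

set_option autoImplicit false

namespace Pool.Agent.Lib.MP_0430e4_lc.Las

open Finset Filter

theorem num1_two_rpow (x p : ℝ) : (2 : ℝ) ^ (x * H2 p) = Real.exp (x * Real.binEntropy p) := by
  rw [Real.rpow_def_of_pos (by norm_num)]
  have h2 : Real.log 2 ≠ 0 := (Real.log_pos (by norm_num)).ne'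
  congr 1
  unfold H2
  field_simp

theorem num1_ball_eq (n d : ℕ) :
    ball n d = ((univ.filter fun T : Finset (Fin n) => T.card < d).card : ℝ) := by
  unfold ball
  rw [Finset.card_eq_sum_card_fiberwise (f := Finset.card) (t := range d)]
  · push_cast
    apply Finset.sum_congr rfl
    intro j hj
    rw [Finset.mem_range] at hj
    have h1 : (univ.filter fun T : Finset (Fin n) => T.card < d).filter (fun T => T.card = j) =
        Finset.powersetCard j univ := by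
      ext T
      simp only [Finset.mem_filter, Finset.mem_univ, true_and, Finset.mem_powersetCard,
        Finset.subset_univ]
      constructor
      · rintro ⟨_, h⟩; exact h
      · intro h; exact ⟨by omega, h⟩
    rw [h1, Finset.card_powersetCard, Finset.card_univ, Fintype.card_fin]
  · intro T hT
    simpa using hT

/-- the entropy bound for balls -/
theorem ball_le {δ : ℝ} (h0 : 0 < δ) (h1 : δ < 1 / 2) (n : ℕ) :
    ball n ⌈δ * n⌉₊ ≤ (2 : ℝ) ^ ((n : ℝ) * H2 δ) := by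
  rw [num1_two_rpow, num1_ball_eq]
  rcases Nat.eq_zero_or_pos ⌈δ * n⌉₊ with h | h
  · rw [h]
    simp only [Nat.not_lt_zero, Finset.filter_false, Finset.card_empty, Nat.cast_zero]
    positivity
  · obtain ⟨m, hm⟩ : ∃ m, ⌈δ * n⌉₊ = m + 1 := ⟨⌈δ * n⌉₊ - 1, by omega⟩
    rw [hm]
    apply Tensor.card_small_le h0 h1.le
    have h2 : m < ⌈δ * n⌉₊ := by omega
    exact (Nat.lt_ceil.1 h2).le

/-- the entropy bound for binomial coefficients -/
theorem choose_ge {p : ℝ} (h0 : 0 < p) (h1 : p ≤ 1 / 2) {n j : ℕ} (hj : p * n ≤ j)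
    (hj2 : 2 * j ≤ n) : (2 : ℝ) ^ ((n : ℝ) * H2 p) ≤ (n + 1) * n.choose j := by
  rw [num1_two_rpow]
  rcases Nat.eq_zero_or_pos n with rfl | hn
  · have : j = 0 := by omega
    subst this
    simp
  have hnR : (0 : ℝ) < n := by exact_mod_cast hn
  have hj0 : 0 < j := by
    have : (0 : ℝ) < j := lt_of_lt_of_le (mul_pos h0 hnR) hj
    exact_mod_cast this
  have hjn : j < n := by omega
  have h2 := Tensor.entropy_le_log_choose hj0 hjn
  have hjR : (2 : ℝ) * j ≤ n := by exact_mod_cast hj2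
  have h3 : Real.binEntropy p ≤ Real.binEntropy (j / n) := by
    apply Real.binEntropy_strictMonoOn.monotoneOn
    · exact ⟨h0.le, by norm_num at h1 ⊢; linarith⟩
    · constructor
      · positivity
      · rw [div_le_iff₀ hnR]
        norm_num
        linarith
    · rw [le_div_iff₀ hnR]
      exact hj
  have hch : (0 : ℝ) < n.choose j := by exact_mod_cast Nat.choose_pos hjn.le
  have hn1 : (0 : ℝ) < (n : ℝ) + 1 := by positivity
  rw [← Real.log_mul hn1.ne' hch.ne'] at h2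
  have h4 : (n : ℝ) * Real.binEntropy p ≤ Real.log (((n : ℝ) + 1) * n.choose j) :=
    (mul_le_mul_of_nonneg_left h3 hnR.le).trans h2
  calc Real.exp ((n : ℝ) * Real.binEntropy p)
      ≤ Real.exp (Real.log (((n : ℝ) + 1) * n.choose j)) := Real.exp_le_exp.2 h4
    _ = _ := Real.exp_log (by positivity)

theorem num1_ev {e : ℝ} (he : 0 < e) :
    ∀ᶠ n : ℕ in atTop, (n : ℝ) + 1 ≤ (2 : ℝ) ^ ((n : ℝ) * e) := by
  have h1 : Tendsto (fun n : ℕ => (n : ℝ) ^ 1 / (Real.exp (e * Real.log 2)) ^ n) atTop (nhds 0) :=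
    tendsto_pow_const_div_const_pow_of_one_lt 1
      (Real.one_lt_exp_iff.2 (mul_pos he (Real.log_pos (by norm_num))))
  have h2 : ∀ᶠ n : ℕ in atTop, (n : ℝ) ^ 1 / (Real.exp (e * Real.log 2)) ^ n < 1 / 2 :=
    h1.eventually_lt_const (by norm_num)
  filter_upwards [h2, Filter.eventually_ge_atTop 1] with n hn hn1
  have h3 : (2 : ℝ) ^ ((n : ℝ) * e) = (Real.exp (e * Real.log 2)) ^ n := by
    rw [Real.rpow_def_of_pos (by norm_num), ← Real.exp_nat_mul]
    congr 1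
    ring
  rw [h3]
  have h4 : (0 : ℝ) < (Real.exp (e * Real.log 2)) ^ n := by positivity
  rw [div_lt_iff₀ h4, pow_one] at hn
  have h5 : (1 : ℝ) ≤ n := by exact_mod_cast hn1
  linarith

theorem num1_le_two_rpow {C : ℝ} (hC : 1 ≤ C) : C ≤ (2 : ℝ) ^ C := by
  have h1 : 1 + C * Real.log 2 ≤ (2 : ℝ) ^ C := by
    rw [Real.rpow_def_of_pos (by norm_num)]
    have := Real.add_one_le_exp (Real.log 2 * C)
    linarith
  -- use Bernoulli
  have h2 : 1 + C * 1 ≤ (1 + 1 : ℝ) ^ C := one_add_mul_self_le_rpow_one_add (by norm_num) hC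
  norm_num at h2
  linarith

/-- the final numerical estimate -/
theorem final_num {C e : ℝ} (hC : 1 ≤ C) (he : 0 < e) :
    ∃ c : ℝ, 0 < c ∧ ∀ᶠ n : ℕ in atTop, ∀ t : ℕ, 1 ≤ t → (t : ℝ) ≤ c * Real.sqrt n →
      (t : ℝ) * 2 ^ (t + t ^ 2) * 2 ^ (t ^ 2) * (C ^ t * Real.sqrt (C * (n + 1))) ≤
        (2 : ℝ) ^ ((n : ℝ) * e) := by
  refine ⟨Real.sqrt (e / (2 * (4 + 2 * C))), Real.sqrt_pos.2 (by positivity), ?_⟩
  filter_upwards [num1_ev (half_pos he)] with n hn t ht htc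
  have htR : (1 : ℝ) ≤ t := by exact_mod_cast ht
  have ht2 : (t : ℝ) ^ 2 ≤ e / (2 * (4 + 2 * C)) * n := by
    have h1 : (t : ℝ) ^ 2 ≤ (Real.sqrt (e / (2 * (4 + 2 * C))) * Real.sqrt n) ^ 2 := by
      apply pow_le_pow_left₀ (by positivity) htc
    rw [mul_pow, Real.sq_sqrt (by positivity), Real.sq_sqrt (by positivity)] at h1
    exact h1
  have hkey : (4 + 2 * C) * (t : ℝ) ^ 2 ≤ (n : ℝ) * (e / 2) := by
    have h1 : (4 + 2 * C) * (t : ℝ) ^ 2 ≤ (4 + 2 * C) * (e / (2 * (4 + 2 * C)) * n) :=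
      mul_le_mul_of_nonneg_left ht2 (by positivity)
    have h2 : (4 + 2 * C) * (e / (2 * (4 + 2 * C)) * n) = (n : ℝ) * (e / 2) := by
      field_simp
    linarith
  -- the four factors
  have f1 : (t : ℝ) ≤ (2 : ℝ) ^ t := by
    exact_mod_cast (Nat.lt_two_pow_self (n := t)).le
  have hCt : C ^ t * Real.sqrt (C * (n + 1)) ≤ C ^ (2 * t) * (n + 1) := by
    have h1 : Real.sqrt (C * (n + 1)) ≤ C * (n + 1) := by
      rw [Real.sqrt_le_left (by positivity)]
      have h3 : (1 : ℝ) ≤ C * (n + 1) := by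
        have : (0 : ℝ) ≤ n := Nat.cast_nonneg n
        nlinarith
      nlinarith
    have h2 : C ^ t * C ≤ C ^ (2 * t) := by
      rw [← pow_succ]
      exact pow_le_pow_right₀ hC (by omega)
    calc C ^ t * Real.sqrt (C * (n + 1)) ≤ C ^ t * (C * (n + 1)) :=
          mul_le_mul_of_nonneg_left h1 (by positivity)
      _ = (C ^ t * C) * (n + 1) := by ring
      _ ≤ C ^ (2 * t) * (n + 1) := mul_le_mul_of_nonneg_right h2 (by positivity)
  have hC2 : C ^ (2 * t) ≤ (2 : ℝ) ^ (2 * C * (t : ℝ) ^ 2) := by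
    have h1 : C ^ (2 * t) ≤ ((2 : ℝ) ^ C) ^ (2 * t) :=
      pow_le_pow_left₀ (by linarith) (num1_le_two_rpow hC) _
    rw [← Real.rpow_natCast, ← Real.rpow_natCast, ← Real.rpow_mul (by norm_num)] at h1
    rw [← Real.rpow_natCast]
    refine h1.trans ?_
    apply Real.rpow_le_rpow_of_exponent_le (by norm_num)
    push_cast
    nlinarith [mul_nonneg (by linarith : (0 : ℝ) ≤ C) (mul_nonneg (by linarith : (0 : ℝ) ≤ (t : ℝ))
      (by linarith : (0 : ℝ) ≤ (t : ℝ) - 1))]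
  have h2pow : (t : ℝ) * 2 ^ (t + t ^ 2) * 2 ^ (t ^ 2) ≤ (2 : ℝ) ^ (4 * (t : ℝ) ^ 2) := by
    have h1 : (t : ℝ) * 2 ^ (t + t ^ 2) * 2 ^ (t ^ 2) ≤ 2 ^ t * 2 ^ (t + t ^ 2) * 2 ^ (t ^ 2) := by
      gcongr
    rw [← pow_add, ← pow_add] at h1
    refine h1.trans ?_
    rw [← Real.rpow_natCast]
    apply Real.rpow_le_rpow_of_exponent_le (by norm_num)
    push_cast
    nlinarith
  calc (t : ℝ) * 2 ^ (t + t ^ 2) * 2 ^ (t ^ 2) * (C ^ t * Real.sqrt (C * (n + 1)))
      ≤ (2 : ℝ) ^ (4 * (t : ℝ) ^ 2) * ((2 : ℝ) ^ (2 * C * (t : ℝ) ^ 2) * (2 : ℝ) ^ ((n : ℝ) * (e / 2))) := by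
        apply mul_le_mul h2pow _ (by positivity) (by positivity)
        refine hCt.trans ?_
        exact mul_le_mul hC2 hn (by positivity) (by positivity)
    _ = (2 : ℝ) ^ ((4 + 2 * C) * (t : ℝ) ^ 2 + (n : ℝ) * (e / 2)) := by
        rw [← Real.rpow_add (by norm_num), ← Real.rpow_add (by norm_num)]
        congr 1
        ring
    _ ≤ (2 : ℝ) ^ ((n : ℝ) * e) := by
        apply Real.rpow_le_rpow_of_exponent_le (by norm_num)
        linarith

end Pool.Agent.Lib.MP_0430e4_lc.Las
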