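import Pool.Agent.Lib.MP_0430e4_lc.Las.Defs

/-!
# NUM2: the choice of the parameters
-/

set_option autoImplicit false

namespace Pool.Agent.Lib.MP_0430e4_lc.Las

open Finset Filter Topology

theorem num2_H2_cont : Continuous H2 := by
  unfold H2
  exact Real.binEntropy_continuous.div_const _

theorem num2_H2_lt {x y : ℝ} (hx : 0 ≤ x) (hxy : x < y) (hy : y ≤ 1 / 2) : H2 x < H2 y := by
  unfold H2
  apply div_lt_div_of_pos_right _ (Real.log_pos (by norm_num))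
  apply Real.binEntropy_strictMonoOn
  · constructor
    · exact hx
    · have : (2 : ℝ)⁻¹ = 1 / 2 := by norm_num
      rw [this]; linarith
  · constructor
    · linarith
    · have : (2 : ℝ)⁻¹ = 1 / 2 := by norm_num
      rw [this]; exact hy
  · exact hxy

/-- the parameters -/
theorem params {δ γ : ℝ} (h0 : 0 < δ) (h1 : δ < 1 / 2)
    (hγ : γ < (H2 (1 / 2 - Real.sqrt (δ * (1 - δ))) - (1 - H2 δ)) / 2) :
    ∃ ω η κ : ℝ, 0 < ω ∧ ω < 1 / 2 ∧ 0 < η ∧ δ + η < 1 / 2 ∧ 0 < κ ∧ κ ≤ 1 ∧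
      γ < (H2 ω - (1 - H2 δ)) / 2 ∧ H2 δ < H2 (δ + η) ∧
      4 * ω * (1 - ω) < (1 - κ) * (1 - 2 * (δ + η)) ^ 2 := by
  set s := Real.sqrt (δ * (1 - δ)) with hs
  have hp : 0 < δ * (1 - δ) := mul_pos h0 (by linarith)
  have hs0 : 0 < s := Real.sqrt_pos.2 hp
  have hs2 : s ^ 2 = δ * (1 - δ) := Real.sq_sqrt hp.le
  have hs1 : s < 1 / 2 := by
    by_contra hcon
    push Not at hcon
    have h3 : δ * (1 - δ) < 1 / 4 := by nlinarith [mul_pos (by linarith : 0 < 1 / 2 - δ) (by linarith : 0 < 1 / 2 - δ)]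
    nlinarith
  set ω0 := 1 / 2 - s with hω0
  have hw0 : 0 < ω0 := by linarith
  have hw1 : ω0 < 1 / 2 := by linarith
  -- choice of ω
  have e1 : ∀ᶠ ω in 𝓝[<] ω0, γ < (H2 ω - (1 - H2 δ)) / 2 := by
    have hc : ContinuousAt (fun ω => (H2 ω - (1 - H2 δ)) / 2) ω0 :=
      ((num2_H2_cont.sub continuous_const).div_const 2).continuousAt
    exact nhdsWithin_le_nhds (hc.eventually (lt_mem_nhds hγ))
  have e2 : ∀ᶠ ω in 𝓝[<] ω0, 0 < ω := nhdsWithin_le_nhds (lt_mem_nhds hw0)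
  have e3 : ∀ᶠ ω in 𝓝[<] ω0, ω < ω0 := self_mem_nhdsWithin
  obtain ⟨ω, ⟨hω1, hω2⟩, hω3⟩ := ((e1.and e2).and e3).exists
  have hlt : 4 * ω * (1 - ω) < (1 - 2 * δ) ^ 2 := by
    have h5 : 4 * ω0 * (1 - ω0) = (1 - 2 * δ) ^ 2 := by
      rw [hω0]
      nlinarith [hs2]
    have h6 : 4 * ω * (1 - ω) < 4 * ω0 * (1 - ω0) := by
      nlinarith [mul_pos (by linarith : 0 < ω0 - ω) (by linarith : 0 < 1 - ω0 - ω)]
    linarith
  -- choice of η = κ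
  have f1 : ∀ᶠ x in 𝓝[>] (0 : ℝ), 4 * ω * (1 - ω) < (1 - x) * (1 - 2 * (δ + x)) ^ 2 := by
    have hc : ContinuousAt (fun x : ℝ => (1 - x) * (1 - 2 * (δ + x)) ^ 2) 0 := by
      have : Continuous (fun x : ℝ => (1 - x) * (1 - 2 * (δ + x)) ^ 2) := by fun_prop
      exact this.continuousAt
    refine nhdsWithin_le_nhds (hc.eventually (lt_mem_nhds ?_))
    show 4 * ω * (1 - ω) < (1 - 0) * (1 - 2 * (δ + 0)) ^ 2
    rw [sub_zero, one_mul, add_zero]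
    exact hlt
  have f2 : ∀ᶠ x in 𝓝[>] (0 : ℝ), x < 1 / 2 - δ :=
    nhdsWithin_le_nhds (gt_mem_nhds (by linarith))
  have f3 : ∀ᶠ x in 𝓝[>] (0 : ℝ), 0 < x := self_mem_nhdsWithin
  obtain ⟨x, ⟨hx1, hx2⟩, hx3⟩ := ((f1.and f2).and f3).exists
  refine ⟨ω, x, x, hω2, by linarith, hx3, by linarith, hx3, by linarith, hω1,
    num2_H2_lt h0.le (by linarith) (by linarith), hx1⟩

/-- the conditions at length `n` -/
theorem params_nat {δ ω η κ : ℝ} (h0 : 0 < δ) (hω : 0 < ω) (hω2 : ω < 1 / 2) (hη : 0 < η)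
    (hδη : δ + η < 1 / 2) (hκ : 0 < κ)
    (hc : 4 * ω * (1 - ω) < (1 - κ) * (1 - 2 * (δ + η)) ^ 2) :
    ∀ᶠ n : ℕ in atTop, ∃ k d2 : ℕ, 2 * k + 2 ≤ n ∧ 2 * d2 < n ∧ ⌈δ * n⌉₊ ≤ d2 ∧ 1 ≤ ⌈δ * n⌉₊ ∧
      ω * n ≤ (k + 1 : ℕ) ∧ (δ + η) * n ≤ d2 ∧
      4 * ((k : ℝ) + 1) * (n - k) ≤ (1 - κ) * ((n : ℝ) - 2 * d2) ^ 2 := by
  set β := 1 - 2 * (δ + η) with hβd
  have hβ : 0 < β := by linarith
  have h1κ : 0 < 1 - κ := by
    by_contra hcon
    push Not at hcon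
    have h2 : (1 - κ) * β ^ 2 ≤ 0 := mul_nonpos_of_nonpos_of_nonneg hcon (sq_nonneg _)
    have h3 : 0 < 4 * ω * (1 - ω) := by
      have : 0 < ω * (1 - ω) := mul_pos hω (by linarith)
      linarith
    linarith
  set Δ := (1 - κ) * β ^ 2 - 4 * ω * (1 - ω) with hΔd
  have hΔ : 0 < Δ := by linarith
  have g : ∀ c : ℝ, ∀ᶠ n : ℕ in atTop, c ≤ (n : ℝ) := fun c =>
    tendsto_natCast_atTop_atTop.eventually_ge_atTop c
  have hω3 : 0 < 1 - 2 * ω := by linarith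
  filter_upwards [g 1, g (2 / (1 - 2 * ω)), g (3 / β), g ((4 * (1 - κ) * β + 4 + 4 * κ) / Δ)]
    with n n1 n2 n3 n4
  rw [div_le_iff₀ hω3] at n2
  rw [div_le_iff₀ hβ] at n3
  rw [div_le_iff₀ hΔ] at n4
  have hn0 : (0 : ℝ) < n := by linarith
  have a1 := Nat.le_ceil (ω * n)
  have a2 := Nat.ceil_lt_add_one (mul_nonneg hω.le hn0.le)
  have a3 : 0 < ⌈ω * n⌉₊ := Nat.ceil_pos.2 (mul_pos hω hn0)
  have b1 := Nat.le_ceil ((δ + η) * n)
  have b2 := Nat.ceil_lt_add_one (mul_nonneg (by linarith : 0 ≤ δ + η) hn0.le)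
  refine ⟨⌈ω * n⌉₊ - 1, ⌈(δ + η) * n⌉₊, ?_, ?_, ?_, ?_, ?_, b1, ?_⟩
  · have h2 : (2 : ℝ) * ⌈ω * n⌉₊ ≤ n := by nlinarith
    have h3 : 2 * ⌈ω * n⌉₊ ≤ n := by exact_mod_cast h2
    omega
  · have h2 : (2 : ℝ) * ⌈(δ + η) * n⌉₊ < n := by
      rw [hβd] at n3
      nlinarith
    exact_mod_cast h2
  · exact Nat.ceil_mono (mul_le_mul_of_nonneg_right (by linarith) hn0.le)
  · exact Nat.ceil_pos.2 (mul_pos h0 hn0)
  · rw [Nat.sub_add_cancel a3]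
    exact a1
  · have hk : ((⌈ω * n⌉₊ - 1 : ℕ) : ℝ) = (⌈ω * n⌉₊ : ℝ) - 1 := by
      rw [Nat.cast_sub a3, Nat.cast_one]
    rw [hk]
    set K := (⌈ω * n⌉₊ : ℝ) with hK
    set L := (⌈(δ + η) * n⌉₊ : ℝ) with hL
    clear_value K L
    have c2 : 0 ≤ K := (mul_pos hω hn0).le.trans a1
    have c1 : 4 * (K - 1 + 1) * (n - (K - 1)) ≤ 4 * (ω * n + 1) * (n + 1 - ω * n) := by
      have c3 : 0 ≤ n + 1 - ω * n := by
        have : ω * n ≤ 1 * n := mul_le_mul_of_nonneg_right (by linarith) hn0.le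
        linarith
      have c4 : K * (n + 1 - K) ≤ (ω * n + 1) * (n + 1 - ω * n) := by
        have c5 : K * (n + 1 - K) ≤ K * (n + 1 - ω * n) :=
          mul_le_mul_of_nonneg_left (by linarith) c2
        have c6 : K * (n + 1 - ω * n) ≤ (ω * n + 1) * (n + 1 - ω * n) :=
          mul_le_mul_of_nonneg_right a2.le c3
        linarith
      have c7 : 4 * (K - 1 + 1) * (n - (K - 1)) = 4 * (K * (n + 1 - K)) := by ring
      rw [c7]
      linarith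
    have d1 : 0 ≤ β * n - 2 := by linarith
    have d2 : β * n - 2 ≤ n - 2 * L := by
      have : β * n = n - 2 * ((δ + η) * n) := by rw [hβd]; ring
      linarith
    have d3 : (β * n - 2) ^ 2 ≤ (n - 2 * L) ^ 2 := pow_le_pow_left₀ d1 d2 2
    have d4 : (1 - κ) * (β * n - 2) ^ 2 ≤ (1 - κ) * (n - 2 * L) ^ 2 :=
      mul_le_mul_of_nonneg_left d3 h1κ.le
    have d5 : (4 * (1 - κ) * β + 4 + 4 * κ) * n ≤ Δ * n * n := by
      have := mul_le_mul_of_nonneg_right n4 hn0.le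
      linarith
    have d6 : 4 * κ * 1 ≤ 4 * κ * n := mul_le_mul_of_nonneg_left n1 (by linarith)
    have d7 : 4 * (ω * n + 1) * (n + 1 - ω * n) ≤ (1 - κ) * (β * n - 2) ^ 2 := by
      have e : (1 - κ) * (β * n - 2) ^ 2 - 4 * (ω * n + 1) * (n + 1 - ω * n) =
          Δ * n * n - (4 * (1 - κ) * β + 4) * n - 4 * κ := by
        rw [hΔd]
        ring
      have e2 : (4 * (1 - κ) * β + 4 + 4 * κ) * n = (4 * (1 - κ) * β + 4) * n + 4 * κ * n := by ring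
      linarith
    linarith

end Pool.Agent.Lib.MP_0430e4_lc.Las
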