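import Pool.Agent.Lib.MP_0430e4_lc.Las.KERC
import Pool.Agent.Lib.MP_0430e4_lc.Las.FUN3
import Pool.Agent.Lib.MP_0430e4_lc.Las.NUM1
import Pool.Agent.Lib.MP_0430e4_lc.Las.NUM2
import Pool.Agent.Lib.MP_0430e4_lc.Las.GAP

/-!
# FIN: the lower bound for the Lasserre hierarchy
-/

set_option autoImplicit false

namespace Pool.Agent.Lib.MP_0430e4_lc.Las

open Finset Filter
open Tensor (chi flp)
open Impr (wt)
open LPL (hat)

theorem fin_pow2 (x : ℝ) : (0 : ℝ) < (2 : ℝ) ^ x := Real.rpow_pos_of_pos (by norm_num) x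

/-- the bound for fixed `n`, `t` -/
theorem fin_core {δ ω η κ γ : ℝ} (h0 : 0 < δ) (h1 : δ < 1 / 2) (hω : 0 < ω) (hω2 : ω < 1 / 2)
    (hη : 0 < η) (hδη : δ + η < 1 / 2) (hκ : 0 < κ) (hγ0 : 0 ≤ γ)
    {n t : ℕ} (ht : 1 ≤ t) {k d2 : ℕ} (hk : 2 * k + 2 ≤ n) (hd2 : 2 * d2 < n)
    (hdd : ⌈δ * n⌉₊ ≤ d2) (hd : 1 ≤ ⌈δ * n⌉₊) (hωk : ω * n ≤ (k + 1 : ℕ))
    (hδd2 : (δ + η) * n ≤ d2)
    (hc : 4 * ((k : ℝ) + 1) * (n - k) ≤ (1 - κ) * ((n : ℝ) - 2 * d2) ^ 2)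
    (hθ : (κ ^ 2)⁻¹ * ((n : ℝ) + 1) * (2 : ℝ) ^ (-((n : ℝ) * (H2 (δ + η) - H2 δ))) ≤ 1)
    (hρσ : (n : ℝ) + 1 ≤ (2 : ℝ) ^ ((n : ℝ) * (H2 ω - (1 - H2 δ))))
    (hfin : (t : ℝ) * 2 ^ (t + t ^ 2) * 2 ^ (t ^ 2) * ((1 + (κ ^ 2)⁻¹) ^ t *
      Real.sqrt ((1 + (κ ^ 2)⁻¹) * (n + 1))) ≤
        (2 : ℝ) ^ ((n : ℝ) * ((H2 ω - (1 - H2 δ)) / 2 - γ))) :
    (2 : ℝ) ^ ((n : ℝ) * (1 - H2 δ + γ / t)) ≤ las t n ⌈δ * n⌉₊ := by
  obtain ⟨a, ha1, ha2, ha3, ha4⟩ := exists_profile hk hd hdd hd2 hκ hc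
  have hB : ball n ⌈δ * n⌉₊ ≤ (2 : ℝ) ^ ((n : ℝ) * H2 δ) := ball_le h0 h1 n
  set d := ⌈δ * n⌉₊ with hdef
  set C : ℝ := 1 + (κ ^ 2)⁻¹ with hCdef
  have hκ2 : 0 < κ ^ 2 := by positivity
  have hC1 : 1 ≤ C := by
    have : 0 < (κ ^ 2)⁻¹ := by positivity
    rw [hCdef]; linarith
  have hC0 : 0 < C := by linarith
  have hn1 : (0 : ℝ) < (n : ℝ) + 1 := by positivity
  have htR : (1 : ℝ) ≤ t := by exact_mod_cast ht
  have htR0 : (0 : ℝ) < t := by linarith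
  have hch1 : (2 : ℝ) ^ ((n : ℝ) * H2 (δ + η)) ≤ (n + 1) * n.choose d2 :=
    choose_ge (by linarith) hδη.le hδd2 hd2.le
  have hch2 : (2 : ℝ) ^ ((n : ℝ) * H2 ω) ≤ (n + 1) * n.choose (k + 1) :=
    choose_ge hω hω2.le hωk (by omega)
  set T : ℝ := (κ ^ 2)⁻¹ * ((n : ℝ) + 1) * (2 : ℝ) ^ (-((n : ℝ) * (H2 (δ + η) - H2 δ))) with hT
  have hT0 : 0 ≤ T := by
    have := fin_pow2 (-((n : ℝ) * (H2 (δ + η) - H2 δ)))
    positivity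
  have hθ1 : Real.sqrt T ≤ 1 := by
    exact Real.sqrt_le_one.2 hθ
  -- the values of the profile
  have haT : ∀ j, d ≤ j → a j ^ 2 ≤ T := by
    intro j hj
    have e1 := ha2 j hj
    have e2 : (2 : ℝ) ^ (-((n : ℝ) * (H2 (δ + η) - H2 δ))) =
        (2 : ℝ) ^ ((n : ℝ) * H2 δ) / (2 : ℝ) ^ ((n : ℝ) * H2 (δ + η)) := by
      rw [← Real.rpow_sub (by norm_num)]
      congr 1
      ring
    rw [hT, e2]
    have hX := fin_pow2 ((n : ℝ) * H2 δ)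
    have hY := fin_pow2 ((n : ℝ) * H2 (δ + η))
    have e3 : κ ^ 2 * a j ^ 2 * (2 : ℝ) ^ ((n : ℝ) * H2 (δ + η)) ≤
        ((n : ℝ) + 1) * (2 : ℝ) ^ ((n : ℝ) * H2 δ) := by
      calc κ ^ 2 * a j ^ 2 * (2 : ℝ) ^ ((n : ℝ) * H2 (δ + η))
          ≤ κ ^ 2 * a j ^ 2 * ((n + 1) * n.choose d2) :=
            mul_le_mul_of_nonneg_left hch1 (by positivity)
        _ = (n + 1) * (κ ^ 2 * a j ^ 2 * n.choose d2) := by ring
        _ ≤ (n + 1) * (2 : ℝ) ^ ((n : ℝ) * H2 δ) :=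
            mul_le_mul_of_nonneg_left (e1.trans hB) hn1.le
    have e4 : (κ ^ 2)⁻¹ * ((n : ℝ) + 1) *
        ((2 : ℝ) ^ ((n : ℝ) * H2 δ) / (2 : ℝ) ^ ((n : ℝ) * H2 (δ + η))) =
        (((n : ℝ) + 1) * (2 : ℝ) ^ ((n : ℝ) * H2 δ)) /
          (κ ^ 2 * (2 : ℝ) ^ ((n : ℝ) * H2 (δ + η))) := by
      field_simp
    rw [e4, le_div_iff₀ (by positivity)]
    linarith
  have habs : ∀ j, d ≤ j → |a j| ≤ Real.sqrt T := fun j hj => Real.abs_le_sqrt (haT j hj)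
  have hlo : ∀ j ≤ n, -1 ≤ a j := by
    intro j _
    rcases lt_or_ge j d with h | h
    · rw [ha1 j h]
    · have := (abs_le.1 (habs j h)).1
      linarith
  have hup : ∀ j ≤ n, a j ≤ Real.sqrt T := by
    intro j _
    rcases lt_or_ge j d with h | h
    · rw [ha1 j h]
      have := Real.sqrt_nonneg T
      linarith
    · exact (abs_le.1 (habs j h)).2
  -- sigma
  set G : ℝ := 1 - H2 δ with hG
  set S2 : ℝ := C * (2 : ℝ) ^ (-((n : ℝ) * G)) with hS2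
  have hS20 : 0 < S2 := mul_pos hC0 (fin_pow2 _)
  have hsq : ∑ x : Fin n → Bool, a (wt x) ^ 2 ≤ 2 ^ n * Real.sqrt S2 ^ 2 := by
    rw [Real.sq_sqrt hS20.le]
    refine ha3.trans ?_
    have e1 : (2 : ℝ) ^ n * S2 = C * (2 : ℝ) ^ ((n : ℝ) * H2 δ) := by
      rw [hS2, ← Real.rpow_natCast 2 n]
      have e2 : (2 : ℝ) ^ (n : ℝ) * (C * (2 : ℝ) ^ (-((n : ℝ) * G))) =
          C * ((2 : ℝ) ^ (n : ℝ) * (2 : ℝ) ^ (-((n : ℝ) * G))) := by ring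
      rw [e2, ← Real.rpow_add (by norm_num)]
      congr 2
      rw [hG]; ring
    rw [e1]
    exact mul_le_mul_of_nonneg_left hB hC0.le
  -- rho
  set R2 : ℝ := C * ((n : ℝ) + 1) * (2 : ℝ) ^ (-((n : ℝ) * (G + H2 ω))) with hR2
  have hR20 : 0 < R2 := mul_pos (mul_pos hC0 hn1) (fin_pow2 _)
  have hhat : ∀ v : Fin n → Bool, |hat (fun x => a (wt x)) v| ≤ 2 ^ n * Real.sqrt R2 := by
    intro v
    have e1 := ha4 v
    have hY := fin_pow2 ((n : ℝ) * H2 ω)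
    have e2 : hat (fun x => a (wt x)) v ^ 2 * (2 : ℝ) ^ ((n : ℝ) * H2 ω) ≤
        2 ^ n * (C * ((n : ℝ) + 1) * (2 : ℝ) ^ ((n : ℝ) * H2 δ)) := by
      calc hat (fun x => a (wt x)) v ^ 2 * (2 : ℝ) ^ ((n : ℝ) * H2 ω)
          ≤ hat (fun x => a (wt x)) v ^ 2 * ((n + 1) * n.choose (k + 1)) :=
            mul_le_mul_of_nonneg_left hch2 (by positivity)
        _ = (n + 1) * (hat (fun x => a (wt x)) v ^ 2 * n.choose (k + 1)) := by ring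
        _ ≤ (n + 1) * (2 ^ n * (C * (2 : ℝ) ^ ((n : ℝ) * H2 δ))) := by
            apply mul_le_mul_of_nonneg_left _ hn1.le
            refine e1.trans ?_
            apply mul_le_mul_of_nonneg_left _ (by positivity)
            exact mul_le_mul_of_nonneg_left hB hC0.le
        _ = _ := by ring
    have e3 : (2 ^ n * Real.sqrt R2) ^ 2 * (2 : ℝ) ^ ((n : ℝ) * H2 ω) =
        2 ^ n * (C * ((n : ℝ) + 1) * (2 : ℝ) ^ ((n : ℝ) * H2 δ)) := by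
      rw [mul_pow, Real.sq_sqrt hR20.le, hR2]
      have e4 : ((2 : ℝ) ^ n) ^ 2 * (C * ((n : ℝ) + 1) * (2 : ℝ) ^ (-((n : ℝ) * (G + H2 ω)))) *
          (2 : ℝ) ^ ((n : ℝ) * H2 ω) = 2 ^ n * (C * ((n : ℝ) + 1) *
            ((2 : ℝ) ^ (n : ℝ) * (2 : ℝ) ^ (-((n : ℝ) * (G + H2 ω))) * (2 : ℝ) ^ ((n : ℝ) * H2 ω))) := by
        rw [Real.rpow_natCast]; ring
      rw [e4, ← Real.rpow_add (by norm_num), ← Real.rpow_add (by norm_num)]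
      congr 3
      rw [hG]; ring
    have e5 : hat (fun x => a (wt x)) v ^ 2 ≤ (2 ^ n * Real.sqrt R2) ^ 2 := by
      rw [← e3] at e2
      exact le_of_mul_le_mul_right e2 hY
    exact abs_le_of_sq_le_sq e5 (by positivity)
  have hρσ' : Real.sqrt R2 ≤ Real.sqrt S2 ^ 2 := by
    rw [Real.sq_sqrt hS20.le, Real.sqrt_le_left hS20.le]
    have e1 : S2 ^ 2 = C ^ 2 * (2 : ℝ) ^ (-(2 * ((n : ℝ) * G))) := by
      rw [hS2, mul_pow, ← Real.rpow_natCast (2 ^ _) 2, ← Real.rpow_mul (by norm_num)]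
      congr 2
      push_cast; ring
    have e2 : R2 ≤ C * ((2 : ℝ) ^ ((n : ℝ) * (H2 ω - G))) * (2 : ℝ) ^ (-((n : ℝ) * (G + H2 ω))) := by
      rw [hR2]
      apply mul_le_mul_of_nonneg_right _ (fin_pow2 _).le
      exact mul_le_mul_of_nonneg_left hρσ hC0.le
    rw [mul_assoc, ← Real.rpow_add (by norm_num)] at e2
    have e3 : (n : ℝ) * (H2 ω - G) + -((n : ℝ) * (G + H2 ω)) = -(2 * ((n : ℝ) * G)) := by ring
    rw [e3] at e2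
    rw [e1]
    refine e2.trans ?_
    apply mul_le_mul_of_nonneg_right _ (fin_pow2 _).le
    nlinarith
  -- M and R
  have hM : 0 < (2 : ℝ) ^ ((n : ℝ) * (G + γ / t)) := fin_pow2 _
  refine las_ge ht hd ha1 hlo hup (Real.sqrt_nonneg _) hθ1 (Real.sqrt_nonneg _) hsq
    (Real.sqrt_nonneg _) hρσ' hhat hM
    (R := C ^ t * Real.sqrt (C * (n + 1)) * (2 : ℝ) ^ (-((n : ℝ) * ((H2 ω - G) / 2 - γ)))) ?_ ?_
  · intro m hm
    have e1 : Real.sqrt S2 * Real.sqrt ((2 : ℝ) ^ ((n : ℝ) * (G + γ / t))) =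
        Real.sqrt (C * (2 : ℝ) ^ ((n : ℝ) * (γ / t))) := by
      rw [← Real.sqrt_mul hS20.le, hS2, mul_assoc, ← Real.rpow_add (by norm_num)]
      congr 3
      ring
    rw [e1]
    have hge1 : 1 ≤ C * (2 : ℝ) ^ ((n : ℝ) * (γ / t)) := by
      have : 1 ≤ (2 : ℝ) ^ ((n : ℝ) * (γ / t)) := by
        apply Real.one_le_rpow (by norm_num)
        positivity
      nlinarith
    have hs1 : 1 ≤ Real.sqrt (C * (2 : ℝ) ^ ((n : ℝ) * (γ / t))) := by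
      rw [Real.one_le_sqrt]; exact hge1
    have e2 : Real.sqrt (C * (2 : ℝ) ^ ((n : ℝ) * (γ / t))) ^ m ≤
        C ^ t * (2 : ℝ) ^ ((n : ℝ) * (γ * (t - 1) / t)) := by
      have e3 : Real.sqrt (C * (2 : ℝ) ^ ((n : ℝ) * (γ / t))) ^ m ≤
          Real.sqrt (C * (2 : ℝ) ^ ((n : ℝ) * (γ / t))) ^ (2 * (t - 1)) :=
        pow_le_pow_right₀ hs1 (by omega)
      refine e3.trans ?_
      rw [pow_mul, Real.sq_sqrt (by positivity), mul_pow, ← Real.rpow_natCast (2 ^ _) (t - 1),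
        ← Real.rpow_mul (by norm_num), Nat.cast_sub ht]
      have e4 : (n : ℝ) * (γ / t) * ((t : ℝ) - (1 : ℕ)) = (n : ℝ) * (γ * (t - 1) / t) := by
        push_cast; ring
      rw [e4]
      apply mul_le_mul_of_nonneg_right _ (fin_pow2 _).le
      exact pow_le_pow_right₀ hC1 (by omega)
    have e5 : (2 : ℝ) ^ ((n : ℝ) * (G + γ / t)) * Real.sqrt R2 =
        Real.sqrt (C * (n + 1)) * (2 : ℝ) ^ ((n : ℝ) * (G + γ / t) - (n : ℝ) * (G + H2 ω) / 2) := by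
      rw [hR2, Real.sqrt_mul (by positivity), Real.sqrt_eq_rpow ((2 : ℝ) ^ _),
        ← Real.rpow_mul (by norm_num), sub_eq_add_neg ((n : ℝ) * (G + γ / t)),
        Real.rpow_add (by norm_num)]
      have e6 : -((n : ℝ) * (G + H2 ω)) * (1 / 2) = -((n : ℝ) * (G + H2 ω) / 2) := by ring
      rw [e6]
      ring
    rw [e5]
    calc Real.sqrt (C * (n + 1)) * (2 : ℝ) ^ ((n : ℝ) * (G + γ / t) - (n : ℝ) * (G + H2 ω) / 2) *
          Real.sqrt (C * (2 : ℝ) ^ ((n : ℝ) * (γ / t))) ^ m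
        ≤ Real.sqrt (C * (n + 1)) * (2 : ℝ) ^ ((n : ℝ) * (G + γ / t) - (n : ℝ) * (G + H2 ω) / 2) *
          (C ^ t * (2 : ℝ) ^ ((n : ℝ) * (γ * (t - 1) / t))) :=
          mul_le_mul_of_nonneg_left e2 (by positivity)
      _ = C ^ t * Real.sqrt (C * (n + 1)) *
          ((2 : ℝ) ^ ((n : ℝ) * (G + γ / t) - (n : ℝ) * (G + H2 ω) / 2) *
            (2 : ℝ) ^ ((n : ℝ) * (γ * (t - 1) / t))) := by ring
      _ = C ^ t * Real.sqrt (C * (n + 1)) * (2 : ℝ) ^ (-((n : ℝ) * ((H2 ω - G) / 2 - γ))) := by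
          rw [← Real.rpow_add (by norm_num)]
          congr 2
          field_simp
          ring
      _ ≤ _ := le_rfl
  · have e1 : (1 + Real.sqrt T) ^ (t ^ 2) ≤ 2 ^ (t ^ 2) := by
      apply pow_le_pow_left₀ (by positivity)
      linarith
    have hP := fin_pow2 ((n : ℝ) * ((H2 ω - G) / 2 - γ))
    have hinv : (2 : ℝ) ^ ((n : ℝ) * ((H2 ω - G) / 2 - γ)) *
        (2 : ℝ) ^ (-((n : ℝ) * ((H2 ω - G) / 2 - γ))) = 1 := by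
      rw [← Real.rpow_add (by norm_num), add_neg_cancel, Real.rpow_zero]
    calc (t : ℝ) * 2 ^ (t + t ^ 2) * (1 + Real.sqrt T) ^ (t ^ 2) *
          (C ^ t * Real.sqrt (C * (n + 1)) * (2 : ℝ) ^ (-((n : ℝ) * ((H2 ω - G) / 2 - γ))))
        ≤ (t : ℝ) * 2 ^ (t + t ^ 2) * 2 ^ (t ^ 2) *
          (C ^ t * Real.sqrt (C * (n + 1)) * (2 : ℝ) ^ (-((n : ℝ) * ((H2 ω - G) / 2 - γ)))) := by
          gcongr
      _ = ((t : ℝ) * 2 ^ (t + t ^ 2) * 2 ^ (t ^ 2) * (C ^ t * Real.sqrt (C * (n + 1)))) *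
          (2 : ℝ) ^ (-((n : ℝ) * ((H2 ω - G) / 2 - γ))) := by ring
      _ ≤ (2 : ℝ) ^ ((n : ℝ) * ((H2 ω - G) / 2 - γ)) *
          (2 : ℝ) ^ (-((n : ℝ) * ((H2 ω - G) / 2 - γ))) :=
          mul_le_mul_of_nonneg_right hfin (fin_pow2 _).le
      _ = 1 := hinv

theorem las_lower {δ γ : ℝ} (h0 : 0 < δ) (h1 : δ < 1 / 2)
    (hγ : γ < (H2 (1 / 2 - Real.sqrt (δ * (1 - δ))) - (1 - H2 δ)) / 2) :
    ∃ c : ℝ, 0 < c ∧ ∃ n0 : ℕ, ∀ n ≥ n0, ∀ t : ℕ, 1 ≤ t → (t : ℝ) ≤ c * Real.sqrt n →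
      (2 : ℝ) ^ ((n : ℝ) * (1 - H2 δ + γ / t)) ≤ las t n ⌈δ * n⌉₊ := by
  have hgap := gap h0 h1
  have hγ' : max γ 0 < (H2 (1 / 2 - Real.sqrt (δ * (1 - δ))) - (1 - H2 δ)) / 2 :=
    max_lt hγ (by linarith)
  obtain ⟨ω, η, κ, hω, hω2, hη, hδη, hκ, hκ1, hγω, hH, hc⟩ := params h0 h1 hγ'
  set G : ℝ := 1 - H2 δ with hG
  have he : 0 < (H2 ω - G) / 2 - max γ 0 := by linarith
  have hC : (1 : ℝ) ≤ 1 + (κ ^ 2)⁻¹ := by
    have : 0 < (κ ^ 2)⁻¹ := by positivity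
    linarith
  obtain ⟨c, hc0, hfin⟩ := final_num hC he
  refine ⟨c, hc0, ?_⟩
  have hωG : 0 < H2 ω - G := by
    have := le_max_right γ 0
    linarith
  have hev1 := params_nat h0 hω hω2 hη hδη hκ hc
  have hev2 : ∀ᶠ n : ℕ in atTop,
      (κ ^ 2)⁻¹ * ((n : ℝ) + 1) * (2 : ℝ) ^ (-((n : ℝ) * (H2 (δ + η) - H2 δ))) ≤ 1 := by
    have hhalf : 0 < (H2 (δ + η) - H2 δ) / 2 := by linarith
    have hlim : Tendsto (fun n : ℕ => (n : ℝ) * ((H2 (δ + η) - H2 δ) / 2)) atTop atTop :=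
      tendsto_natCast_atTop_atTop.atTop_mul_const hhalf
    have h2 : ∀ᶠ n : ℕ in atTop, (κ ^ 2)⁻¹ ≤ (n : ℝ) * ((H2 (δ + η) - H2 δ) / 2) :=
      hlim.eventually_ge_atTop _
    filter_upwards [num1_ev hhalf, h2, Filter.eventually_ge_atTop 1] with n hn hn2 hn3
    have e1 : (κ ^ 2)⁻¹ ≤ (2 : ℝ) ^ ((n : ℝ) * ((H2 (δ + η) - H2 δ) / 2)) := by
      rcases le_or_gt 1 ((n : ℝ) * ((H2 (δ + η) - H2 δ) / 2)) with h | h
      · exact hn2.trans (num1_le_two_rpow h)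
      · have : (1 : ℝ) ≤ (2 : ℝ) ^ ((n : ℝ) * ((H2 (δ + η) - H2 δ) / 2)) := by
          apply Real.one_le_rpow (by norm_num)
          positivity
        linarith
    have hp : (2 : ℝ) ^ ((n : ℝ) * ((H2 (δ + η) - H2 δ) / 2)) *
        (2 : ℝ) ^ ((n : ℝ) * ((H2 (δ + η) - H2 δ) / 2)) *
        (2 : ℝ) ^ (-((n : ℝ) * (H2 (δ + η) - H2 δ))) = 1 := by
      rw [← Real.rpow_add (by norm_num), ← Real.rpow_add (by norm_num)]
      have : (n : ℝ) * ((H2 (δ + η) - H2 δ) / 2) + (n : ℝ) * ((H2 (δ + η) - H2 δ) / 2) +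
        -((n : ℝ) * (H2 (δ + η) - H2 δ)) = 0 := by ring
      rw [this, Real.rpow_zero]
    calc (κ ^ 2)⁻¹ * ((n : ℝ) + 1) * (2 : ℝ) ^ (-((n : ℝ) * (H2 (δ + η) - H2 δ)))
        ≤ (2 : ℝ) ^ ((n : ℝ) * ((H2 (δ + η) - H2 δ) / 2)) *
          (2 : ℝ) ^ ((n : ℝ) * ((H2 (δ + η) - H2 δ) / 2)) *
          (2 : ℝ) ^ (-((n : ℝ) * (H2 (δ + η) - H2 δ))) := by
          apply mul_le_mul_of_nonneg_right _ (fin_pow2 _).le
          exact mul_le_mul e1 hn (by positivity) (fin_pow2 _).le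
      _ = 1 := hp
  have hev3 := num1_ev hωG
  have hall := (hev1.and hev2).and (hev3.and hfin)
  obtain ⟨n0, hn0⟩ := Filter.eventually_atTop.1 hall
  refine ⟨n0, fun n hn t ht htc => ?_⟩
  obtain ⟨⟨⟨k, d2, hk, hd2, hdd, hd, hωk, hδd2, hcc⟩, hθ⟩, hρσ, hf⟩ := hn0 n hn
  have hmain := fin_core h0 h1 hω hω2 hη hδη hκ (le_max_right γ 0) ht hk hd2 hdd hd hωk hδd2 hcc
    hθ hρσ (hf t ht htc)
  refine le_trans ?_ hmain
  apply Real.rpow_le_rpow_of_exponent_le (by norm_num)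
  apply mul_le_mul_of_nonneg_left _ (Nat.cast_nonneg n)
  have htR0 : (0 : ℝ) < t := by exact_mod_cast ht
  have : γ / t ≤ max γ 0 / t := div_le_div_of_nonneg_right (le_max_left γ 0) htR0.le
  linarith

end Pool.Agent.Lib.MP_0430e4_lc.Las
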