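import Pool.Agent.Lib.MP_0430e4_lc.Las.KERC
import Pool.Agent.Lib.MP_0430e4_lc.Hier.Sdp

/-!
# TRIV: codes, monotonicity and Delsarte's linear program
-/

set_option autoImplicit false

namespace Pool.Agent.Lib.MP_0430e4_lc.Las

open Finset

section general

variable {V : Type*} [Fintype V] [DecidableEq V]

/-- the quadratic form for a family of small sets -/
theorem triv_form {ι : Type*} [Fintype ι] {t : ℕ} {y : Finset V → ℝ} (h : MomPos t y)
    (φ : ι → Finset V) (hφ : ∀ i, (φ i).card ≤ t) (c : ι → ℝ) :
    0 ≤ ∑ i, ∑ j, c i * c j * y (φ i ∪ φ j) := by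
  classical
  have key : ∀ F : Finset V → ℝ,
      ∑ A ∈ small V t, (∑ i, if φ i = A then c i else 0) * F A = ∑ i, c i * F (φ i) := by
    intro F
    simp only [sum_mul]
    rw [sum_comm]
    apply sum_congr rfl
    intro i _
    simp only [ite_mul, zero_mul]
    rw [sum_ite_eq (small V t) (φ i) (fun A => c i * F A)]
    rw [if_pos]
    unfold small
    simp [hφ i]
  have h1 := h (fun A => ∑ i, if φ i = A then c i else 0)
  have h2 : ∀ A : Finset V, ∑ B ∈ small V t, (∑ i, if φ i = A then c i else 0) *
      (∑ i, if φ i = B then c i else 0) * y (A ∪ B) =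
      (∑ i, if φ i = A then c i else 0) * ∑ j, c j * y (A ∪ φ j) := by
    intro A
    rw [← key (fun B => y (A ∪ B)), mul_sum]
    apply sum_congr rfl
    intro B _
    ring
  rw [sum_congr rfl (fun A _ => h2 A), key (fun A => ∑ j, c j * y (A ∪ φ j))] at h1
  refine h1.trans_eq ?_
  apply sum_congr rfl
  intro i _
  rw [mul_sum]
  apply sum_congr rfl
  intro j _
  ring

theorem triv_momPos_anti {s t : ℕ} (hst : s ≤ t) {y : Finset V → ℝ} (h : MomPos t y) :
    MomPos s y := by
  intro f
  have h1 := triv_form h (fun A : {A : Finset V // A ∈ small V s} => A.1) (fun A => by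
    have := A.2
    unfold small at this
    exact (mem_filter.1 this).2.trans hst) (fun A => f A.1)
  rw [sum_coe_sort (small V s) (fun A => ∑ B : {A : Finset V // A ∈ small V s},
    f A * f B.1 * y (A ∪ B.1))] at h1
  refine h1.trans_eq ?_
  apply sum_congr rfl
  intro A _
  exact sum_coe_sort (small V s) (fun B => f A * f B * y (A ∪ B))

theorem triv_momPos_indicator (t : ℕ) (C : Finset V) :
    MomPos t (fun S : Finset V => if S ⊆ C then (1 : ℝ) else 0) := by
  intro f
  have h1 : ∑ A ∈ small V t, ∑ B ∈ small V t,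
      f A * f B * (if A ∪ B ⊆ C then (1 : ℝ) else 0) =
      (∑ A ∈ small V t, f A * (if A ⊆ C then (1 : ℝ) else 0)) ^ 2 := by
    rw [sq, sum_mul_sum]
    apply sum_congr rfl
    intro A _
    apply sum_congr rfl
    intro B _
    by_cases h2 : A ⊆ C <;> by_cases h3 : B ⊆ C <;> simp [union_subset_iff, h2, h3]
  rw [h1]
  exact sq_nonneg _

theorem triv_isPseudo {y : Finset V → ℝ} (h0 : y ∅ = 1) (h : MomPos 2 y) : Hier.IsPseudo 3 y := by
  have hcard : ∀ a : Option V, a.toFinset.card ≤ 1 := by
    intro a
    cases a <;> simp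
  refine ⟨h0, ?_⟩
  intro T N hTN hk f
  rcases Nat.eq_zero_or_pos N.card with hN | hN
  · have hN' : N = ∅ := card_eq_zero.1 hN
    subst hN'
    simp only [Hier.condMat_empty]
    have h1 := triv_form h (fun a : Option V => T ∪ a.toFinset) (fun a => by
      have h2 := card_union_le T a.toFinset
      have h3 := hcard a
      simp only [card_empty] at hk
      omega) f
    refine h1.trans_eq ?_
    apply sum_congr rfl
    intro a _
    apply sum_congr rfl
    intro b _
    congr 2
    ext v
    simp only [mem_union]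
    tauto
  · have hN1 : N.card = 1 := by omega
    have hT : T = ∅ := card_eq_zero.1 (by omega)
    subst hT
    obtain ⟨x, rfl⟩ := card_eq_one.1 hN1
    have h1 := triv_form h (fun p : Option V × Bool =>
      if p.2 = true then {x} ∪ p.1.toFinset else p.1.toFinset) (fun p => by
      have h3 := hcard p.1
      split_ifs
      · have h2 := card_union_le {x} p.1.toFinset
        simp only [card_singleton] at h2
        omega
      · omega) (fun p => if p.2 = true then -f p.1 else f p.1)
    refine h1.trans_eq ?_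
    rw [Fintype.sum_prod_type]
    apply sum_congr rfl
    intro a _
    simp only [Fintype.sum_bool]
    rw [Fintype.sum_prod_type, Fintype.sum_prod_type, ← sum_add_distrib]
    apply sum_congr rfl
    intro b _
    simp only [Fintype.sum_bool, if_true]
    unfold Hier.condMat
    have e0 : ({x} : Finset V).powerset = {∅, {x}} := by
      ext S
      simp [subset_singleton_iff]
    have hne : (∅ : Finset V) ∉ ({{x}} : Finset (Finset V)) := by
      simp
    rw [e0, sum_insert hne, sum_singleton]
    have e1 : ({x} ∪ a.toFinset ∪ ({x} ∪ b.toFinset) : Finset V) = ∅ ∪ {x} ∪ a.toFinset ∪ b.toFinset := by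
      ext v
      simp only [mem_union, notMem_empty]
      tauto
    have e2 : ({x} ∪ a.toFinset ∪ b.toFinset : Finset V) = ∅ ∪ {x} ∪ a.toFinset ∪ b.toFinset := by
      ext v
      simp only [mem_union, notMem_empty]
      tauto
    have e3 : (a.toFinset ∪ ({x} ∪ b.toFinset) : Finset V) = ∅ ∪ {x} ∪ a.toFinset ∪ b.toFinset := by
      ext v
      simp only [mem_union, notMem_empty]
      tauto
    have e4 : (a.toFinset ∪ b.toFinset : Finset V) = ∅ ∪ ∅ ∪ a.toFinset ∪ b.toFinset := by
      ext v
      simp only [mem_union, notMem_empty]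
      tauto
    simp only [Bool.false_eq_true, if_false]
    rw [e1, e2, e3, e4]
    simp only [card_empty, pow_zero, card_singleton, pow_one]
    ring

end general

/-- codes give feasible points -/
theorem maxCode_le_las {t : ℕ} (ht : 1 ≤ t) (n d : ℕ) : (Tensor.maxCode n d : ℝ) ≤ las t n d := by
  classical
  obtain ⟨C, hC, hcard⟩ := Tensor.maxCode_attained n d
  rw [← hcard]
  apply le_csSup (las_bdd ht n d)
  refine ⟨fun S => if S ⊆ C then 1 else 0, by simp, ?_, triv_momPos_indicator t C, ?_⟩
  · rintro S ⟨u, hu, v, hv, huv, hd⟩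
    apply if_neg
    intro hS
    have := hC u (hS hu) v (hS hv) huv
    omega
  · simp only [singleton_subset_iff]
    simp

/-- there are feasible points -/
theorem triv_nonempty (t n d : ℕ) : {s : ℝ | ∃ y : Finset (Fin n → Bool) → ℝ, y ∅ = 1 ∧
    (∀ S : Finset (Fin n → Bool), (∃ u ∈ S, ∃ v ∈ S, u ≠ v ∧ hammingDist u v < d) → y S = 0) ∧
    MomPos t y ∧ s = ∑ x, y {x}}.Nonempty := by
  refine ⟨_, fun S => if S ⊆ (∅ : Finset (Fin n → Bool)) then (1 : ℝ) else 0, by simp, ?_,
    triv_momPos_indicator t ∅, rfl⟩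
  rintro S ⟨u, hu, -⟩
  apply if_neg
  intro hS
  exact absurd (hS hu) (notMem_empty u)

/-- the hierarchy is decreasing -/
theorem las_anti {s t : ℕ} (hs : 1 ≤ s) (hst : s ≤ t) (n d : ℕ) : las t n d ≤ las s n d := by
  apply csSup_le_csSup (las_bdd hs n d) (triv_nonempty t n d)
  rintro r ⟨y, h1, h2, h3, rfl⟩
  exact ⟨y, h1, h2, triv_momPos_anti hst h3, rfl⟩

/-- level two is at least as strong as Delsarte's linear program -/
theorem las_le_lp {t : ℕ} (ht : 2 ≤ t) (n d : ℕ) : las t n d ≤ Impr.lpBound n d := by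
  refine (las_anti (by norm_num : 1 ≤ 2) ht n d).trans ?_
  refine le_trans ?_ (Hier.sdp_le_lp (n := n) (d := d) (k := 3) le_rfl)
  apply csSup_le_csSup (Hier.sdp_bdd (by norm_num)) (triv_nonempty 2 n d)
  rintro r ⟨y, h1, h2, h3, rfl⟩
  exact ⟨y, triv_isPseudo h1 h3, h2, rfl⟩

end Pool.Agent.Lib.MP_0430e4_lc.Las
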