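import Pool.Agent.Lib.MP_0430e4_lc.Las.GRN2

/-!
# SETB: from tuples to sets
-/

set_option autoImplicit false

namespace Pool.Agent.Lib.MP_0430e4_lc.Las

open Finset

variable {V : Type*} [Fintype V] [DecidableEq V] {Φ : V → V → ℝ} {θ σ ρ : ℝ}

/-- an enumeration of every set with `a` elements -/
theorem setb_enum [Nonempty V] (a : ℕ) : ∃ e : Finset V → Fin a → V,
    ∀ A ∈ powersetCard a (univ : Finset V), Function.Injective (e A) ∧
      ∀ x, x ∈ A ↔ ∃ i, e A i = x := by
  classical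
  have : ∀ A : Finset V, ∃ f : Fin a → V, A ∈ powersetCard a (univ : Finset V) →
      Function.Injective f ∧ ∀ x, x ∈ A ↔ ∃ i, f i = x := by
    intro A
    by_cases hA : A.card = a
    · let E := (A.equivFinOfCardEq hA).symm
      refine ⟨fun i => (E i : V), fun _ => ⟨?_, ?_⟩⟩
      · intro i j hij
        exact E.injective (Subtype.ext hij)
      · intro x
        constructor
        · intro hx
          exact ⟨E.symm ⟨x, hx⟩, by simp⟩
        · rintro ⟨i, rfl⟩
          exact (E i).2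
    · refine ⟨fun _ => Classical.arbitrary V, fun h => ?_⟩
      exact absurd (mem_powersetCard.1 h).2 hA
  choose e he using this
  exact ⟨e, he⟩

/-- spreading a function on sets to tuples -/
noncomputable def setbP {a : ℕ} (e : Finset V → Fin a → V) (F : Finset V → ℝ) (α : Fin a → V) : ℝ :=
  ∑ A ∈ powersetCard a (univ : Finset V), if e A = α then F A else 0

theorem setbP_sum {a : ℕ} (e : Finset V → Fin a → V) (F : Finset V → ℝ) (K : (Fin a → V) → ℝ) :
    ∑ α, K α * setbP e F α = ∑ A ∈ powersetCard a (univ : Finset V), K (e A) * F A := by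
  unfold setbP
  simp only [mul_sum]
  rw [sum_comm]
  refine sum_congr rfl fun A _ => ?_
  simp only [mul_ite, mul_zero]
  rw [sum_ite_eq]
  simp

theorem setbP_inj {a : ℕ} {e : Finset V → Fin a → V}
    (he : ∀ A ∈ powersetCard a (univ : Finset V), Function.Injective (e A) ∧
      ∀ x, x ∈ A ↔ ∃ i, e A i = x) {A B : Finset V}
    (hA : A ∈ powersetCard a (univ : Finset V)) (hB : B ∈ powersetCard a (univ : Finset V))
    (h : e A = e B) : A = B := by
  ext x
  rw [(he A hA).2 x, (he B hB).2 x, h]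

theorem setbP_sq {a : ℕ} {e : Finset V → Fin a → V}
    (he : ∀ A ∈ powersetCard a (univ : Finset V), Function.Injective (e A) ∧
      ∀ x, x ∈ A ↔ ∃ i, e A i = x) (F : Finset V → ℝ) :
    ∑ α, setbP e F α ^ 2 = ∑ A ∈ powersetCard a (univ : Finset V), F A ^ 2 := by
  have h1 : ∑ α, setbP e F α ^ 2 = ∑ α, setbP e F α * setbP e F α :=
    sum_congr rfl fun α _ => sq _
  rw [h1, setbP_sum]
  refine sum_congr rfl fun A hA => ?_
  have h2 : setbP e F (e A) = F A := by
    unfold setbP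
    rw [sum_eq_single A]
    · simp
    · intro B hB hBA
      rw [if_neg]
      exact fun h => hBA (setbP_inj he hB hA h)
    · intro h
      exact absurd hA h
  rw [h2, sq]

/-- full graphs on index sets -/
def full (a b : ℕ) : Finset (Finset (Fin a × Fin b)) :=
  univ.filter fun γ => lft γ = univ ∧ rgt γ = univ

theorem setb_bij [Nonempty V] {a b : ℕ} {e : Finset V → Fin a → V} {e' : Finset V → Fin b → V}
    (he : ∀ A ∈ powersetCard a (univ : Finset V), Function.Injective (e A) ∧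
      ∀ x, x ∈ A ↔ ∃ i, e A i = x)
    (he' : ∀ A ∈ powersetCard b (univ : Finset V), Function.Injective (e' A) ∧
      ∀ x, x ∈ A ↔ ∃ i, e' A i = x)
    (F G : Finset V → ℝ) :
    ∑ g ∈ univ.filter (fun g : Finset (V × V) => (lft g).card = a ∧ (rgt g).card = b),
      edg Φ g * F (lft g) * G (rgt g)
    = ∑ x ∈ full a b ×ˢ (powersetCard a (univ : Finset V) ×ˢ powersetCard b (univ : Finset V)),
      (∏ c ∈ x.1, (Φ (e x.2.1 c.1) (e' x.2.2 c.2) - 1)) * F x.2.1 * G x.2.2 := by
  classical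
  have hinj : ∀ A ∈ powersetCard a (univ : Finset V), ∀ B ∈ powersetCard b (univ : Finset V),
      Function.Injective (Prod.map (e A) (e' B)) := fun A hA B hB =>
    (he A hA).1.prodMap (he' B hB).1
  have hl : ∀ A ∈ powersetCard a (univ : Finset V), ∀ B : Finset V,
      ∀ γ : Finset (Fin a × Fin b), lft γ = univ → lft (γ.image (Prod.map (e A) (e' B))) = A := by
    intro A hA B γ hγ
    ext x
    rw [grn2_mem_lft, (he A hA).2 x]
    constructor
    · rintro ⟨y, hy⟩
      obtain ⟨⟨i, j⟩, _, hij⟩ := mem_image.1 hy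
      exact ⟨i, congrArg Prod.fst hij⟩
    · rintro ⟨i, rfl⟩
      have : i ∈ lft γ := by rw [hγ]; exact mem_univ i
      obtain ⟨j, hj⟩ := grn2_mem_lft.1 this
      exact ⟨e' B j, mem_image.2 ⟨(i, j), hj, rfl⟩⟩
  have hr : ∀ A : Finset V, ∀ B ∈ powersetCard b (univ : Finset V),
      ∀ γ : Finset (Fin a × Fin b), rgt γ = univ → rgt (γ.image (Prod.map (e A) (e' B))) = B := by
    intro A B hB γ hγ
    ext x
    rw [grn2_mem_rgt, (he' B hB).2 x]
    constructor
    · rintro ⟨y, hy⟩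
      obtain ⟨⟨i, j⟩, _, hij⟩ := mem_image.1 hy
      exact ⟨j, congrArg Prod.snd hij⟩
    · rintro ⟨j, rfl⟩
      have : j ∈ rgt γ := by rw [hγ]; exact mem_univ j
      obtain ⟨i, hi⟩ := grn2_mem_rgt.1 this
      exact ⟨e A i, mem_image.2 ⟨(i, j), hi, rfl⟩⟩
  have hpre : ∀ g : Finset (V × V), (lft g).card = a → (rgt g).card = b →
      (univ.filter fun c : Fin a × Fin b => Prod.map (e (lft g)) (e' (rgt g)) c ∈ g).image
        (Prod.map (e (lft g)) (e' (rgt g))) = g := by
    intro g h1 h2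
    have hA : lft g ∈ powersetCard a (univ : Finset V) := mem_powersetCard.2 ⟨subset_univ _, h1⟩
    have hB : rgt g ∈ powersetCard b (univ : Finset V) := mem_powersetCard.2 ⟨subset_univ _, h2⟩
    ext ⟨x, y⟩
    rw [mem_image]
    constructor
    · rintro ⟨c, hc, hcx⟩
      rw [← hcx]
      exact (mem_filter.1 hc).2
    · intro hxy
      obtain ⟨i, hi⟩ := ((he _ hA).2 x).1 (grn2_mem_lft.2 ⟨y, hxy⟩)
      obtain ⟨j, hj⟩ := ((he' _ hB).2 y).1 (grn2_mem_rgt.2 ⟨x, hxy⟩)
      have e1 : Prod.map (e (lft g)) (e' (rgt g)) (i, j) = (x, y) := by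
        rw [Prod.map_apply, hi, hj]
      exact ⟨(i, j), mem_filter.2 ⟨mem_univ _, by rw [e1]; exact hxy⟩, e1⟩
  refine sum_nbij'
    (fun g => ((univ.filter fun c : Fin a × Fin b => Prod.map (e (lft g)) (e' (rgt g)) c ∈ g),
      (lft g, rgt g)))
    (fun x => x.1.image (Prod.map (e x.2.1) (e' x.2.2))) ?_ ?_ ?_ ?_ ?_
  · intro g hg
    obtain ⟨h1, h2⟩ := (mem_filter.1 hg).2
    have hA : lft g ∈ powersetCard a (univ : Finset V) := mem_powersetCard.2 ⟨subset_univ _, h1⟩
    have hB : rgt g ∈ powersetCard b (univ : Finset V) := mem_powersetCard.2 ⟨subset_univ _, h2⟩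
    rw [mem_product, mem_product]
    refine ⟨?_, hA, hB⟩
    unfold full
    rw [mem_filter]
    refine ⟨mem_univ _, ?_, ?_⟩
    · ext i
      simp only [mem_univ, iff_true]
      have h3 : e (lft g) i ∈ lft g := ((he _ hA).2 _).2 ⟨i, rfl⟩
      obtain ⟨y, hy⟩ := grn2_mem_lft.1 h3
      obtain ⟨j, hj⟩ := ((he' _ hB).2 y).1 (grn2_mem_rgt.2 ⟨_, hy⟩)
      refine grn2_mem_lft.2 ⟨j, mem_filter.2 ⟨mem_univ _, ?_⟩⟩
      rw [Prod.map_apply, hj]
      exact hy
    · ext j
      simp only [mem_univ, iff_true]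
      have h3 : e' (rgt g) j ∈ rgt g := ((he' _ hB).2 _).2 ⟨j, rfl⟩
      obtain ⟨x, hx⟩ := grn2_mem_rgt.1 h3
      obtain ⟨i, hi⟩ := ((he _ hA).2 x).1 (grn2_mem_lft.2 ⟨_, hx⟩)
      refine grn2_mem_rgt.2 ⟨i, mem_filter.2 ⟨mem_univ _, ?_⟩⟩
      rw [Prod.map_apply, hi]
      exact hx
  · rintro ⟨γ, A, B⟩ hx
    rw [mem_product, mem_product] at hx
    obtain ⟨hγ, hA, hB⟩ := hx
    unfold full at hγ
    obtain ⟨h1, h2⟩ := (mem_filter.1 hγ).2
    rw [mem_filter]
    refine ⟨mem_univ _, ?_, ?_⟩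
    · show (lft (γ.image (Prod.map (e A) (e' B)))).card = a
      rw [hl A hA B γ h1]
      exact (mem_powersetCard.1 hA).2
    · show (rgt (γ.image (Prod.map (e A) (e' B)))).card = b
      rw [hr A B hB γ h2]
      exact (mem_powersetCard.1 hB).2
  · intro g hg
    obtain ⟨h1, h2⟩ := (mem_filter.1 hg).2
    exact hpre g h1 h2
  · rintro ⟨γ, A, B⟩ hx
    rw [mem_product, mem_product] at hx
    obtain ⟨hγ, hA, hB⟩ := hx
    unfold full at hγ
    obtain ⟨h1, h2⟩ := (mem_filter.1 hγ).2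
    have e1 := hl A hA B γ h1
    have e2 := hr A B hB γ h2
    show ((univ.filter fun c : Fin a × Fin b =>
      Prod.map (e (lft (γ.image (Prod.map (e A) (e' B))))) (e' (rgt (γ.image (Prod.map (e A) (e' B))))) c
        ∈ γ.image (Prod.map (e A) (e' B))), (lft (γ.image (Prod.map (e A) (e' B))),
          rgt (γ.image (Prod.map (e A) (e' B))))) = (γ, (A, B))
    rw [e1, e2]
    refine Prod.ext ?_ rfl
    ext c
    simp only [mem_filter, mem_univ, true_and]
    rw [mem_image]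
    constructor
    · rintro ⟨c', hc', hcc⟩
      rw [← hinj A hA B hB hcc]
      exact hc'
    · intro hc
      exact ⟨c, hc, rfl⟩
  · intro g hg
    obtain ⟨h1, h2⟩ := (mem_filter.1 hg).2
    have hA : lft g ∈ powersetCard a (univ : Finset V) := mem_powersetCard.2 ⟨subset_univ _, h1⟩
    have hB : rgt g ∈ powersetCard b (univ : Finset V) := mem_powersetCard.2 ⟨subset_univ _, h2⟩
    show edg Φ g * F (lft g) * G (rgt g) = _ * F (lft g) * G (rgt g)
    congr 2
    conv_lhs => rw [← hpre g h1 h2]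
    unfold edg
    rw [prod_image (fun x _ y _ hxy => hinj _ hA _ hB hxy)]
    rfl

theorem set_bound [Nonempty V] (h : Ker Φ θ σ ρ) {a b : ℕ} (ha : 1 ≤ a) (hb : 1 ≤ b)
    (F G : Finset V → ℝ) :
    (∑ g ∈ univ.filter (fun g : Finset (V × V) => (lft g).card = a ∧ (rgt g).card = b),
      edg Φ g * F (lft g) * G (rgt g)) ^ 2 ≤
    ((2 : ℝ) ^ (a * b) * (ρ * σ ^ (a + b - 2))) ^ 2 * (Fintype.card V : ℝ) ^ (a + b) *
      ((∑ A ∈ powersetCard a univ, F A ^ 2) * ∑ B ∈ powersetCard b univ, G B ^ 2) := by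
  classical
  obtain ⟨e, he⟩ := setb_enum (V := V) a
  obtain ⟨e', he'⟩ := setb_enum (V := V) b
  rw [setb_bij he he', sum_product]
  set X : ℝ := (ρ * σ ^ (a + b - 2)) ^ 2 * (Fintype.card V : ℝ) ^ (a + b) *
      ((∑ A ∈ powersetCard a univ, F A ^ 2) * ∑ B ∈ powersetCard b univ, G B ^ 2) with hX
  have hX0 : 0 ≤ X := mul_nonneg (by positivity)
    (mul_nonneg (sum_nonneg fun _ _ => sq_nonneg _) (sum_nonneg fun _ _ => sq_nonneg _))
  have hterm : ∀ γ ∈ full a b,
      (∑ y ∈ powersetCard a (univ : Finset V) ×ˢ powersetCard b (univ : Finset V),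
        (∏ c ∈ γ, (Φ (e y.1 c.1) (e' y.2 c.2) - 1)) * F y.1 * G y.2) ^ 2 ≤ X := by
    intro γ hγ
    unfold full at hγ
    obtain ⟨h1, h2⟩ := (mem_filter.1 hγ).2
    have hne : γ.Nonempty := by
      have h3 : (⟨0, ha⟩ : Fin a) ∈ lft γ := by rw [h1]; exact mem_univ _
      obtain ⟨j, hj⟩ := grn2_mem_lft.1 h3
      exact ⟨_, hj⟩
    have h4 := graph_bound h γ hne (setbP e F) (setbP e' G)
    rw [h1, h2, card_univ, card_univ, Fintype.card_fin, Fintype.card_fin, setbP_sq he,
      setbP_sq he'] at h4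
    have h5 : ∑ y ∈ powersetCard a (univ : Finset V) ×ˢ powersetCard b (univ : Finset V),
        (∏ c ∈ γ, (Φ (e y.1 c.1) (e' y.2 c.2) - 1)) * F y.1 * G y.2
        = ∑ α, ∑ β, (∏ c ∈ γ, (Φ (α c.1) (β c.2) - 1)) * setbP e F α * setbP e' G β := by
      rw [sum_product]
      have h6 : ∀ α : Fin a → V, ∑ β, (∏ c ∈ γ, (Φ (α c.1) (β c.2) - 1)) * setbP e F α
          * setbP e' G β = (∑ B ∈ powersetCard b (univ : Finset V),
            (∏ c ∈ γ, (Φ (α c.1) (e' B c.2) - 1)) * G B) * setbP e F α := by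
        intro α
        rw [setbP_sum e' G (fun β => (∏ c ∈ γ, (Φ (α c.1) (β c.2) - 1))) |>.symm, sum_mul]
        exact sum_congr rfl fun β _ => by ring
      rw [sum_congr rfl fun α _ => h6 α]
      rw [setbP_sum e F (fun α => ∑ B ∈ powersetCard b (univ : Finset V),
            (∏ c ∈ γ, (Φ (α c.1) (e' B c.2) - 1)) * G B)]
      refine sum_congr rfl fun A _ => ?_
      rw [sum_mul]
      exact sum_congr rfl fun B _ => by ring
    rw [h5]
    exact h4
  have hcard : ((full a b).card : ℝ) ≤ 2 ^ (a * b) := by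
    have : (full a b).card ≤ 2 ^ (a * b) := by
      refine (card_filter_le _ _).trans ?_
      rw [card_univ, Fintype.card_finset, Fintype.card_prod, Fintype.card_fin, Fintype.card_fin]
    exact_mod_cast this
  have hcs := sq_sum_le_card_mul_sum_sq (s := full a b)
    (f := fun γ => ∑ y ∈ powersetCard a (univ : Finset V) ×ˢ powersetCard b (univ : Finset V),
        (∏ c ∈ γ, (Φ (e y.1 c.1) (e' y.2 c.2) - 1)) * F y.1 * G y.2)
  refine hcs.trans ?_
  calc ((full a b).card : ℝ) * ∑ γ ∈ full a b, (∑ y ∈ powersetCard a (univ : Finset V) ×ˢ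
          powersetCard b (univ : Finset V),
        (∏ c ∈ γ, (Φ (e y.1 c.1) (e' y.2 c.2) - 1)) * F y.1 * G y.2) ^ 2
      ≤ ((full a b).card : ℝ) * ∑ γ ∈ full a b, X :=
        mul_le_mul_of_nonneg_left (sum_le_sum hterm) (by positivity)
    _ = ((full a b).card : ℝ) ^ 2 * X := by rw [sum_const, nsmul_eq_mul]; ring
    _ ≤ ((2 : ℝ) ^ (a * b)) ^ 2 * X := by
        apply mul_le_mul_of_nonneg_right _ hX0
        exact pow_le_pow_left₀ (by positivity) hcard 2
    _ = _ := by rw [hX]; ring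

end Pool.Agent.Lib.MP_0430e4_lc.Las
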