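import Pool.Agent.Lib.MP_0430e4_lc.Las.EXPN
import Pool.Agent.Lib.MP_0430e4_lc.Las.SETB

/-!
# PSD: the moment matrix is positive semidefinite
-/

set_option autoImplicit false
set_option linter.unusedSectionVars false

namespace Pool.Agent.Lib.MP_0430e4_lc.Las

open Finset

variable {V : Type*} [Fintype V] [DecidableEq V] {Φ : V → V → ℝ} {θ σ ρ : ℝ}

theorem edg_empty : edg Φ (∅ : Finset (V × V)) = 1 := by
  unfold edg
  simp

theorem lft_empty : lft (∅ : Finset (V × V)) = ∅ := by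
  unfold lft
  simp

theorem rgt_empty : rgt (∅ : Finset (V × V)) = ∅ := by
  unfold rgt
  simp

theorem one_le_card_lft {g : Finset (V × V)} (hg : g.Nonempty) : 1 ≤ (lft g).card := by
  unfold lft
  exact card_pos.mpr (hg.image _)

theorem one_le_card_rgt {g : Finset (V × V)} (hg : g.Nonempty) : 1 ≤ (rgt g).card := by
  unfold rgt
  exact card_pos.mpr (hg.image _)

/-- splitting a sum over graphs by the numbers of vertices -/
theorem sum_graphs (t : ℕ) (P : Finset V → ℝ) (hP : ∀ A, t < A.card → P A = 0) :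
    ∑ g : Finset (V × V), edg Φ g * P (lft g) * P (rgt g) =
      P ∅ ^ 2 + ∑ a ∈ Icc 1 t, ∑ b ∈ Icc 1 t,
        ∑ g ∈ univ.filter (fun g : Finset (V × V) => (lft g).card = a ∧ (rgt g).card = b),
          edg Φ g * P (lft g) * P (rgt g) := by
  classical
  rw [← Finset.add_sum_erase univ _ (mem_univ (∅ : Finset (V × V)))]
  rw [edg_empty, lft_empty, rgt_empty, one_mul, ← sq]
  congr 1
  have h1 : ∑ g ∈ univ.erase (∅ : Finset (V × V)), edg Φ g * P (lft g) * P (rgt g) =
      ∑ g ∈ univ.filter (fun g : Finset (V × V) => (lft g).card ∈ Icc 1 t ∧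
        (rgt g).card ∈ Icc 1 t), edg Φ g * P (lft g) * P (rgt g) := by
    symm
    apply sum_subset_zero_on_sdiff
    · intro g hg
      rw [mem_filter] at hg
      rw [mem_erase]
      refine ⟨?_, mem_univ _⟩
      rintro rfl
      rw [lft_empty, card_empty, mem_Icc] at hg
      omega
    · intro g hg
      rw [mem_sdiff, mem_erase, mem_filter] at hg
      have hne : g.Nonempty := nonempty_iff_ne_empty.mpr hg.1.1
      have h2 := one_le_card_lft hne
      have h3 := one_le_card_rgt hne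
      by_cases h4 : (lft g).card ≤ t
      · have h5 : t < (rgt g).card := by
          by_contra h6
          exact hg.2 ⟨mem_univ _, mem_Icc.mpr ⟨h2, h4⟩, mem_Icc.mpr ⟨h3, not_lt.mp h6⟩⟩
        rw [hP _ h5, mul_zero]
      · rw [hP _ (not_le.mp h4), mul_zero, zero_mul]
    · intro g _
      rfl
  rw [h1, ← sum_product']
  rw [← sum_fiberwise_of_maps_to (s := univ.filter (fun g : Finset (V × V) =>
    (lft g).card ∈ Icc 1 t ∧ (rgt g).card ∈ Icc 1 t)) (t := Icc 1 t ×ˢ Icc 1 t)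
    (g := fun g => ((lft g).card, (rgt g).card))]
  · refine sum_congr rfl fun ab hab => ?_
    rw [mem_product] at hab
    refine sum_congr ?_ fun _ _ => rfl
    ext g
    rw [mem_filter, mem_filter, mem_filter]
    constructor
    · rintro ⟨_, h⟩
      rw [Prod.ext_iff] at h
      exact ⟨mem_univ _, h⟩
    · rintro ⟨_, h⟩
      refine ⟨⟨mem_univ _, ?_, ?_⟩, Prod.ext h.1 h.2⟩
      · rw [h.1]
        exact hab.1
      · rw [h.2]
        exact hab.2
  · intro g hg
    rw [mem_filter] at hg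
    exact mem_product.mpr hg.2

/-- the sets containing `I` -/
theorem sum_disjoint (I : Finset V) (G : Finset V → ℝ) :
    ∑ A ∈ univ.filter (fun A : Finset V => Disjoint I A), G (I ∪ A) =
      ∑ J ∈ univ.filter (fun J : Finset V => I ⊆ J), G J := by
  refine sum_nbij' (fun A => I ∪ A) (fun J => J \ I) ?_ ?_ ?_ ?_ ?_
  · intro A _
    rw [mem_filter]
    exact ⟨mem_univ _, subset_union_left⟩
  · intro J _
    rw [mem_filter]
    exact ⟨mem_univ _, disjoint_sdiff⟩
  · intro A hA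
    rw [mem_filter] at hA
    exact union_sdiff_cancel_left hA.2
  · intro J hJ
    rw [mem_filter] at hJ
    exact union_sdiff_of_subset hJ.2
  · intro A _
    rfl

/-- the elementary inequality -/
theorem abs_le_of_sq_le_mul {T c x y : ℝ} (hc : 0 ≤ c) (hx : 0 ≤ x) (hy : 0 ≤ y)
    (h : T ^ 2 ≤ c ^ 2 * (x * y)) : -(c * ((x + y) / 2)) ≤ T := by
  have h1 : T ^ 2 ≤ (c * ((x + y) / 2)) ^ 2 := by
    refine h.trans ?_
    rw [mul_pow]
    refine mul_le_mul_of_nonneg_left ?_ (sq_nonneg c)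
    nlinarith [sq_nonneg (x - y)]
  exact (abs_le.mp (abs_le_of_sq_le_sq h1 (by positivity))).1

/-- The bound at one conditioning set. -/
theorem inner_bound [Nonempty V] (h : Ker Φ θ σ ρ) {t : ℕ} {M R : ℝ} (hM : 0 < M)
    (hR : ∀ m ≤ 2 * t - 2, M * ρ * (σ * Real.sqrt M) ^ m ≤ R) (hR0 : 0 ≤ R)
    {u : ℝ} (hu : u = M / Fintype.card V) (I : Finset V) (S : Finset V → ℝ)
    (hS : ∀ J, t < J.card → S J = 0) :
    S I ^ 2 - t * 2 ^ (t ^ 2) * R *
        ∑ A ∈ univ.filter (fun A : Finset V => Disjoint I A), u ^ A.card * S (I ∪ A) ^ 2 ≤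
      ∑ g ∈ univ.filter (fun g : Finset (V × V) => Disjoint I (lft g) ∧ Disjoint I (rgt g)),
        edg Φ g * (u ^ (lft g).card * S (I ∪ lft g)) * (u ^ (rgt g).card * S (I ∪ rgt g)) := by
  classical
  have hN : (0 : ℝ) < Fintype.card V := by exact_mod_cast Fintype.card_pos
  have hu0 : 0 < u := by
    rw [hu]
    positivity
  have hNu : (Fintype.card V : ℝ) * u = M := by
    rw [hu]
    field_simp
  set P : Finset V → ℝ := fun A => if Disjoint I A then u ^ A.card * S (I ∪ A) else 0 with hPd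
  have hP : ∀ A, t < A.card → P A = 0 := by
    intro A hA
    rw [hPd]
    by_cases hd : Disjoint I A
    · simp only [if_pos hd]
      rw [hS _ (lt_of_lt_of_le hA (card_le_card subset_union_right)), mul_zero]
    · simp only [if_neg hd]
  have e1 : ∑ g ∈ univ.filter (fun g : Finset (V × V) => Disjoint I (lft g) ∧ Disjoint I (rgt g)),
      edg Φ g * (u ^ (lft g).card * S (I ∪ lft g)) * (u ^ (rgt g).card * S (I ∪ rgt g)) =
      ∑ g : Finset (V × V), edg Φ g * P (lft g) * P (rgt g) := by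
    rw [sum_filter]
    refine sum_congr rfl fun g _ => ?_
    by_cases h1 : Disjoint I (lft g)
    · by_cases h2 : Disjoint I (rgt g)
      · rw [if_pos ⟨h1, h2⟩]
        simp only [hPd, if_pos h1, if_pos h2]
      · rw [if_neg (fun hh => h2 hh.2)]
        simp only [hPd, if_neg h2, mul_zero]
    · rw [if_neg (fun hh => h1 hh.1)]
      simp only [hPd, if_neg h1, mul_zero, zero_mul]
  rw [e1, sum_graphs t P hP]
  set Y : ℕ → ℝ := fun a => ∑ A ∈ univ.filter (fun A : Finset V => Disjoint I A ∧ A.card = a),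
    u ^ A.card * S (I ∪ A) ^ 2 with hY
  have hY0 : ∀ a, 0 ≤ Y a := by
    intro a
    rw [hY]
    exact sum_nonneg fun A _ => by positivity
  have hX : ∀ a, ∑ A ∈ powersetCard a univ, P A ^ 2 = u ^ a * Y a := by
    intro a
    have e2 : ∑ A ∈ powersetCard a univ, P A ^ 2 =
        ∑ A ∈ (powersetCard a univ).filter (fun A : Finset V => Disjoint I A),
          (u ^ A.card * S (I ∪ A)) ^ 2 := by
      rw [sum_filter]
      refine sum_congr rfl fun A _ => ?_
      by_cases hd : Disjoint I A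
      · simp only [hPd, if_pos hd]
      · simp only [hPd, if_neg hd]
        ring
    rw [e2, hY, mul_sum]
    refine sum_congr ?_ fun A hA => ?_
    · ext A
      rw [mem_filter, mem_filter, mem_powersetCard]
      constructor
      · rintro ⟨⟨_, h1⟩, h2⟩
        exact ⟨mem_univ _, h2, h1⟩
      · rintro ⟨_, h1, h2⟩
        exact ⟨⟨subset_univ _, h2⟩, h1⟩
    · rw [mem_filter] at hA
      rw [hA.2.2]
      ring
  have hT : ∀ a ∈ Icc 1 t, ∀ b ∈ Icc 1 t, -(2 ^ (t ^ 2) * R * ((Y a + Y b) / 2)) ≤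
      ∑ g ∈ univ.filter (fun g : Finset (V × V) => (lft g).card = a ∧ (rgt g).card = b),
          edg Φ g * P (lft g) * P (rgt g) := by
    intro a ha b hb
    rw [mem_Icc] at ha hb
    refine abs_le_of_sq_le_mul (by positivity) (hY0 a) (hY0 b) ?_
    refine (set_bound h ha.1 hb.1 P P).trans ?_
    rw [hX, hX]
    set m := a + b - 2 with hm
    have hab : a + b = m + 2 := by omega
    have h1 : (M * ρ * (σ * Real.sqrt M) ^ m) ^ 2 = (ρ * σ ^ m) ^ 2 * M ^ (m + 2) := by
      have h2 : Real.sqrt M ^ 2 = M := Real.sq_sqrt hM.le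
      calc (M * ρ * (σ * Real.sqrt M) ^ m) ^ 2 = (ρ * σ ^ m) ^ 2 * (M ^ 2 * (Real.sqrt M ^ 2) ^ m) := by
            ring
        _ = _ := by
            rw [h2]
            ring
    have h3 : (M * ρ * (σ * Real.sqrt M) ^ m) ^ 2 ≤ R ^ 2 := by
      have h4 : 0 ≤ M * ρ * (σ * Real.sqrt M) ^ m := by
        have := h.ρ0
        have := h.σ0
        positivity
      exact pow_le_pow_left₀ h4 (hR m (by omega)) 2
    have h5 : ((2 : ℝ) ^ (a * b)) ^ 2 ≤ ((2 : ℝ) ^ (t ^ 2)) ^ 2 := by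
      refine pow_le_pow_left₀ (by positivity) ?_ 2
      refine pow_le_pow_right₀ (by norm_num) ?_
      rw [sq]
      exact Nat.mul_le_mul ha.2 hb.2
    calc ((2 : ℝ) ^ (a * b) * (ρ * σ ^ m)) ^ 2 * (Fintype.card V : ℝ) ^ (a + b) *
          (u ^ a * Y a * (u ^ b * Y b))
        = ((2 : ℝ) ^ (a * b)) ^ 2 * ((ρ * σ ^ m) ^ 2 * ((Fintype.card V : ℝ) * u) ^ (a + b)) *
          (Y a * Y b) := by
          rw [mul_pow ((Fintype.card V : ℝ)) u]
          ring
      _ = ((2 : ℝ) ^ (a * b)) ^ 2 * (M * ρ * (σ * Real.sqrt M) ^ m) ^ 2 * (Y a * Y b) := by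
          rw [hNu, hab, h1]
      _ ≤ ((2 : ℝ) ^ (t ^ 2)) ^ 2 * R ^ 2 * (Y a * Y b) := by
          refine mul_le_mul_of_nonneg_right ?_ (mul_nonneg (hY0 a) (hY0 b))
          exact mul_le_mul h5 h3 (by positivity) (by positivity)
      _ = (2 ^ (t ^ 2) * R) ^ 2 * (Y a * Y b) := by ring
  have hsum : -(t * 2 ^ (t ^ 2) * R * ∑ a ∈ Icc 1 t, Y a) ≤ ∑ a ∈ Icc 1 t, ∑ b ∈ Icc 1 t,
        ∑ g ∈ univ.filter (fun g : Finset (V × V) => (lft g).card = a ∧ (rgt g).card = b),
          edg Φ g * P (lft g) * P (rgt g) := by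
    refine le_trans (le_of_eq ?_) (sum_le_sum fun a ha => sum_le_sum fun b hb => hT a ha b hb)
    have hcard : ((Icc 1 t).card : ℝ) = t := by
      rw [Nat.card_Icc]
      simp
    simp only [sum_neg_distrib, ← mul_sum, ← sum_div, sum_add_distrib, sum_const, nsmul_eq_mul,
      hcard]
    ring
  have hle : ∑ a ∈ Icc 1 t, Y a ≤
      ∑ A ∈ univ.filter (fun A : Finset V => Disjoint I A), u ^ A.card * S (I ∪ A) ^ 2 := by
    have e3 : ∑ a ∈ Icc 1 t, Y a = ∑ A ∈ univ.filter (fun A : Finset V => Disjoint I A ∧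
        A.card ∈ Icc 1 t), u ^ A.card * S (I ∪ A) ^ 2 := by
      rw [← sum_fiberwise_of_maps_to (s := univ.filter (fun A : Finset V => Disjoint I A ∧
        A.card ∈ Icc 1 t)) (t := Icc 1 t) (g := fun A => A.card)]
      · refine sum_congr rfl fun a ha => ?_
        rw [hY]
        refine sum_congr ?_ fun _ _ => rfl
        ext A
        rw [mem_filter, mem_filter, mem_filter]
        constructor
        · rintro ⟨_, h1, h2⟩
          exact ⟨⟨mem_univ _, h1, h2 ▸ ha⟩, h2⟩
        · rintro ⟨⟨_, h1, _⟩, h2⟩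
          exact ⟨mem_univ _, h1, h2⟩
      · intro A hA
        rw [mem_filter] at hA
        exact hA.2.2
    rw [e3]
    refine sum_le_sum_of_subset_of_nonneg ?_ fun A _ _ => by positivity
    intro A hA
    rw [mem_filter] at hA ⊢
    exact ⟨mem_univ _, hA.2.1⟩
  have hP0 : P ∅ = S I := by
    simp only [hPd, disjoint_empty_right, if_true, card_empty, pow_zero, one_mul, union_empty]
  rw [hP0]
  have h6 : t * 2 ^ (t ^ 2) * R * ∑ a ∈ Icc 1 t, Y a ≤ t * 2 ^ (t ^ 2) * R *
      ∑ A ∈ univ.filter (fun A : Finset V => Disjoint I A), u ^ A.card * S (I ∪ A) ^ 2 :=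
    mul_le_mul_of_nonneg_left hle (by positivity)
  linarith

theorem momPos [Nonempty V] (h : Ker Φ θ σ ρ) {t : ℕ} (ht : 1 ≤ t) {M R : ℝ} (hM : 0 < M)
    (hR : ∀ m ≤ 2 * t - 2, M * ρ * (σ * Real.sqrt M) ^ m ≤ R)
    (hc : t * 2 ^ (t + t ^ 2) * (1 + θ) ^ (t ^ 2) * R ≤ 1) :
    MomPos t (fun S : Finset V => (M / Fintype.card V) ^ S.card * wgt Φ S) := by
  classical
  intro f
  have hN : (0 : ℝ) < Fintype.card V := by exact_mod_cast Fintype.card_pos
  set u : ℝ := M / Fintype.card V with hu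
  have hu0 : 0 < u := by positivity
  have hR0 : 0 ≤ R := by
    refine le_trans ?_ (hR 0 (Nat.zero_le _))
    have := h.ρ0
    positivity
  set f' : Finset V → ℝ := fun A => if A.card ≤ t then f A else 0 with hf'
  have hfz : ∀ A : Finset V, t < A.card → f' A = 0 := by
    intro A hA
    simp only [hf', if_neg (not_le.mpr hA)]
  have e0 : ∑ A ∈ small V t, ∑ B ∈ small V t, f A * f B * (u ^ (A ∪ B).card * wgt Φ (A ∪ B)) =
      ∑ A, ∑ B, f' A * f' B * (u ^ (A ∪ B).card * wgt Φ (A ∪ B)) := by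
    unfold small
    rw [sum_filter]
    refine sum_congr rfl fun A _ => ?_
    by_cases hA : A.card ≤ t
    · rw [if_pos hA, sum_filter]
      refine sum_congr rfl fun B _ => ?_
      by_cases hB : B.card ≤ t
      · simp only [hf', if_pos hA, if_pos hB]
      · simp only [hf', if_neg hB, mul_zero, zero_mul]
    · rw [if_neg hA]
      symm
      refine sum_eq_zero fun B _ => ?_
      simp only [hf', if_neg hA, zero_mul]
  rw [e0, expansion h.symm h.nonneg h.diag u f']
  set S : Finset V → ℝ := cnd Φ u f' with hSd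
  have hS : ∀ J, t < J.card → S J = 0 := fun J hJ => cnd_eq_zero_of_card u hfz hJ
  have hS2 : ∀ J, wgt Φ J = 0 → S J = 0 := fun J hJ => cnd_eq_zero h.symm h.nonneg u f' hJ
  have hw : ∀ I : Finset V, 0 ≤ (wgt Φ I)⁻¹ := fun I => inv_nonneg.mpr (wgt_nonneg I)
  set c0 : ℝ := t * 2 ^ (t ^ 2) * R with hc0
  have hc00 : 0 ≤ c0 := by positivity
  have hinner : ∀ I : Finset V, u ^ I.card * (wgt Φ I)⁻¹ * (S I ^ 2 - c0 *
        ∑ A ∈ univ.filter (fun A : Finset V => Disjoint I A), u ^ A.card * S (I ∪ A) ^ 2) ≤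
      u ^ I.card * (wgt Φ I)⁻¹ *
      ∑ g ∈ univ.filter (fun g : Finset (V × V) => Disjoint I (lft g) ∧ Disjoint I (rgt g)),
        edg Φ g * (u ^ (lft g).card * S (I ∪ lft g)) * (u ^ (rgt g).card * S (I ∪ rgt g)) := by
    intro I
    refine mul_le_mul_of_nonneg_left (inner_bound h hM hR hR0 hu I S hS) ?_
    exact mul_nonneg (by positivity) (hw I)
  refine le_trans ?_ (sum_le_sum fun I _ => hinner I)
  -- the error term
  have e1 : ∀ I : Finset V, u ^ I.card * (wgt Φ I)⁻¹ * (S I ^ 2 - c0 *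
        ∑ A ∈ univ.filter (fun A : Finset V => Disjoint I A), u ^ A.card * S (I ∪ A) ^ 2) =
      u ^ I.card * (wgt Φ I)⁻¹ * S I ^ 2 - c0 * ((wgt Φ I)⁻¹ *
        ∑ J ∈ univ.filter (fun J : Finset V => I ⊆ J), u ^ J.card * S J ^ 2) := by
    intro I
    have e2 : u ^ I.card * ∑ A ∈ univ.filter (fun A : Finset V => Disjoint I A),
        u ^ A.card * S (I ∪ A) ^ 2 =
        ∑ J ∈ univ.filter (fun J : Finset V => I ⊆ J), u ^ J.card * S J ^ 2 := by
      rw [← sum_disjoint I (fun J => u ^ J.card * S J ^ 2), mul_sum]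
      refine sum_congr rfl fun A hA => ?_
      rw [mem_filter] at hA
      rw [card_union_of_disjoint hA.2, pow_add]
      ring
    rw [← e2]
    ring
  rw [sum_congr rfl fun I _ => e1 I, sum_sub_distrib, ← mul_sum]
  have e3 : ∑ I : Finset V, (wgt Φ I)⁻¹ *
        ∑ J ∈ univ.filter (fun J : Finset V => I ⊆ J), u ^ J.card * S J ^ 2 =
      ∑ J : Finset V, (∑ I ∈ J.powerset, (wgt Φ I)⁻¹) * (u ^ J.card * S J ^ 2) := by
    simp only [mul_sum, sum_mul, sum_filter]
    rw [sum_comm]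
    refine sum_congr rfl fun J _ => ?_
    have e4 : J.powerset = univ.filter (fun I : Finset V => I ⊆ J) := by
      ext I
      simp
    rw [e4, sum_filter]
    refine sum_congr rfl fun I _ => ?_
    split_ifs <;> simp
  rw [e3]
  have h7 : ∑ J : Finset V, (∑ I ∈ J.powerset, (wgt Φ I)⁻¹) * (u ^ J.card * S J ^ 2) ≤
      ∑ J : Finset V, 2 ^ t * (1 + θ) ^ (t ^ 2) * (u ^ J.card * (wgt Φ J)⁻¹ * S J ^ 2) := by
    refine sum_le_sum fun J _ => ?_
    by_cases hJ : S J = 0
    · simp [hJ]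
    · have h8 : J.card ≤ t := by
        by_contra h9
        exact hJ (hS J (not_le.mp h9))
      have h9 : wgt Φ J ≠ 0 := fun h10 => hJ (hS2 J h10)
      have h10 : ∑ I ∈ J.powerset, (wgt Φ I)⁻¹ ≤
          ∑ I ∈ J.powerset, (1 + θ) ^ (t ^ 2) * (wgt Φ J)⁻¹ := by
        refine sum_le_sum fun I hI => ?_
        exact wgt_inv_le h.symm h.nonneg h.θ0 h.le (mem_powerset.mp hI) h8 h9
      rw [sum_const, card_powerset, nsmul_eq_mul] at h10
      have h11 : ((2 ^ J.card : ℕ) : ℝ) ≤ 2 ^ t := by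
        push_cast
        exact pow_le_pow_right₀ (by norm_num) h8
      have hθ := h.θ0
      have h12 : ∑ I ∈ J.powerset, (wgt Φ I)⁻¹ ≤
          2 ^ t * ((1 + θ) ^ (t ^ 2) * (wgt Φ J)⁻¹) := by
        refine h10.trans (mul_le_mul_of_nonneg_right h11 ?_)
        exact mul_nonneg (by positivity) (hw J)
      calc (∑ I ∈ J.powerset, (wgt Φ I)⁻¹) * (u ^ J.card * S J ^ 2)
          ≤ 2 ^ t * ((1 + θ) ^ (t ^ 2) * (wgt Φ J)⁻¹) * (u ^ J.card * S J ^ 2) :=
            mul_le_mul_of_nonneg_right h12 (by positivity)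
        _ = _ := by ring
  rw [← mul_sum] at h7
  set D : ℝ := ∑ J : Finset V, u ^ J.card * (wgt Φ J)⁻¹ * S J ^ 2 with hD
  have hD0 : 0 ≤ D := sum_nonneg fun J _ =>
    mul_nonneg (mul_nonneg (by positivity) (hw J)) (sq_nonneg _)
  have h13 : c0 * ∑ J : Finset V, (∑ I ∈ J.powerset, (wgt Φ I)⁻¹) * (u ^ J.card * S J ^ 2) ≤ D := by
    calc _ ≤ c0 * (2 ^ t * (1 + θ) ^ (t ^ 2) * D) := mul_le_mul_of_nonneg_left h7 hc00
      _ = t * 2 ^ (t + t ^ 2) * (1 + θ) ^ (t ^ 2) * R * D := by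
          rw [hc0, pow_add]
          ring
      _ ≤ 1 * D := mul_le_mul_of_nonneg_right hc hD0
      _ = D := one_mul D
  linarith

end Pool.Agent.Lib.MP_0430e4_lc.Las
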