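import Mathlib

/-!
# The Lasserre hierarchy for binary codes: definitions and interfaces
-/

set_option autoImplicit false

namespace Pool.Agent.Lib.MP_0430e4_lc.Las

open Finset

section general

variable {V : Type*} [Fintype V] [DecidableEq V]

/-- The sets with at most `t` elements. -/
def small (V : Type*) [Fintype V] [DecidableEq V] (t : ℕ) : Finset (Finset V) :=
  univ.filter fun A => A.card ≤ t

/-- The moment matrix of order `t` of `y` is positive semidefinite. -/
def MomPos (t : ℕ) (y : Finset V → ℝ) : Prop :=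
  ∀ f : Finset V → ℝ, 0 ≤ ∑ A ∈ small V t, ∑ B ∈ small V t, f A * f B * y (A ∪ B)

/-- The product of `Φ` over the unordered pairs of different elements of `S`. -/
noncomputable def wgt (Φ : V → V → ℝ) (S : Finset V) : ℝ :=
  Real.sqrt (∏ p ∈ S.offDiag, Φ p.1 p.2)

/-- The product of `Φ - 1` over the edges of a (bipartite) graph. -/
noncomputable def edg (Φ : V → V → ℝ) (g : Finset (V × V)) : ℝ := ∏ e ∈ g, (Φ e.1 e.2 - 1)

/-- The left ends of the edges of `g`. -/
def lft {α β : Type*} [DecidableEq α] (g : Finset (α × β)) : Finset α := g.image Prod.fst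

/-- The right ends of the edges of `g`. -/
def rgt {α β : Type*} [DecidableEq β] (g : Finset (α × β)) : Finset β := g.image Prod.snd

/-- The conditional sums `S(J)`. -/
noncomputable def cnd (Φ : V → V → ℝ) (u : ℝ) (f : Finset V → ℝ) (J : Finset V) : ℝ :=
  ∑ A ∈ univ.filter (fun A : Finset V => J ⊆ A), u ^ (A.card - J.card) * wgt Φ A * f A

/-- The hypotheses on the pair function `Φ`; `N` is the number of points. -/
structure Ker (Φ : V → V → ℝ) (θ σ ρ : ℝ) : Prop where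
  symm : ∀ x y, Φ x y = Φ y x
  diag : ∀ x, Φ x x = 0
  nonneg : ∀ x y, 0 ≤ Φ x y
  le : ∀ x y, Φ x y ≤ 1 + θ
  θ0 : 0 ≤ θ
  θ1 : θ ≤ 1
  σ0 : 0 ≤ σ
  sq : ∀ x, ∑ y, (Φ x y - 1) ^ 2 ≤ (Fintype.card V : ℝ) * σ ^ 2
  ρ0 : 0 ≤ ρ
  ρσ : ρ ≤ σ ^ 2
  op : ∀ p r : V → ℝ, (∑ x, ∑ y, (Φ x y - 1) * p x * r y) ^ 2 ≤
    ((Fintype.card V : ℝ) * ρ) ^ 2 * ((∑ x, p x ^ 2) * ∑ y, r y ^ 2)

end general

/-- Level `t` of the Lasserre hierarchy for binary codes of length `n` and minimum distance `d`. -/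
noncomputable def las (t n d : ℕ) : ℝ :=
  sSup {s : ℝ | ∃ y : Finset (Fin n → Bool) → ℝ, y ∅ = 1 ∧
    (∀ S : Finset (Fin n → Bool), (∃ u ∈ S, ∃ v ∈ S, u ≠ v ∧ hammingDist u v < d) → y S = 0) ∧
    MomPos t y ∧ s = ∑ x, y {x}}

/-- The binary entropy in bits. -/
noncomputable def H2 (x : ℝ) : ℝ := Real.binEntropy x / Real.log 2

/-- The number of words of weight less than `d`. -/
noncomputable def ball (n d : ℕ) : ℝ := ∑ j ∈ range d, (n.choose j : ℝ)

end Pool.Agent.Lib.MP_0430e4_lc.Las
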