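import Pool.Agent.Lib.MP_0430e4_lc.Las.WGT

/-!
# EXPN: the expansion of the quadratic form
-/

set_option autoImplicit false

namespace Pool.Agent.Lib.MP_0430e4_lc.Las

open Finset

variable {V : Type*} [Fintype V] [DecidableEq V] {Φ : V → V → ℝ}

/-- the supersets of `I` are the sets `I ∪ A` with `A` disjoint from `I` -/
theorem expn_super (I : Finset V) (g : Finset V → ℝ) :
    ∑ A ∈ univ.filter (fun A : Finset V => I ⊆ A), g A =
      ∑ A ∈ univ.filter (fun A : Finset V => Disjoint I A), g (I ∪ A) := by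
  refine sum_bij' (fun A _ => A \ I) (fun A _ => I ∪ A) ?_ ?_ ?_ ?_ ?_
  · intro A hA
    rw [mem_filter]
    exact ⟨mem_univ _, disjoint_sdiff⟩
  · intro A hA
    rw [mem_filter]
    exact ⟨mem_univ _, subset_union_left⟩
  · intro A hA
    rw [mem_filter] at hA
    exact union_sdiff_of_subset hA.2
  · intro A hA
    rw [mem_filter] at hA
    show (I ∪ A) \ I = A
    rw [union_sdiff_left, sdiff_eq_self_of_disjoint hA.2.symm]
  · intro A hA
    rw [mem_filter] at hA
    show g A = g (I ∪ A \ I)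
    rw [union_sdiff_of_subset hA.2]

/-- pairs of sets, sorted by their intersection -/
theorem expn_pairs (F : Finset V → Finset V → ℝ) :
    ∑ A, ∑ B, F A B = ∑ I, ∑ A ∈ univ.filter (fun A : Finset V => Disjoint I A),
      ∑ B ∈ univ.filter (fun B : Finset V => Disjoint I B),
        if Disjoint A B then F (I ∪ A) (I ∪ B) else 0 := by
  have h1 : ∀ A B : Finset V, F A B = ∑ I, if A ∩ B = I then F A B else 0 := by
    intro A B
    rw [sum_ite_eq, if_pos (mem_univ _)]
  have h2 : ∑ A, ∑ B, F A B = ∑ I, ∑ A, ∑ B, if A ∩ B = I then F A B else 0 := by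
    calc ∑ A, ∑ B, F A B = ∑ A, ∑ B, ∑ I, (if A ∩ B = I then F A B else 0) :=
          sum_congr rfl fun A _ => sum_congr rfl fun B _ => h1 A B
      _ = ∑ A, ∑ I, ∑ B, (if A ∩ B = I then F A B else 0) :=
          sum_congr rfl fun A _ => sum_comm
      _ = _ := sum_comm
  rw [h2]
  refine sum_congr rfl fun I _ => ?_
  have h3 : ∀ A : Finset V, ∑ B, (if A ∩ B = I then F A B else 0) =
      if I ⊆ A then ∑ B ∈ univ.filter (fun B : Finset V => I ⊆ B),
        (if A ∩ B = I then F A B else 0) else 0 := by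
    intro A
    split_ifs with hA
    · rw [sum_filter]
      refine sum_congr rfl fun B _ => ?_
      by_cases hB : I ⊆ B
      · rw [if_pos hB]
      · rw [if_neg hB, if_neg]
        rintro rfl
        exact hB inter_subset_right
    · refine sum_eq_zero fun B _ => ?_
      rw [if_neg]
      rintro rfl
      exact hA inter_subset_left
  rw [sum_congr rfl fun A _ => h3 A, ← sum_filter, expn_super]
  refine sum_congr rfl fun A hA => ?_
  rw [expn_super]
  refine sum_congr rfl fun B hB => ?_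
  rw [mem_filter] at hA hB
  have h4 : (I ∪ A) ∩ (I ∪ B) = I ↔ Disjoint A B := by
    rw [← union_inter_distrib_left, union_eq_left]
    constructor
    · intro h
      rw [disjoint_iff_inter_eq_empty, ← subset_empty]
      intro x hx
      exact absurd (h hx) (fun hI => (disjoint_left.1 hA.2 hI) (mem_inter.1 hx).1)
    · intro h
      rw [disjoint_iff_inter_eq_empty.1 h]
      exact empty_subset _
  by_cases h5 : Disjoint A B
  · rw [if_pos h5, if_pos (h4.2 h5)]
  · rw [if_neg h5, if_neg (fun h => h5 (h4.1 h))]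

omit [Fintype V] [DecidableEq V] in
/-- the product of `Φ` over a rectangle -/
theorem expn_prod (A B : Finset V) :
    ∏ e ∈ A ×ˢ B, Φ e.1 e.2 = ∑ g ∈ (A ×ˢ B).powerset, edg Φ g := by
  have h := Finset.prod_one_add (R := ℝ) (f := fun e : V × V => Φ e.1 e.2 - 1) (A ×ˢ B)
  simp only [add_sub_cancel] at h
  exact h

omit [Fintype V] in
theorem expn_subset (A B : Finset V) (g : Finset (V × V)) :
    g ⊆ A ×ˢ B ↔ lft g ⊆ A ∧ rgt g ⊆ B := by
  unfold lft rgt
  rw [image_subset_iff, image_subset_iff]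
  constructor
  · intro h
    exact ⟨fun e he => (mem_product.1 (h he)).1, fun e he => (mem_product.1 (h he)).2⟩
  · rintro ⟨h1, h2⟩ e he
    exact mem_product.2 ⟨h1 e he, h2 e he⟩

/-- the inner sum -/
theorem expn_inner (u : ℝ) (f : Finset V → ℝ) (I L : Finset V) (hIL : Disjoint I L) :
    ∑ A ∈ univ.filter (fun A : Finset V => Disjoint I A),
      (if L ⊆ A then u ^ A.card * wgt Φ (I ∪ A) * f (I ∪ A) else 0) =
      u ^ L.card * cnd Φ u f (I ∪ L) := by
  have h1 : ∑ A ∈ univ.filter (fun A : Finset V => Disjoint I A),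
      (if L ⊆ A then u ^ A.card * wgt Φ (I ∪ A) * f (I ∪ A) else 0) =
      ∑ A ∈ univ.filter (fun A : Finset V => Disjoint I A),
      (fun A : Finset V => if I ∪ L ⊆ A then u ^ (A.card - I.card) * wgt Φ A * f A else 0)
        (I ∪ A) := by
    refine sum_congr rfl fun A hA => ?_
    rw [mem_filter] at hA
    have h2 : I ∪ L ⊆ I ∪ A ↔ L ⊆ A := by
      constructor
      · intro h x hx
        rcases mem_union.1 (h (mem_union_right _ hx)) with h3 | h3
        · exact absurd hx (disjoint_left.1 hIL h3)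
        · exact h3
      · intro h
        exact union_subset_union_right h
    show _ = if I ∪ L ⊆ I ∪ A then u ^ ((I ∪ A).card - I.card) * wgt Φ (I ∪ A) * f (I ∪ A) else 0
    rw [card_union_of_disjoint hA.2, Nat.add_sub_cancel_left]
    by_cases h3 : L ⊆ A
    · rw [if_pos h3, if_pos (h2.2 h3)]
    · rw [if_neg h3, if_neg (fun h => h3 (h2.1 h))]
  rw [h1, ← expn_super I (fun A : Finset V => if I ∪ L ⊆ A then
    u ^ (A.card - I.card) * wgt Φ A * f A else 0), cnd, mul_sum, sum_filter, sum_filter]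
  refine sum_congr rfl fun A _ => ?_
  by_cases h2 : I ∪ L ⊆ A
  · rw [if_pos h2, if_pos h2, if_pos (subset_union_left.trans h2)]
    have h3 : A.card - I.card = L.card + (A.card - (I ∪ L).card) := by
      have h4 := card_le_card h2
      rw [card_union_of_disjoint hIL] at h4 ⊢
      omega
    rw [h3, pow_add]
    ring
  · rw [if_neg h2, if_neg h2, ite_self]

theorem expansion (hs : ∀ x y, Φ x y = Φ y x) (h0 : ∀ x y, 0 ≤ Φ x y) (hd : ∀ x, Φ x x = 0)
    (u : ℝ) (f : Finset V → ℝ) :
    ∑ A, ∑ B, f A * f B * (u ^ (A ∪ B).card * wgt Φ (A ∪ B)) =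
      ∑ I, u ^ I.card * (wgt Φ I)⁻¹ *
        ∑ g ∈ univ.filter (fun g : Finset (V × V) => Disjoint I (lft g) ∧ Disjoint I (rgt g)),
          edg Φ g * (u ^ (lft g).card * cnd Φ u f (I ∪ lft g)) *
            (u ^ (rgt g).card * cnd Φ u f (I ∪ rgt g)) := by
  rw [expn_pairs]
  refine sum_congr rfl fun I _ => ?_
  -- the terms
  have h1 : ∀ A ∈ univ.filter (fun A : Finset V => Disjoint I A),
      ∀ B ∈ univ.filter (fun B : Finset V => Disjoint I B),
      (if Disjoint A B then f (I ∪ A) * f (I ∪ B) *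
        (u ^ (I ∪ A ∪ (I ∪ B)).card * wgt Φ (I ∪ A ∪ (I ∪ B))) else 0) =
      u ^ I.card * (wgt Φ I)⁻¹ * ∑ g : Finset (V × V), edg Φ g *
        (if lft g ⊆ A then u ^ A.card * wgt Φ (I ∪ A) * f (I ∪ A) else 0) *
        (if rgt g ⊆ B then u ^ B.card * wgt Φ (I ∪ B) * f (I ∪ B) else 0) := by
    intro A hA B hB
    rw [mem_filter] at hA hB
    have h2 : ∑ g : Finset (V × V), edg Φ g *
        (if lft g ⊆ A then u ^ A.card * wgt Φ (I ∪ A) * f (I ∪ A) else 0) *
        (if rgt g ⊆ B then u ^ B.card * wgt Φ (I ∪ B) * f (I ∪ B) else 0) =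
        (∏ e ∈ A ×ˢ B, Φ e.1 e.2) * (u ^ A.card * wgt Φ (I ∪ A) * f (I ∪ A)) *
          (u ^ B.card * wgt Φ (I ∪ B) * f (I ∪ B)) := by
      rw [expn_prod, sum_mul, sum_mul]
      have h3 : (A ×ˢ B).powerset = univ.filter (fun g : Finset (V × V) => g ⊆ A ×ˢ B) := by
        ext g
        rw [mem_powerset, mem_filter]
        exact ⟨fun h => ⟨mem_univ _, h⟩, fun h => h.2⟩
      rw [h3, sum_filter]
      refine sum_congr rfl fun g _ => ?_
      by_cases h4 : lft g ⊆ A
      · by_cases h5 : rgt g ⊆ B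
        · rw [if_pos h4, if_pos h5, if_pos ((expn_subset A B g).2 ⟨h4, h5⟩)]
        · rw [if_neg h5, if_neg (fun h => h5 ((expn_subset A B g).1 h).2), mul_zero]
      · rw [if_neg h4, if_neg (fun h => h4 ((expn_subset A B g).1 h).1), mul_zero, zero_mul]
    rw [h2]
    by_cases h6 : Disjoint A B
    · rw [if_pos h6, wgt_main hs h0 hA.2 hB.2 h6]
      have h7 : (I ∪ A ∪ (I ∪ B)).card = I.card + A.card + B.card := by
        have h8 : I ∪ A ∪ (I ∪ B) = I ∪ (A ∪ B) := by
          ext x
          simp only [mem_union]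
          tauto
        rw [h8, card_union_of_disjoint (disjoint_union_right.2 ⟨hA.2, hB.2⟩),
          card_union_of_disjoint h6]
        ring
      rw [h7, pow_add, pow_add]
      ring
    · rw [if_neg h6]
      obtain ⟨x, hx⟩ := not_disjoint_iff.1 h6
      have h7 : ∏ e ∈ A ×ˢ B, Φ e.1 e.2 = 0 :=
        prod_eq_zero (i := (x, x)) (mem_product.2 ⟨hx.1, hx.2⟩) (hd x)
      rw [h7]
      ring
  rw [sum_congr rfl fun A hA => sum_congr rfl fun B hB => h1 A hA B hB]
  simp only [← mul_sum]
  congr 1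
  -- exchange the sums
  have h9 : ∑ A ∈ univ.filter (fun A : Finset V => Disjoint I A),
      ∑ B ∈ univ.filter (fun B : Finset V => Disjoint I B),
      ∑ g : Finset (V × V), edg Φ g *
        (if lft g ⊆ A then u ^ A.card * wgt Φ (I ∪ A) * f (I ∪ A) else 0) *
        (if rgt g ⊆ B then u ^ B.card * wgt Φ (I ∪ B) * f (I ∪ B) else 0) =
      ∑ g : Finset (V × V), edg Φ g *
        (∑ A ∈ univ.filter (fun A : Finset V => Disjoint I A),
          (if lft g ⊆ A then u ^ A.card * wgt Φ (I ∪ A) * f (I ∪ A) else 0)) *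
        (∑ B ∈ univ.filter (fun B : Finset V => Disjoint I B),
          (if rgt g ⊆ B then u ^ B.card * wgt Φ (I ∪ B) * f (I ∪ B) else 0)) := by
    calc _ = ∑ A ∈ univ.filter (fun A : Finset V => Disjoint I A),
          ∑ g : Finset (V × V), ∑ B ∈ univ.filter (fun B : Finset V => Disjoint I B),
          edg Φ g *
          (if lft g ⊆ A then u ^ A.card * wgt Φ (I ∪ A) * f (I ∪ A) else 0) *
          (if rgt g ⊆ B then u ^ B.card * wgt Φ (I ∪ B) * f (I ∪ B) else 0) :=
          sum_congr rfl fun A _ => sum_comm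
      _ = ∑ g : Finset (V × V), ∑ A ∈ univ.filter (fun A : Finset V => Disjoint I A),
          ∑ B ∈ univ.filter (fun B : Finset V => Disjoint I B),
          edg Φ g *
          (if lft g ⊆ A then u ^ A.card * wgt Φ (I ∪ A) * f (I ∪ A) else 0) *
          (if rgt g ⊆ B then u ^ B.card * wgt Φ (I ∪ B) * f (I ∪ B) else 0) := sum_comm
      _ = _ := by
          refine sum_congr rfl fun g _ => ?_
          rw [mul_assoc, sum_mul_sum, mul_sum]
          refine sum_congr rfl fun A _ => ?_
          rw [mul_sum]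
          refine sum_congr rfl fun B _ => ?_
          rw [mul_assoc]
  rw [h9, sum_filter]
  refine sum_congr rfl fun g _ => ?_
  by_cases hl : Disjoint I (lft g)
  · by_cases hr : Disjoint I (rgt g)
    · rw [if_pos ⟨hl, hr⟩, expn_inner u f I (lft g) hl, expn_inner u f I (rgt g) hr]
    · rw [if_neg (fun h => hr h.2)]
      have h10 : ∑ B ∈ univ.filter (fun B : Finset V => Disjoint I B),
          (if rgt g ⊆ B then u ^ B.card * wgt Φ (I ∪ B) * f (I ∪ B) else 0) = 0 := by
        refine sum_eq_zero fun B hB => ?_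
        rw [mem_filter] at hB
        rw [if_neg (fun h => hr (disjoint_of_subset_right h hB.2))]
      rw [h10, mul_zero]
  · rw [if_neg (fun h => hl h.1)]
    have h10 : ∑ A ∈ univ.filter (fun A : Finset V => Disjoint I A),
        (if lft g ⊆ A then u ^ A.card * wgt Φ (I ∪ A) * f (I ∪ A) else 0) = 0 := by
      refine sum_eq_zero fun A hA => ?_
      rw [mem_filter] at hA
      rw [if_neg (fun h => hl (disjoint_of_subset_right h hA.2))]
    rw [h10, mul_zero, zero_mul]

/-- a subset of a set of nonzero weight has nonzero weight -/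
theorem expn_wgt_zero (hs : ∀ x y, Φ x y = Φ y x) (h0 : ∀ x y, 0 ≤ Φ x y) {J A : Finset V}
    (hJA : J ⊆ A) (hJ : wgt Φ J = 0) : wgt Φ A = 0 := by
  have h1 := wgt_union hs h0 (disjoint_sdiff (s := J) (t := A))
  rw [union_sdiff_of_subset hJA, hJ, zero_mul, zero_mul] at h1
  exact h1

/-- `S(J) = 0` if `w(J) = 0`. -/
theorem cnd_eq_zero (hs : ∀ x y, Φ x y = Φ y x) (h0 : ∀ x y, 0 ≤ Φ x y) (u : ℝ)
    (f : Finset V → ℝ) {J : Finset V} (hJ : wgt Φ J = 0) : cnd Φ u f J = 0 := by
  unfold cnd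
  refine sum_eq_zero fun A hA => ?_
  rw [mem_filter] at hA
  rw [expn_wgt_zero hs h0 hA.2 hJ, mul_zero, zero_mul]

/-- `S(J) = 0` if `J` is too large. -/
theorem cnd_eq_zero_of_card (u : ℝ) {f : Finset V → ℝ} {t : ℕ} (hf : ∀ A, t < A.card → f A = 0)
    {J : Finset V} (hJ : t < J.card) : cnd Φ u f J = 0 := by
  unfold cnd
  refine sum_eq_zero fun A hA => ?_
  rw [mem_filter] at hA
  rw [hf A (lt_of_lt_of_le hJ (card_le_card hA.2)), mul_zero]

end Pool.Agent.Lib.MP_0430e4_lc.Las
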