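import Pool.Agent.Lib.MP_0430e4_lc.Las.Defs
import Pool.Agent.Lib.MP_0430e4_lc.LPL.CUB1
import Pool.Agent.Lib.MP_0430e4_lc.LPL.CUB2

/-!
# FUN1: the pair function on the cube, first part
-/

set_option autoImplicit false

namespace Pool.Agent.Lib.MP_0430e4_lc.Las

open Finset
open Tensor (chi flp)
open Impr (wt)
open LPL (hat)

variable {n : ℕ}

/-- The low and the high frequencies. -/
def Lo (n k : ℕ) : Finset (Fin n → Bool) := univ.filter fun v => wt v ≤ k ∨ n ≤ wt v + k

/-- The middle: the words of weight between `d2` and `n - d2`. -/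
def Mid (n d2 : ℕ) : Finset (Fin n → Bool) := univ.filter fun x => d2 ≤ wt x ∧ wt x + d2 ≤ n

/-- the number of words of weight `j` -/
theorem card_wt (n j : ℕ) : (univ.filter fun x : Fin n → Bool => wt x = j).card = n.choose j := by
  have h : (Finset.powersetCard j (univ : Finset (Fin n))).card = n.choose j := by
    rw [card_powersetCard, card_univ, Fintype.card_fin]
  rw [← h]
  refine Finset.card_bij' (fun x _ => univ.filter fun i => x i = true)
    (fun s _ => fun i => decide (i ∈ s)) ?_ ?_ ?_ ?_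
  · intro x hx
    rw [mem_filter] at hx
    rw [mem_powersetCard]
    exact ⟨subset_univ _, hx.2⟩
  · intro s hs
    rw [mem_powersetCard] at hs
    rw [mem_filter]
    refine ⟨mem_univ _, ?_⟩
    rw [← hs.2]
    unfold wt
    congr 1
    ext i
    simp
  · intro x _
    funext i
    simp
  · intro s _
    ext i
    simp

/-- words of the same weight differ by a permutation of the coordinates -/
theorem exists_perm {x y : Fin n → Bool} (h : wt x = wt y) :
    ∃ p : Equiv.Perm (Fin n), y = x ∘ p := by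
  obtain ⟨σ, hσ⟩ := LPL.exists_perm_of_wt y x h.symm
  exact ⟨σ, funext fun i => (hσ i).symm⟩

theorem fun1_re (φ : ℕ → ℝ) (H : (Fin n → Bool) → ℝ) (b : Bool) :
    ∑ u, φ (wt u) * ∑ i ∈ univ.filter (fun i => u i = b), H (flp u i) =
      ∑ v, ∑ i ∈ univ.filter (fun i => v i = !b), φ (wt (flp v i)) * H v := by
  calc ∑ u, φ (wt u) * ∑ i ∈ univ.filter (fun i => u i = b), H (flp u i)
      = ∑ u, ∑ i, if u i = b then φ (wt u) * H (flp u i) else 0 := by
        refine sum_congr rfl fun u _ => ?_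
        rw [mul_sum, sum_filter]
    _ = ∑ i, ∑ u, if u i = b then φ (wt u) * H (flp u i) else 0 := sum_comm
    _ = ∑ i, ∑ v : Fin n → Bool, if v i = !b then φ (wt (flp v i)) * H v else 0 := by
        refine sum_congr rfl fun i _ => ?_
        rw [← Tensor.sum_flp i]
        refine sum_congr rfl fun v _ => ?_
        rw [Tensor.flp_flp]
        have : flp v i i = !(v i) := by
          unfold Tensor.flp
          simp
        rw [this]
        congr 1
        apply propext
        cases v i <;> cases b <;> simp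
    _ = ∑ v, ∑ i, if v i = !b then φ (wt (flp v i)) * H v else 0 := sum_comm
    _ = _ := by
        refine sum_congr rfl fun v _ => ?_
        rw [sum_filter]

theorem fun1_num {k w : ℝ} {n : ℝ} (h1 : 0 ≤ k - w) (h2 : 0 ≤ n - 1 - k - w) :
    (w + 1) * (n - w) ≤ (k + 1) * (n - k) := by
  nlinarith [mul_nonneg h1 h2]

theorem fun1_wt {k w n : ℕ} (hk : 2 * k + 1 ≤ n) (hw : w ≤ n) (h : w ≤ k ∨ n ≤ w + k) :
    ((w : ℝ) + 1) * (n - w) ≤ ((k : ℝ) + 1) * (n - k) ∧
      (w : ℝ) * (n - w + 1) ≤ ((k : ℝ) + 1) * (n - k) := by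
  have hk' : (2 : ℝ) * k + 1 ≤ n := by exact_mod_cast hk
  have hw' : (w : ℝ) ≤ n := by exact_mod_cast hw
  have hk0 : (0 : ℝ) ≤ k := Nat.cast_nonneg k
  have hw0 : (0 : ℝ) ≤ w := Nat.cast_nonneg w
  have hpos : (0 : ℝ) ≤ ((k : ℝ) + 1) * (n - k) := by
    apply mul_nonneg <;> linarith
  rcases h with h | h
  · have h' : (w : ℝ) ≤ k := by exact_mod_cast h
    constructor
    · exact fun1_num (by linarith) (by linarith)
    · have := fun1_num (k := (k : ℝ)) (w := (w : ℝ) - 1) (n := (n : ℝ)) (by linarith) (by linarith)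
      nlinarith [this]
  · have h' : (n : ℝ) ≤ w + k := by exact_mod_cast h
    constructor
    · have := fun1_num (k := (k : ℝ)) (w := (n : ℝ) - w - 1) (n := (n : ℝ)) (by linarith)
        (by linarith)
      nlinarith [this]
    · have := fun1_num (k := (k : ℝ)) (w := (n : ℝ) - w) (n := (n : ℝ)) (by linarith)
        (by linarith)
      nlinarith [this]

/-- Multiplication by `n - 2 |x|` on functions with spectrum in `Lo`. -/
theorem mul_bound {k : ℕ} (hk : 2 * k + 1 ≤ n) (F : (Fin n → Bool) → ℝ)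
    (hF : ∀ v, v ∉ Lo n k → hat F v = 0) :
    ∑ x, ((n : ℝ) - 2 * wt x) ^ 2 * F x ^ 2 ≤ 4 * ((k : ℝ) + 1) * (n - k) * ∑ x, F x ^ 2 := by
  set B : ℝ := ((k : ℝ) + 1) * (n - k) with hB
  have hP1 : ∑ u, hat (fun x => ((n : ℝ) - 2 * wt x) * F x) u ^ 2 =
      2 ^ n * ∑ x, ((n : ℝ) - 2 * wt x) ^ 2 * F x ^ 2 := by
    have h := LPL.parseval (fun x => ((n : ℝ) - 2 * wt x) * F x)
      (fun x => ((n : ℝ) - 2 * wt x) * F x)
    calc ∑ u, hat (fun x => ((n : ℝ) - 2 * wt x) * F x) u ^ 2
        = ∑ u, hat (fun x => ((n : ℝ) - 2 * wt x) * F x) u *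
            hat (fun x => ((n : ℝ) - 2 * wt x) * F x) u := by
          refine sum_congr rfl fun u _ => by rw [sq]
      _ = _ := by
          rw [h]
          congr 1
          refine sum_congr rfl fun x _ => by ring
  have hP2 : ∑ u, hat F u ^ 2 = 2 ^ n * ∑ x, F x ^ 2 := by
    have h := LPL.parseval F F
    calc ∑ u, hat F u ^ 2 = ∑ u, hat F u * hat F u := by
          refine sum_congr rfl fun u _ => by rw [sq]
      _ = _ := by
          rw [h]
          congr 1
          refine sum_congr rfl fun x _ => by ring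
  -- the two halves
  have hD : ∀ u : Fin n → Bool, (∑ i ∈ univ.filter (fun i => u i = true), hat F (flp u i)) ^ 2 ≤
      (wt u : ℝ) * ∑ i ∈ univ.filter (fun i => u i = true), hat F (flp u i) ^ 2 := by
    intro u
    have h := sq_sum_le_card_mul_sum_sq (s := univ.filter (fun i => u i = true))
      (f := fun i => hat F (flp u i))
    exact h
  have hU : ∀ u : Fin n → Bool, (∑ i ∈ univ.filter (fun i => u i = false), hat F (flp u i)) ^ 2 ≤
      ((n : ℝ) - wt u) * ∑ i ∈ univ.filter (fun i => u i = false), hat F (flp u i) ^ 2 := by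
    intro u
    have h := sq_sum_le_card_mul_sum_sq (s := univ.filter (fun i => u i = false))
      (f := fun i => hat F (flp u i))
    rw [LPL.card_false] at h
    exact h
  have hsplit : ∀ u : Fin n → Bool, ∑ i, hat F (flp u i) =
      (∑ i ∈ univ.filter (fun i => u i = true), hat F (flp u i)) +
        ∑ i ∈ univ.filter (fun i => u i = false), hat F (flp u i) := by
    intro u
    rw [← Finset.sum_filter_add_sum_filter_not univ (fun i => u i = true)]
    congr 1
    refine sum_congr ?_ fun _ _ => rfl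
    ext i
    simp
  have hterm : ∀ u : Fin n → Bool, hat (fun x => ((n : ℝ) - 2 * wt x) * F x) u ^ 2 ≤
      2 * ((wt u : ℝ) * ∑ i ∈ univ.filter (fun i => u i = true), hat F (flp u i) ^ 2) +
        2 * (((n : ℝ) - wt u) *
          ∑ i ∈ univ.filter (fun i => u i = false), hat F (flp u i) ^ 2) := by
    intro u
    rw [LPL.hat_mul_h, hsplit u]
    have h1 := hD u
    have h2 := hU u
    nlinarith [sq_nonneg ((∑ i ∈ univ.filter (fun i => u i = true), hat F (flp u i)) -
        ∑ i ∈ univ.filter (fun i => u i = false), hat F (flp u i))]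
  have hsumD : ∑ u : Fin n → Bool,
      (wt u : ℝ) * ∑ i ∈ univ.filter (fun i => u i = true), hat F (flp u i) ^ 2 ≤
        B * ∑ v, hat F v ^ 2 := by
    have h := fun1_re (n := n) (fun j => (j : ℝ)) (fun v => hat F v ^ 2) true
    rw [h, mul_sum]
    refine sum_le_sum fun v _ => ?_
    by_cases hv : v ∈ Lo n k
    · have hv' : wt v ≤ k ∨ n ≤ wt v + k := by
        unfold Lo at hv
        rw [mem_filter] at hv
        exact hv.2
      have h1 : ∑ i ∈ univ.filter (fun i => v i = !true), ((wt (flp v i) : ℕ) : ℝ) * hat F v ^ 2 =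
          ((n : ℝ) - wt v) * (((wt v : ℝ) + 1) * hat F v ^ 2) := by
        have h2 : ∀ i ∈ univ.filter (fun i => v i = !true),
            ((wt (flp v i) : ℕ) : ℝ) * hat F v ^ 2 = ((wt v : ℝ) + 1) * hat F v ^ 2 := by
          intro i hi
          rw [mem_filter] at hi
          rw [LPL.wt_flp_false v i (by simpa using hi.2)]
          push_cast
          ring
        rw [sum_congr rfl h2, sum_const, nsmul_eq_mul]
        congr 1
        exact LPL.card_false v
      rw [h1]
      have h3 := (fun1_wt hk (LPL.wt_le v) hv').1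
      nlinarith [sq_nonneg (hat F v), mul_le_mul_of_nonneg_right h3 (sq_nonneg (hat F v))]
    · rw [hF v hv]
      simp
  have hsumU : ∑ u : Fin n → Bool,
      ((n : ℝ) - wt u) * ∑ i ∈ univ.filter (fun i => u i = false), hat F (flp u i) ^ 2 ≤
        B * ∑ v, hat F v ^ 2 := by
    have h := fun1_re (n := n) (fun j => (n : ℝ) - j) (fun v => hat F v ^ 2) false
    rw [h, mul_sum]
    refine sum_le_sum fun v _ => ?_
    by_cases hv : v ∈ Lo n k
    · have hv' : wt v ≤ k ∨ n ≤ wt v + k := by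
        unfold Lo at hv
        rw [mem_filter] at hv
        exact hv.2
      have h1 : ∑ i ∈ univ.filter (fun i => v i = !false),
          ((n : ℝ) - ((wt (flp v i) : ℕ) : ℝ)) * hat F v ^ 2 =
          (wt v : ℝ) * (((n : ℝ) - wt v + 1) * hat F v ^ 2) := by
        have h2 : ∀ i ∈ univ.filter (fun i => v i = !false),
            ((n : ℝ) - ((wt (flp v i) : ℕ) : ℝ)) * hat F v ^ 2 =
              ((n : ℝ) - wt v + 1) * hat F v ^ 2 := by
          intro i hi
          rw [mem_filter] at hi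
          have h4 := LPL.wt_flp_true v i (by simpa using hi.2)
          have h5 : ((wt (flp v i) : ℕ) : ℝ) + 1 = wt v := by exact_mod_cast h4
          have h6 : ((wt (flp v i) : ℕ) : ℝ) = wt v - 1 := by linarith
          rw [h6]
          ring
        rw [sum_congr rfl h2, sum_const, nsmul_eq_mul]
        congr 1
      rw [h1]
      have h3 := (fun1_wt hk (LPL.wt_le v) hv').2
      nlinarith [sq_nonneg (hat F v), mul_le_mul_of_nonneg_right h3 (sq_nonneg (hat F v))]
    · rw [hF v hv]
      simp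
  have htot : ∑ u, hat (fun x => ((n : ℝ) - 2 * wt x) * F x) u ^ 2 ≤
      4 * B * ∑ v, hat F v ^ 2 := by
    calc ∑ u, hat (fun x => ((n : ℝ) - 2 * wt x) * F x) u ^ 2
        ≤ ∑ u : Fin n → Bool,
          (2 * ((wt u : ℝ) * ∑ i ∈ univ.filter (fun i => u i = true), hat F (flp u i) ^ 2) +
          2 * (((n : ℝ) - wt u) *
            ∑ i ∈ univ.filter (fun i => u i = false), hat F (flp u i) ^ 2)) :=
          sum_le_sum fun u _ => hterm u
      _ = 2 * (∑ u : Fin n → Bool,
          (wt u : ℝ) * ∑ i ∈ univ.filter (fun i => u i = true), hat F (flp u i) ^ 2) +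
          2 * ∑ u : Fin n → Bool, ((n : ℝ) - wt u) *
            ∑ i ∈ univ.filter (fun i => u i = false), hat F (flp u i) ^ 2 := by
          rw [sum_add_distrib, mul_sum, mul_sum]
      _ ≤ 2 * (B * ∑ v, hat F v ^ 2) + 2 * (B * ∑ v, hat F v ^ 2) := by linarith
      _ = _ := by ring
  rw [hP1, hP2] at htot
  have h2n : (0 : ℝ) < 2 ^ n := by positivity
  have h9 : 4 * B * (2 ^ n * ∑ x, F x ^ 2) = 2 ^ n * (4 * B * ∑ x, F x ^ 2) := by ring
  rw [h9] at htot
  have h10 := le_of_mul_le_mul_left htot h2n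
  have h11 : 4 * ((k : ℝ) + 1) * (n - k) = 4 * B := by rw [hB]; ring
  rw [h11]
  exact h10

/-- Coercivity of the middle. -/
theorem mid_bound {k d2 : ℕ} (hk : 2 * k + 1 ≤ n) (hd2 : 2 * d2 < n) {κ : ℝ}
    (hc : 4 * ((k : ℝ) + 1) * (n - k) ≤ (1 - κ) * ((n : ℝ) - 2 * d2) ^ 2)
    (F : (Fin n → Bool) → ℝ) (hF : ∀ v, v ∉ Lo n k → hat F v = 0) :
    κ * ∑ x, F x ^ 2 ≤ ∑ x ∈ Mid n d2, F x ^ 2 := by
  have h1 := mul_bound hk F hF
  have hL : (0 : ℝ) < (n : ℝ) - 2 * d2 := by
    have : ((2 * d2 : ℕ) : ℝ) < n := by exact_mod_cast hd2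
    push_cast at this
    linarith
  have hS : 0 ≤ ∑ x, F x ^ 2 := sum_nonneg fun x _ => sq_nonneg _
  have h2 : ∑ x, ((n : ℝ) - 2 * wt x) ^ 2 * F x ^ 2 ≤
      (1 - κ) * ((n : ℝ) - 2 * d2) ^ 2 * ∑ x, F x ^ 2 :=
    h1.trans (mul_le_mul_of_nonneg_right hc hS)
  have h3 : ((n : ℝ) - 2 * d2) ^ 2 * ∑ x ∈ univ.filter (fun x => x ∉ Mid n d2), F x ^ 2 ≤
      ∑ x, ((n : ℝ) - 2 * wt x) ^ 2 * F x ^ 2 := by
    rw [mul_sum]
    calc ∑ x ∈ univ.filter (fun x => x ∉ Mid n d2), ((n : ℝ) - 2 * d2) ^ 2 * F x ^ 2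
        ≤ ∑ x ∈ univ.filter (fun x => x ∉ Mid n d2), ((n : ℝ) - 2 * wt x) ^ 2 * F x ^ 2 := by
          refine sum_le_sum fun x hx => ?_
          rw [mem_filter] at hx
          refine mul_le_mul_of_nonneg_right ?_ (sq_nonneg _)
          have h4 : ¬ (d2 ≤ wt x ∧ wt x + d2 ≤ n) := by
            intro h
            apply hx.2
            unfold Mid
            rw [mem_filter]
            exact ⟨mem_univ _, h⟩
          rw [not_and_or, not_le, not_le] at h4
          rcases h4 with h4 | h4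
          · have h5 : ((wt x : ℕ) : ℝ) ≤ d2 := by exact_mod_cast h4.le
            nlinarith
          · have h5 : (n : ℝ) ≤ wt x + d2 := by exact_mod_cast h4.le
            nlinarith
      _ ≤ _ := by
          refine sum_le_sum_of_subset_of_nonneg (filter_subset _ _) fun x _ _ => ?_
          positivity
  have h4 : ∑ x ∈ univ.filter (fun x => x ∉ Mid n d2), F x ^ 2 + ∑ x ∈ Mid n d2, F x ^ 2 =
      ∑ x, F x ^ 2 := by
    have h5 := Finset.sum_filter_add_sum_filter_not univ (fun x => x ∈ Mid n d2)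
      (fun x => F x ^ 2)
    rw [← h5, add_comm]
    congr 1
    refine sum_congr ?_ fun _ _ => rfl
    ext x
    simp
  have hL2 : (0 : ℝ) < ((n : ℝ) - 2 * d2) ^ 2 := by positivity
  have h6 : ((n : ℝ) - 2 * d2) ^ 2 * ∑ x ∈ univ.filter (fun x => x ∉ Mid n d2), F x ^ 2 ≤
      ((n : ℝ) - 2 * d2) ^ 2 * ((1 - κ) * ∑ x, F x ^ 2) := by
    calc _ ≤ _ := h3
      _ ≤ _ := h2
      _ = _ := by ring
  have h7 := le_of_mul_le_mul_left h6 hL2
  linarith

end Pool.Agent.Lib.MP_0430e4_lc.Las
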