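import Pool.Agent.Lib.MP_0430e4_lc.Las.FUN1

/-!
# FUN2: the pair function on the cube, second part: the correction
-/

set_option autoImplicit false

namespace Pool.Agent.Lib.MP_0430e4_lc.Las

open Finset
open Tensor (chi flp)
open Impr (wt)
open LPL (hat)

variable {n : ℕ}

/-- A coercive symmetric form on a finite-dimensional space is solvable. -/
theorem solve {S : Type*} [Fintype S] [DecidableEq S] (G : S → S → ℝ) {κ : ℝ} (hκ : 0 < κ)
    (hG : ∀ c : S → ℝ, κ * ∑ s, c s ^ 2 ≤ ∑ s, ∑ s', G s s' * c s * c s') (b : S → ℝ) :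
    ∃! c : S → ℝ, ∀ s, ∑ s', G s s' * c s' = b s := by
  let T : (S → ℝ) →ₗ[ℝ] (S → ℝ) := Matrix.mulVecLin (Matrix.of G)
  have hT : ∀ (c : S → ℝ) (s : S), T c s = ∑ s', G s s' * c s' := by
    intro c s
    rfl
  have hinj : Function.Injective T := by
    rw [← LinearMap.ker_eq_bot, LinearMap.ker_eq_bot']
    intro c hc
    have h1 := hG c
    have h2 : ∑ s, ∑ s', G s s' * c s * c s' = 0 := by
      calc ∑ s, ∑ s', G s s' * c s * c s' = ∑ s, c s * T c s := by
            refine sum_congr rfl fun s _ => ?_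
            rw [hT, mul_sum]
            refine sum_congr rfl fun s' _ => by ring
        _ = 0 := by
            rw [hc]
            simp
    rw [h2] at h1
    have h3 : ∑ s, c s ^ 2 ≤ 0 := by
      by_contra h
      push Not at h
      have := mul_pos hκ h
      linarith
    have h4 : ∑ s, c s ^ 2 = 0 := le_antisymm h3 (sum_nonneg fun s _ => sq_nonneg _)
    rw [sum_eq_zero_iff_of_nonneg (fun s _ => sq_nonneg _)] at h4
    funext s
    exact pow_eq_zero_iff (two_ne_zero) |>.1 (h4 s (mem_univ s))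
  have hsurj : Function.Surjective T := LinearMap.injective_iff_surjective.1 hinj
  obtain ⟨c, hc⟩ := hsurj b
  refine ⟨c, fun s => ?_, fun c' hc' => ?_⟩
  · rw [← hT, hc]
  · apply hinj
    rw [hc]
    funext s
    rw [hT]
    exact hc' s

theorem fun2_chi_perm (x v : Fin n → Bool) (p : Equiv.Perm (Fin n)) :
    chi (x ∘ p) (v ∘ p) = chi x v := by
  unfold Tensor.chi
  exact Equiv.prod_comp p (fun i => if x i = true ∧ v i = true then (-1 : ℝ) else 1)

theorem fun2_wt_perm (x : Fin n → Bool) (p : Equiv.Perm (Fin n)) : wt (x ∘ p) = wt x :=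
  LPL.wt_comp_perm x p

/-- the permutation of the words -/
def fun2_act (p : Equiv.Perm (Fin n)) : Equiv.Perm (Fin n → Bool) where
  toFun x := x ∘ p
  invFun x := x ∘ p.symm
  left_inv x := by
    funext i
    simp
  right_inv x := by
    funext i
    simp

theorem fun2_sum_perm (p : Equiv.Perm (Fin n)) (f : (Fin n → Bool) → ℝ) :
    ∑ x, f (x ∘ p) = ∑ x, f x := Equiv.sum_comp (fun2_act p) f

theorem fun2_orth (v w : Fin n → Bool) :
    ∑ x, chi x v * chi x w = if v = w then (2 : ℝ) ^ n else 0 := by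
  rw [← LPL.sum_chi_mul v w]
  refine sum_congr rfl fun x _ => ?_
  rw [Tensor.chi_comm x v, Tensor.chi_comm x w]

theorem fun2_ball (n d : ℕ) : ∑ x : Fin n → Bool, (if wt x < d then (1 : ℝ) else 0) = ball n d := by
  unfold ball
  rw [← sum_filter, sum_const, nsmul_eq_mul, mul_one]
  have h1 : (univ.filter fun x : Fin n → Bool => wt x < d) =
      (range d).biUnion fun j => univ.filter fun x : Fin n → Bool => wt x = j := by
    ext x
    simp
  rw [h1, card_biUnion]
  · push_cast
    refine sum_congr rfl fun j _ => ?_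
    rw [card_wt]
  · intro i _ j _ hij
    rw [Function.onFun, disjoint_left]
    intro x hx hx'
    rw [mem_filter] at hx hx'
    exact hij (hx.2.symm.trans hx'.2)

/-- The correction. -/
theorem exists_q {k d2 d : ℕ} (hk : 2 * k + 1 ≤ n) (hd2 : 2 * d2 < n) {κ : ℝ} (hκ : 0 < κ)
    (hc : 4 * ((k : ℝ) + 1) * (n - k) ≤ (1 - κ) * ((n : ℝ) - 2 * d2) ^ 2) :
    ∃ q : (Fin n → Bool) → ℝ, (∀ x (p : Equiv.Perm (Fin n)), q (x ∘ p) = q x) ∧
      (∀ v, v ∉ Lo n k → hat q v = 0) ∧
      (∀ v ∈ Lo n k, ∑ x ∈ Mid n d2, q x * chi x v = ∑ x, (if wt x < d then 1 else 0) * chi x v) ∧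
      κ ^ 2 * ∑ x, q x ^ 2 ≤ ball n d := by
  classical
  let S := {v : Fin n → Bool // v ∈ Lo n k}
  let G : S → S → ℝ := fun v w => ∑ x ∈ Mid n d2, chi x v.1 * chi x w.1
  let b : S → ℝ := fun v => ∑ x, (if wt x < d then 1 else 0) * chi x v.1
  let Q : (S → ℝ) → (Fin n → Bool) → ℝ := fun c x => ∑ v : S, c v * chi x v.1
  have hQhat : ∀ (c : S → ℝ) (v : Fin n → Bool), hat (Q c) v =
      ∑ w : S, c w * (if w.1 = v then (2 : ℝ) ^ n else 0) := by
    intro c v
    unfold LPL.hat
    calc ∑ x, Q c x * chi x v = ∑ x, ∑ w : S, c w * (chi x w.1 * chi x v) := by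
          refine sum_congr rfl fun x _ => ?_
          show (∑ w : S, c w * chi x w.1) * chi x v = _
          rw [sum_mul]
          refine sum_congr rfl fun w _ => by ring
      _ = ∑ w : S, ∑ x, c w * (chi x w.1 * chi x v) := sum_comm
      _ = _ := by
          refine sum_congr rfl fun w _ => ?_
          rw [← mul_sum, fun2_orth]
  have hQlo : ∀ (c : S → ℝ) (v : Fin n → Bool), v ∉ Lo n k → hat (Q c) v = 0 := by
    intro c v hv
    rw [hQhat]
    refine sum_eq_zero fun w _ => ?_
    have : w.1 ≠ v := fun h => hv (h ▸ w.2)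
    simp [this]
  have hQin : ∀ (c : S → ℝ) (v : S), hat (Q c) v.1 = c v * 2 ^ n := by
    intro c v
    rw [hQhat, Finset.sum_eq_single v]
    · simp
    · intro w _ hw
      have : w.1 ≠ v.1 := fun h => hw (Subtype.ext h)
      simp [this]
    · intro h
      exact absurd (mem_univ v) h
  have hQnorm : ∀ c : S → ℝ, ∑ x, Q c x ^ 2 = 2 ^ n * ∑ v, c v ^ 2 := by
    intro c
    calc ∑ x, Q c x ^ 2 = ∑ x, ∑ v : S, c v * (Q c x * chi x v.1) := by
          refine sum_congr rfl fun x _ => ?_
          rw [sq]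
          nth_rewrite 2 [show Q c x = ∑ v : S, c v * chi x v.1 from rfl]
          rw [mul_sum]
          refine sum_congr rfl fun v _ => by ring
      _ = ∑ v : S, c v * hat (Q c) v.1 := by
          rw [sum_comm]
          refine sum_congr rfl fun v _ => ?_
          rw [← mul_sum]
          rfl
      _ = _ := by
          rw [mul_sum]
          refine sum_congr rfl fun v _ => ?_
          rw [hQin]
          ring
  have hGQ : ∀ (c : S → ℝ) (v : S), ∑ w, G v w * c w = ∑ x ∈ Mid n d2, Q c x * chi x v.1 := by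
    intro c v
    calc ∑ w, G v w * c w = ∑ w : S, ∑ x ∈ Mid n d2, c w * chi x w.1 * chi x v.1 := by
          refine sum_congr rfl fun w _ => ?_
          show (∑ x ∈ Mid n d2, chi x v.1 * chi x w.1) * c w = _
          rw [sum_mul]
          refine sum_congr rfl fun x _ => by ring
      _ = ∑ x ∈ Mid n d2, ∑ w : S, c w * chi x w.1 * chi x v.1 := sum_comm
      _ = _ := by
          refine sum_congr rfl fun x _ => ?_
          rw [← sum_mul]
  have hGQ2 : ∀ c : S → ℝ, ∑ s, ∑ s', G s s' * c s * c s' = ∑ x ∈ Mid n d2, Q c x ^ 2 := by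
    intro c
    calc ∑ s, ∑ s', G s s' * c s * c s' = ∑ s, c s * ∑ s', G s s' * c s' := by
          refine sum_congr rfl fun s _ => ?_
          rw [mul_sum]
          refine sum_congr rfl fun s' _ => by ring
      _ = ∑ s : S, ∑ x ∈ Mid n d2, Q c x * (c s * chi x s.1) := by
          refine sum_congr rfl fun s _ => ?_
          rw [hGQ, mul_sum]
          refine sum_congr rfl fun x _ => by ring
      _ = ∑ x ∈ Mid n d2, ∑ s : S, Q c x * (c s * chi x s.1) := sum_comm
      _ = _ := by
          refine sum_congr rfl fun x _ => ?_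
          rw [← mul_sum, sq]
  have h2n : (0 : ℝ) < 2 ^ n := by positivity
  have hcoer : ∀ c : S → ℝ, (κ * 2 ^ n) * ∑ s, c s ^ 2 ≤ ∑ s, ∑ s', G s s' * c s * c s' := by
    intro c
    rw [hGQ2]
    have h1 := mid_bound hk hd2 hc (Q c) (hQlo c)
    rw [hQnorm] at h1
    calc (κ * 2 ^ n) * ∑ s, c s ^ 2 = κ * (2 ^ n * ∑ s, c s ^ 2) := by ring
      _ ≤ _ := h1
  obtain ⟨c, hcs, hcu⟩ := solve G (mul_pos hκ h2n) hcoer b
  have hinv : ∀ p : Equiv.Perm (Fin n), ∀ x, Q c (x ∘ p) = Q c x := by
    intro p x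
    -- the action on `S`
    have hLo : ∀ (v : Fin n → Bool) (p : Equiv.Perm (Fin n)), v ∈ Lo n k → v ∘ p ∈ Lo n k := by
      intro v p hv
      unfold Lo at hv ⊢
      rw [mem_filter] at hv ⊢
      rw [fun2_wt_perm]
      exact ⟨mem_univ _, hv.2⟩
    let P : S ≃ S := {
      toFun := fun v => ⟨v.1 ∘ p, hLo v.1 p v.2⟩
      invFun := fun v => ⟨v.1 ∘ p.symm, hLo v.1 p.symm v.2⟩
      left_inv := by
        intro v
        apply Subtype.ext
        funext i
        simp
      right_inv := by
        intro v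
        apply Subtype.ext
        funext i
        simp }
    have hP : ∀ v : S, (P v).1 = v.1 ∘ p := fun v => rfl
    have hGP : ∀ v w : S, G (P v) (P w) = G v w := by
      intro v w
      show ∑ x ∈ Mid n d2, chi x (v.1 ∘ p) * chi x (w.1 ∘ p) =
        ∑ x ∈ Mid n d2, chi x v.1 * chi x w.1
      unfold Mid
      rw [sum_filter, sum_filter, ← fun2_sum_perm p]
      refine sum_congr rfl fun x _ => ?_
      rw [fun2_wt_perm, fun2_chi_perm, fun2_chi_perm]
    have hbP : ∀ v : S, b (P v) = b v := by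
      intro v
      show ∑ x, (if wt x < d then 1 else 0) * chi x (v.1 ∘ p) =
        ∑ x, (if wt x < d then 1 else 0) * chi x v.1
      rw [← fun2_sum_perm p]
      refine sum_congr rfl fun x _ => ?_
      rw [fun2_wt_perm, fun2_chi_perm]
    have hcP : (fun v => c (P v)) = c := by
      apply hcu
      intro v
      show ∑ w, G v w * c (P w) = b v
      calc ∑ w, G v w * c (P w) = ∑ w, G (P v) (P w) * c (P w) := by
            refine sum_congr rfl fun w _ => by rw [hGP]
        _ = ∑ w, G (P v) w * c w := Equiv.sum_comp P (fun w => G (P v) w * c w)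
        _ = b (P v) := hcs (P v)
        _ = b v := hbP v
    show ∑ v : S, c v * chi (x ∘ p) v.1 = ∑ v : S, c v * chi x v.1
    rw [← Equiv.sum_comp P]
    refine sum_congr rfl fun v _ => ?_
    rw [hP, fun2_chi_perm]
    congr 1
    exact congrFun hcP v
  refine ⟨Q c, fun x p => hinv p x, hQlo c, ?_, ?_⟩
  · intro v hv
    have h1 := hcs ⟨v, hv⟩
    rw [hGQ] at h1
    exact h1
  · set A : ℝ := ∑ x, Q c x ^ 2 with hA
    have hA0 : 0 ≤ A := sum_nonneg fun x _ => sq_nonneg _
    have hball0 : 0 ≤ ball n d := by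
      rw [← fun2_ball]
      exact sum_nonneg fun x _ => by split_ifs <;> norm_num
    have h1 : κ * A ≤ ∑ x ∈ Mid n d2, Q c x ^ 2 := mid_bound hk hd2 hc (Q c) (hQlo c)
    have h2 : ∑ x ∈ Mid n d2, Q c x ^ 2 = ∑ x, (if wt x < d then (1 : ℝ) else 0) * Q c x := by
      rw [← hGQ2]
      calc ∑ s, ∑ s', G s s' * c s * c s' = ∑ s, c s * ∑ s', G s s' * c s' := by
            refine sum_congr rfl fun s _ => ?_
            rw [mul_sum]
            refine sum_congr rfl fun s' _ => by ring
        _ = ∑ s : S, ∑ x, (if wt x < d then (1 : ℝ) else 0) * (c s * chi x s.1) := by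
            refine sum_congr rfl fun s _ => ?_
            rw [hcs s]
            show c s * ∑ x, (if wt x < d then 1 else 0) * chi x s.1 = _
            rw [mul_sum]
            refine sum_congr rfl fun x _ => by ring
        _ = ∑ x, ∑ s : S, (if wt x < d then (1 : ℝ) else 0) * (c s * chi x s.1) := sum_comm
        _ = _ := by
            refine sum_congr rfl fun x _ => ?_
            rw [← mul_sum]
    have h3 : (∑ x, (if wt x < d then (1 : ℝ) else 0) * Q c x) ^ 2 ≤ ball n d * A := by
      have h4 := sum_mul_sq_le_sq_mul_sq univ (fun x : Fin n → Bool => if wt x < d then (1 : ℝ) else 0)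
        (Q c)
      have h5 : ∑ x : Fin n → Bool, (if wt x < d then (1 : ℝ) else 0) ^ 2 = ball n d := by
        rw [← fun2_ball]
        refine sum_congr rfl fun x _ => by split_ifs <;> norm_num
      rw [h5] at h4
      exact h4
    rw [← h2] at h3
    have h6 : (κ * A) ^ 2 ≤ ball n d * A := by
      have h7 : 0 ≤ κ * A := mul_nonneg hκ.le hA0
      calc (κ * A) ^ 2 ≤ (∑ x ∈ Mid n d2, Q c x ^ 2) ^ 2 := pow_le_pow_left₀ h7 h1 2
        _ ≤ _ := h3
    rcases hA0.eq_or_lt with h8 | h8
    · rw [← h8]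
      simpa using hball0
    · have h9 : A * (κ ^ 2 * A) ≤ A * ball n d := by nlinarith
      exact le_of_mul_le_mul_left h9 h8

end Pool.Agent.Lib.MP_0430e4_lc.Las
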