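import Pool.Agent.Lib.MP_0430e4_lc.Las.Defs

/-!
# GRN: the norm of a bipartite graph, elementary steps
-/

set_option autoImplicit false

namespace Pool.Agent.Lib.MP_0430e4_lc.Las

open Finset

variable {V : Type*} [Fintype V] [DecidableEq V] {Φ : V → V → ℝ} {θ σ ρ : ℝ}

variable {ι κ : Type*} [Fintype ι] [DecidableEq ι] [Fintype κ] [DecidableEq κ]

/-- averaging over the value at one index -/
theorem sum_update (i : ι) (h : (ι → V) → ℝ) :
    ∑ x : V, ∑ α : ι → V, h (Function.update α i x) = (Fintype.card V : ℝ) * ∑ α, h α := by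
  let e : V × (ι → V) ≃ V × (ι → V) :=
    { toFun := fun p => (p.2 i, Function.update p.2 i p.1)
      invFun := fun p => (p.2 i, Function.update p.2 i p.1)
      left_inv := fun p => by simp
      right_inv := fun p => by simp }
  have h1 : ∑ x : V, ∑ α : ι → V, h (Function.update α i x)
      = ∑ p : V × (ι → V), h (Function.update p.2 i p.1) := by
    rw [Fintype.sum_prod_type]
  have h2 : ∑ p : V × (ι → V), h (Function.update p.2 i p.1) = ∑ p : V × (ι → V), h p.2 :=
    Equiv.sum_comp e (fun p : V × (ι → V) => h p.2)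
  have h3 : ∑ p : V × (ι → V), h p.2 = (Fintype.card V : ℝ) * ∑ α, h α := by
    rw [Fintype.sum_prod_type]
    simp [Finset.sum_const, nsmul_eq_mul]
  rw [h1, h2, h3]

theorem abs_phi_le (h : Ker Φ θ σ ρ) (x y : V) : |Φ x y - 1| ≤ 1 := by
  have h1 := h.nonneg x y
  have h2 := h.le x y
  have h3 := h.θ1
  rw [abs_le]
  constructor <;> linarith

/-- One vertex is removed: `W` is the product of the edges at the vertex `i`. -/
theorem step_vertex [Nonempty V] (i : ι) {K : (ι → V) → (κ → V) → ℝ} {W : V → (κ → V) → ℝ}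
    {s c : ℝ} (hc : 0 ≤ c)
    (hK : ∀ α β x, K (Function.update α i x) β = K α β)
    (hW : ∀ β, ∑ x, W x β ^ 2 ≤ (Fintype.card V : ℝ) * s ^ 2)
    (hB : ∀ (p : (ι → V) → ℝ) (r : (κ → V) → ℝ), (∑ α, ∑ β, K α β * p α * r β) ^ 2 ≤
      c * ((∑ α, p α ^ 2) * ∑ β, r β ^ 2)) (p : (ι → V) → ℝ) (r : (κ → V) → ℝ) :
    (∑ α, ∑ β, K α β * W (α i) β * p α * r β) ^ 2 ≤
      s ^ 2 * c * ((∑ α, p α ^ 2) * ∑ β, r β ^ 2) := by
  set N : ℝ := (Fintype.card V : ℝ) with hN
  have hN0 : 0 < N := by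
    rw [hN]; exact_mod_cast Fintype.card_pos
  set P : ℝ := ∑ α, p α ^ 2 with hP
  set R : ℝ := ∑ β, r β ^ 2 with hR
  have hP0 : 0 ≤ P := sum_nonneg fun _ _ => sq_nonneg _
  have hR0 : 0 ≤ R := sum_nonneg fun _ _ => sq_nonneg _
  have h1 : N * (∑ α, ∑ β, K α β * W (α i) β * p α * r β)
      = ∑ x : V, ∑ α, ∑ β, K α β * p (Function.update α i x) * (W x β * r β) := by
    rw [hN, ← sum_update i (fun α => ∑ β, K α β * W (α i) β * p α * r β)]
    refine sum_congr rfl fun x _ => sum_congr rfl fun α _ => sum_congr rfl fun β _ => ?_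
    simp only [hK, Function.update_self]
    ring
  have h2 : (∑ x : V, ∑ α, ∑ β, K α β * p (Function.update α i x) * (W x β * r β)) ^ 2
      ≤ (∑ x : V, c * ∑ α, p (Function.update α i x) ^ 2) * ∑ x : V, ∑ β, (W x β * r β) ^ 2 := by
    refine sum_sq_le_sum_mul_sum_of_sq_le_mul _ (fun x _ => ?_) (fun x _ => ?_) (fun x _ => ?_)
    · exact mul_nonneg hc (sum_nonneg fun _ _ => sq_nonneg _)
    · exact sum_nonneg fun _ _ => sq_nonneg _
    · have := hB (fun α => p (Function.update α i x)) (fun β => W x β * r β)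
      rw [mul_assoc]
      exact this
  have h3 : ∑ x : V, c * ∑ α, p (Function.update α i x) ^ 2 = c * (N * P) := by
    rw [← mul_sum, sum_update i (fun α => p α ^ 2)]
  have h4 : ∑ x : V, ∑ β, (W x β * r β) ^ 2 ≤ N * s ^ 2 * R := by
    rw [sum_comm, hR, mul_sum]
    refine sum_le_sum fun β _ => ?_
    have : ∑ x, (W x β * r β) ^ 2 = (∑ x, W x β ^ 2) * r β ^ 2 := by
      rw [sum_mul]
      exact sum_congr rfl fun x _ => by ring
    rw [this]
    exact mul_le_mul_of_nonneg_right (hW β) (sq_nonneg _)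
  have h5 : (N * (∑ α, ∑ β, K α β * W (α i) β * p α * r β)) ^ 2
      ≤ c * (N * P) * (N * s ^ 2 * R) := by
    rw [h1]
    refine h2.trans ?_
    rw [h3]
    exact mul_le_mul_of_nonneg_left h4 (by positivity)
  have h6 : N ^ 2 * (∑ α, ∑ β, K α β * W (α i) β * p α * r β) ^ 2
      ≤ N ^ 2 * (s ^ 2 * c * (P * R)) := by
    calc N ^ 2 * (∑ α, ∑ β, K α β * W (α i) β * p α * r β) ^ 2
        = (N * (∑ α, ∑ β, K α β * W (α i) β * p α * r β)) ^ 2 := by ring
      _ ≤ c * (N * P) * (N * s ^ 2 * R) := h5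
      _ = N ^ 2 * (s ^ 2 * c * (P * R)) := by ring
  exact le_of_mul_le_mul_left h6 (by positivity)

/-- One isolated edge is removed. -/
theorem step_edge [Nonempty V] (h : Ker Φ θ σ ρ) (i : ι) (j : κ) {K : (ι → V) → (κ → V) → ℝ}
    {c : ℝ} (hc : 0 ≤ c)
    (hK1 : ∀ α β x, K (Function.update α i x) β = K α β)
    (hK2 : ∀ α β y, K α (Function.update β j y) = K α β)
    (hB : ∀ (p : (ι → V) → ℝ) (r : (κ → V) → ℝ), (∑ α, ∑ β, K α β * p α * r β) ^ 2 ≤
      c * ((∑ α, p α ^ 2) * ∑ β, r β ^ 2)) (p : (ι → V) → ℝ) (r : (κ → V) → ℝ) :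
    (∑ α, ∑ β, K α β * (Φ (α i) (β j) - 1) * p α * r β) ^ 2 ≤
      ρ ^ 2 * c * ((∑ α, p α ^ 2) * ∑ β, r β ^ 2) := by
  set N : ℝ := (Fintype.card V : ℝ) with hN
  have hN0 : 0 < N := by
    rw [hN]; exact_mod_cast Fintype.card_pos
  set P : ℝ := ∑ α, p α ^ 2 with hP
  set R : ℝ := ∑ β, r β ^ 2 with hR
  have hP0 : 0 ≤ P := sum_nonneg fun _ _ => sq_nonneg _
  have hR0 : 0 ≤ R := sum_nonneg fun _ _ => sq_nonneg _
  -- norm of the transpose
  have hT : ∀ q : (ι → V) → ℝ, ∑ β, (∑ α, K α β * q α) ^ 2 ≤ c * ∑ α, q α ^ 2 := by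
    intro q
    set T : ℝ := ∑ β, (∑ α, K α β * q α) ^ 2 with hTdef
    have hT0 : 0 ≤ T := sum_nonneg fun _ _ => sq_nonneg _
    have h1 := hB q (fun β => ∑ α, K α β * q α)
    have h2 : ∑ α, ∑ β, K α β * q α * (∑ α', K α' β * q α') = T := by
      rw [sum_comm, hTdef]
      refine sum_congr rfl fun β _ => ?_
      rw [← sum_mul, sq]
    rw [h2, ← hTdef] at h1
    rcases hT0.eq_or_lt with h3 | h3
    · rw [← h3]
      exact mul_nonneg hc (sum_nonneg fun _ _ => sq_nonneg _)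
    · have h4 : T * T ≤ (c * ∑ α, q α ^ 2) * T := by
        calc T * T = T ^ 2 := by ring
          _ ≤ c * ((∑ α, q α ^ 2) * T) := h1
          _ = (c * ∑ α, q α ^ 2) * T := by ring
      exact le_of_mul_le_mul_right h4 h3
  set u : V → (κ → V) → ℝ := fun x β => ∑ α, K α β * p (Function.update α i x) with hu
  set v : V → (κ → V) → ℝ := fun y β => r (Function.update β j y) with hv
  set S : ℝ := ∑ α, ∑ β, K α β * (Φ (α i) (β j) - 1) * p α * r β with hS
  have h1 : N * (N * S) = ∑ β, ∑ x, ∑ y, (Φ x y - 1) * u x β * v y β := by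
    have e1 : N * S = ∑ x : V, ∑ α, ∑ β, K α β * (Φ x (β j) - 1)
        * p (Function.update α i x) * r β := by
      rw [hS, hN, ← sum_update i (fun α => ∑ β, K α β * (Φ (α i) (β j) - 1) * p α * r β)]
      refine sum_congr rfl fun x _ => sum_congr rfl fun α _ => sum_congr rfl fun β _ => ?_
      simp only [hK1, Function.update_self]
    have e2 : N * S = ∑ β, ∑ x, (Φ x (β j) - 1) * u x β * r β := by
      rw [e1, sum_comm]
      have : ∀ α : ι → V, ∑ x, ∑ β, K α β * (Φ x (β j) - 1) * p (Function.update α i x) * r β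
          = ∑ β, ∑ x, K α β * (Φ x (β j) - 1) * p (Function.update α i x) * r β :=
        fun α => sum_comm
      rw [sum_congr rfl fun α _ => this α, sum_comm]
      refine sum_congr rfl fun β _ => ?_
      rw [sum_comm]
      refine sum_congr rfl fun x _ => ?_
      rw [hu]
      simp only [mul_sum, sum_mul]
      exact sum_congr rfl fun α _ => by ring
    rw [e2, hN, ← sum_update j (fun β => ∑ x, (Φ x (β j) - 1) * u x β * r β), sum_comm]
    refine sum_congr rfl fun β _ => ?_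
    rw [sum_comm]
    refine sum_congr rfl fun x _ => sum_congr rfl fun y _ => ?_
    have e3 : u x (Function.update β j y) = u x β := by
      rw [hu]
      exact sum_congr rfl fun α _ => by rw [hK2]
    rw [e3, Function.update_self]
  have h2 : (∑ β, ∑ x, ∑ y, (Φ x y - 1) * u x β * v y β) ^ 2
      ≤ (∑ β, (N * ρ) ^ 2 * ∑ x, u x β ^ 2) * ∑ β, ∑ y, v y β ^ 2 := by
    refine sum_sq_le_sum_mul_sum_of_sq_le_mul _ (fun β _ => ?_) (fun β _ => ?_) (fun β _ => ?_)
    · exact mul_nonneg (sq_nonneg _) (sum_nonneg fun _ _ => sq_nonneg _)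
    · exact sum_nonneg fun _ _ => sq_nonneg _
    · have := h.op (fun x => u x β) (fun y => v y β)
      rw [mul_assoc]
      exact this
  have h3 : ∑ β, (N * ρ) ^ 2 * ∑ x, u x β ^ 2 ≤ (N * ρ) ^ 2 * (c * (N * P)) := by
    rw [← mul_sum]
    apply mul_le_mul_of_nonneg_left _ (sq_nonneg _)
    rw [sum_comm]
    calc ∑ x, ∑ β, u x β ^ 2 ≤ ∑ x, c * ∑ α, p (Function.update α i x) ^ 2 :=
          sum_le_sum fun x _ => hT (fun α => p (Function.update α i x))
      _ = c * (N * P) := by rw [← mul_sum, sum_update i (fun α => p α ^ 2)]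
  have h4 : ∑ β, ∑ y, v y β ^ 2 = N * R := by
    rw [sum_comm, hv]
    exact sum_update j (fun β => r β ^ 2)
  have h5 : N ^ 4 * S ^ 2 ≤ N ^ 4 * (ρ ^ 2 * c * (P * R)) := by
    calc N ^ 4 * S ^ 2 = (N * (N * S)) ^ 2 := by ring
      _ ≤ (N * ρ) ^ 2 * (c * (N * P)) * (N * R) := by
        rw [h1]
        refine h2.trans ?_
        rw [h4]
        exact mul_le_mul_of_nonneg_right h3 (by positivity)
      _ = N ^ 4 * (ρ ^ 2 * c * (P * R)) := by ring
  exact le_of_mul_le_mul_left h5 (by positivity)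

end Pool.Agent.Lib.MP_0430e4_lc.Las
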