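import Pool.Agent.Lib.MP_0430e4_lc.Las.GRN

/-!
# GRN2: the norm of a bipartite graph
-/

set_option autoImplicit false

namespace Pool.Agent.Lib.MP_0430e4_lc.Las

open Finset

variable {V : Type*} [Fintype V] [DecidableEq V] {Φ : V → V → ℝ} {θ σ ρ : ℝ}

variable {ι κ : Type*} [Fintype ι] [DecidableEq ι] [Fintype κ] [DecidableEq κ]

/-- the graph without edges -/
theorem grn2_empty (p : (ι → V) → ℝ) (r : (κ → V) → ℝ) :
    (∑ α, ∑ β, (1 : ℝ) * p α * r β) ^ 2 ≤
      (Fintype.card V : ℝ) ^ (Fintype.card ι + Fintype.card κ) *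
        ((∑ α, p α ^ 2) * ∑ β, r β ^ 2) := by
  have h1 : ∑ α, ∑ β, (1 : ℝ) * p α * r β = (∑ α, p α) * ∑ β, r β := by
    rw [sum_mul_sum]
    simp
  have h2 : (∑ α, p α) ^ 2 ≤ (Fintype.card V : ℝ) ^ Fintype.card ι * ∑ α, p α ^ 2 := by
    have := sq_sum_le_card_mul_sum_sq (s := (univ : Finset (ι → V))) (f := p)
    rw [card_univ, Fintype.card_fun] at this
    push_cast at this
    exact this
  have h3 : (∑ β, r β) ^ 2 ≤ (Fintype.card V : ℝ) ^ Fintype.card κ * ∑ β, r β ^ 2 := by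
    have := sq_sum_le_card_mul_sum_sq (s := (univ : Finset (κ → V))) (f := r)
    rw [card_univ, Fintype.card_fun] at this
    push_cast at this
    exact this
  rw [h1, mul_pow, pow_add]
  calc (∑ α, p α) ^ 2 * (∑ β, r β) ^ 2
      ≤ ((Fintype.card V : ℝ) ^ Fintype.card ι * ∑ α, p α ^ 2) *
        ((Fintype.card V : ℝ) ^ Fintype.card κ * ∑ β, r β ^ 2) :=
        mul_le_mul h2 h3 (sq_nonneg _) (mul_nonneg (by positivity)
          (sum_nonneg fun _ _ => sq_nonneg _))
    _ = _ := by ring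

/-- a product of factors of absolute value at most one -/
theorem grn2_prod_le {τ : Type*} [DecidableEq τ] (s : Finset τ) (f : τ → ℝ)
    (hf : ∀ e ∈ s, |f e| ≤ 1) {e0 : τ} (he : e0 ∈ s) : (∏ e ∈ s, f e) ^ 2 ≤ f e0 ^ 2 := by
  rw [← mul_prod_erase s f he, mul_pow]
  have h1 : (∏ e ∈ s.erase e0, f e) ^ 2 ≤ 1 := by
    rw [← prod_pow]
    apply prod_le_one
    · intro e _; exact sq_nonneg _
    · intro e he'
      have := hf e (mem_of_mem_erase he')
      rw [← sq_abs]
      nlinarith [abs_nonneg (f e)]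
  nlinarith [sq_nonneg (f e0)]

theorem grn2_mem_lft {g : Finset (ι × κ)} {i : ι} : i ∈ lft g ↔ ∃ j, (i, j) ∈ g := by
  unfold lft
  rw [mem_image]
  constructor
  · rintro ⟨⟨a, b⟩, hab, rfl⟩
    exact ⟨b, hab⟩
  · rintro ⟨j, hj⟩
    exact ⟨(i, j), hj, rfl⟩

theorem grn2_mem_rgt {g : Finset (ι × κ)} {j : κ} : j ∈ rgt g ↔ ∃ i, (i, j) ∈ g := by
  unfold rgt
  rw [mem_image]
  constructor
  · rintro ⟨⟨a, b⟩, hab, rfl⟩
    exact ⟨a, hab⟩
  · rintro ⟨i, hi⟩
    exact ⟨(i, j), hi, rfl⟩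

/-- the kernel of a graph -/
noncomputable def kerG (Φ : V → V → ℝ) (g : Finset (ι × κ)) (α : ι → V) (β : κ → V) : ℝ :=
  ∏ e ∈ g, (Φ (α e.1) (β e.2) - 1)

theorem kerG_update_left {g : Finset (ι × κ)} {i : ι} (hi : ∀ e ∈ g, e.1 ≠ i) (α : ι → V)
    (β : κ → V) (x : V) : kerG Φ g (Function.update α i x) β = kerG Φ g α β := by
  unfold kerG
  refine prod_congr rfl fun e he => ?_
  rw [Function.update_of_ne (hi e he)]

theorem kerG_update_right {g : Finset (ι × κ)} {j : κ} (hj : ∀ e ∈ g, e.2 ≠ j) (α : ι → V)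
    (β : κ → V) (y : V) : kerG Φ g α (Function.update β j y) = kerG Φ g α β := by
  unfold kerG
  refine prod_congr rfl fun e he => ?_
  rw [Function.update_of_ne (hj e he)]

/-- the bound for a graph -/
def GB (Φ : V → V → ℝ) (c : ℝ) (g : Finset (ι × κ)) : Prop :=
  ∀ (p : (ι → V) → ℝ) (r : (κ → V) → ℝ), (∑ α, ∑ β, kerG Φ g α β * p α * r β) ^ 2 ≤
      c * ((∑ α, p α ^ 2) * ∑ β, r β ^ 2)

theorem grn2_left [Nonempty V] (h : Ker Φ θ σ ρ) {g : Finset (ι × κ)} {i : ι} {j : κ}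
    (hij : (i, j) ∈ g) {c : ℝ} (hc : 0 ≤ c) (hB : GB Φ c (g.filter fun e => e.1 ≠ i)) :
    GB Φ (σ ^ 2 * c) g := by
  intro p r
  set W : V → (κ → V) → ℝ := fun x β => ∏ e ∈ g.filter (fun e => ¬ e.1 ≠ i), (Φ x (β e.2) - 1)
    with hW
  have h1 : ∀ α β, kerG Φ g α β = kerG Φ (g.filter fun e => e.1 ≠ i) α β * W (α i) β := by
    intro α β
    unfold kerG
    rw [← prod_filter_mul_prod_filter_not g (fun e => e.1 ≠ i), hW]
    congr 1
    refine prod_congr rfl fun e he => ?_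
    have : e.1 = i := by simpa using (mem_filter.1 he).2
    rw [this]
  have h2 := step_vertex (V := V) (ι := ι) (κ := κ) i
    (K := kerG Φ (g.filter fun e => e.1 ≠ i)) (W := W) (s := σ) (c := c) hc
    (fun α β x => kerG_update_left (fun e he => (mem_filter.1 he).2) α β x)
    (fun β => by
      calc ∑ x, W x β ^ 2 ≤ ∑ x, (Φ (β j) x - 1) ^ 2 := by
            refine sum_le_sum fun x _ => ?_
            rw [h.symm (β j) x]
            have hmem : (i, j) ∈ g.filter (fun e => ¬ e.1 ≠ i) := by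
              rw [mem_filter]; exact ⟨hij, by simp⟩
            exact grn2_prod_le _ (fun e : ι × κ => Φ x (β e.2) - 1)
              (fun e _ => abs_phi_le h _ _) hmem
        _ ≤ _ := h.sq (β j))
    hB p r
  simp only [h1]
  exact h2

theorem grn2_right [Nonempty V] (h : Ker Φ θ σ ρ) {g : Finset (ι × κ)} {i : ι} {j : κ}
    (hij : (i, j) ∈ g) {c : ℝ} (hc : 0 ≤ c) (hB : GB Φ c (g.filter fun e => e.2 ≠ j)) :
    GB Φ (σ ^ 2 * c) g := by
  intro p r
  set W : V → (ι → V) → ℝ := fun y α => ∏ e ∈ g.filter (fun e => ¬ e.2 ≠ j), (Φ (α e.1) y - 1)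
    with hW
  have h1 : ∀ α β, kerG Φ g α β = kerG Φ (g.filter fun e => e.2 ≠ j) α β * W (β j) α := by
    intro α β
    unfold kerG
    rw [← prod_filter_mul_prod_filter_not g (fun e => e.2 ≠ j), hW]
    congr 1
    refine prod_congr rfl fun e he => ?_
    have : e.2 = j := by simpa using (mem_filter.1 he).2
    rw [this]
  have h2 := step_vertex (V := V) (ι := κ) (κ := ι) j
    (K := fun β α => kerG Φ (g.filter fun e => e.2 ≠ j) α β) (W := W) (s := σ) (c := c) hc
    (fun β α y => kerG_update_right (fun e he => (mem_filter.1 he).2) α β y)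
    (fun α => by
      calc ∑ y, W y α ^ 2 ≤ ∑ y, (Φ (α i) y - 1) ^ 2 := by
            refine sum_le_sum fun y _ => ?_
            have hmem : (i, j) ∈ g.filter (fun e => ¬ e.2 ≠ j) := by
              rw [mem_filter]; exact ⟨hij, by simp⟩
            exact grn2_prod_le _ (fun e : ι × κ => Φ (α e.1) y - 1)
              (fun e _ => abs_phi_le h _ _) hmem
        _ ≤ _ := h.sq (α i))
    (fun q s => by
      have := hB s q
      rw [mul_comm (∑ α, q α ^ 2)]
      rw [sum_comm]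
      simp only [mul_right_comm _ (q _) (s _)]
      exact this) r p
  rw [sum_comm] at h2
  simp only [h1]
  rw [mul_comm (∑ α, p α ^ 2)]
  simp only [mul_right_comm _ (r _) (p _)] at h2
  exact h2

theorem grn2_edge [Nonempty V] (h : Ker Φ θ σ ρ) {g : Finset (ι × κ)} {i : ι} {j : κ}
    (hij : (i, j) ∈ g) (hi : ∀ e ∈ g.erase (i, j), e.1 ≠ i) (hj : ∀ e ∈ g.erase (i, j), e.2 ≠ j)
    {c : ℝ} (hc : 0 ≤ c) (hB : GB Φ c (g.erase (i, j))) :
    GB Φ (ρ ^ 2 * c) g := by
  intro p r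
  have h1 : ∀ α β, kerG Φ g α β = kerG Φ (g.erase (i, j)) α β * (Φ (α i) (β j) - 1) := by
    intro α β
    unfold kerG
    rw [mul_comm]
    exact (mul_prod_erase g (fun e : ι × κ => Φ (α e.1) (β e.2) - 1) hij).symm
  have h2 := step_edge h i j (K := kerG Φ (g.erase (i, j))) (c := c) hc
    (fun α β x => kerG_update_left hi α β x) (fun α β y => kerG_update_right hj α β y) hB p r
  simp only [h1]
  exact h2

theorem grn2_main [Nonempty V] (h : Ker Φ θ σ ρ) : ∀ (n : ℕ) (g : Finset (ι × κ)), g.card = n →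
    g.Nonempty → GB Φ ((ρ * σ ^ ((lft g).card + (rgt g).card - 2)) ^ 2 *
        (Fintype.card V : ℝ) ^ (Fintype.card ι + Fintype.card κ)) g := by
  intro n
  induction n using Nat.strong_induction_on with
  | _ n ih =>
  intro g hgn hg
  set N1 : ℝ := (Fintype.card V : ℝ) ^ (Fintype.card ι + Fintype.card κ) with hN1
  have hN10 : 0 ≤ N1 := by positivity
  by_cases hL : ∃ i ∈ lft g, rgt (g.filter fun e => e.1 ≠ i) = rgt g
  · obtain ⟨i, hi, hr⟩ := hL
    obtain ⟨j, hij⟩ := grn2_mem_lft.1 hi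
    set g' := g.filter (fun e => e.1 ≠ i) with hg'
    have hr0 : (rgt g).Nonempty := ⟨j, grn2_mem_rgt.2 ⟨i, hij⟩⟩
    have hg'0 : g'.Nonempty := by
      rw [← hr] at hr0
      obtain ⟨j', hj'⟩ := hr0
      obtain ⟨i', hi'⟩ := grn2_mem_rgt.1 hj'
      exact ⟨_, hi'⟩
    have hcard : g'.card < n := by
      rw [← hgn]
      apply card_lt_card
      refine ⟨filter_subset _ _, fun hsub => ?_⟩
      have := (mem_filter.1 (hsub hij)).2
      exact this rfl
    have hl : (lft g').card + 1 = (lft g).card := by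
      have e : lft g' = (lft g).erase i := by
        ext a
        rw [mem_erase, grn2_mem_lft, grn2_mem_lft]
        constructor
        · rintro ⟨b, hb⟩
          rw [hg', mem_filter] at hb
          exact ⟨hb.2, b, hb.1⟩
        · rintro ⟨h1, b, hb⟩
          refine ⟨b, ?_⟩
          rw [hg', mem_filter]
          exact ⟨hb, h1⟩
      rw [e]
      exact card_erase_add_one hi
    have h1 := grn2_left h hij (by positivity) (ih _ hcard g' rfl hg'0)
    have hlpos : 0 < (lft g').card := by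
      obtain ⟨⟨a, b⟩, hab⟩ := hg'0
      exact card_pos.2 ⟨a, grn2_mem_lft.2 ⟨b, hab⟩⟩
    have hrpos : 0 < (rgt g').card := by
      obtain ⟨⟨a, b⟩, hab⟩ := hg'0
      exact card_pos.2 ⟨b, grn2_mem_rgt.2 ⟨a, hab⟩⟩
    have hexp : (lft g).card + (rgt g).card - 2 = ((lft g').card + (rgt g').card - 2) + 1 := by
      rw [← hl, hr]
      rw [hr] at hrpos
      omega
    rw [hexp]
    have e : σ ^ 2 * ((ρ * σ ^ ((lft g').card + (rgt g').card - 2)) ^ 2 * N1)
        = (ρ * σ ^ ((lft g').card + (rgt g').card - 2 + 1)) ^ 2 * N1 := by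
      rw [pow_succ σ ((lft g').card + (rgt g').card - 2)]; ring
    rw [e] at h1
    exact h1
  by_cases hR : ∃ j ∈ rgt g, lft (g.filter fun e => e.2 ≠ j) = lft g
  · obtain ⟨j, hj, hr⟩ := hR
    obtain ⟨i, hij⟩ := grn2_mem_rgt.1 hj
    set g' := g.filter (fun e => e.2 ≠ j) with hg'
    have hr0 : (lft g).Nonempty := ⟨i, grn2_mem_lft.2 ⟨j, hij⟩⟩
    have hg'0 : g'.Nonempty := by
      rw [← hr] at hr0
      obtain ⟨i', hi'⟩ := hr0
      obtain ⟨j', hj'⟩ := grn2_mem_lft.1 hi'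
      exact ⟨_, hj'⟩
    have hcard : g'.card < n := by
      rw [← hgn]
      apply card_lt_card
      refine ⟨filter_subset _ _, fun hsub => ?_⟩
      have := (mem_filter.1 (hsub hij)).2
      exact this rfl
    have hl : (rgt g').card + 1 = (rgt g).card := by
      have e : rgt g' = (rgt g).erase j := by
        ext a
        rw [mem_erase, grn2_mem_rgt, grn2_mem_rgt]
        constructor
        · rintro ⟨b, hb⟩
          rw [hg', mem_filter] at hb
          exact ⟨hb.2, b, hb.1⟩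
        · rintro ⟨h1, b, hb⟩
          refine ⟨b, ?_⟩
          rw [hg', mem_filter]
          exact ⟨hb, h1⟩
      rw [e]
      exact card_erase_add_one hj
    have h1 := grn2_right h hij (by positivity) (ih _ hcard g' rfl hg'0)
    have hlpos : 0 < (lft g').card := by
      obtain ⟨⟨a, b⟩, hab⟩ := hg'0
      exact card_pos.2 ⟨a, grn2_mem_lft.2 ⟨b, hab⟩⟩
    have hrpos : 0 < (rgt g').card := by
      obtain ⟨⟨a, b⟩, hab⟩ := hg'0
      exact card_pos.2 ⟨b, grn2_mem_rgt.2 ⟨a, hab⟩⟩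
    have hexp : (lft g).card + (rgt g).card - 2 = ((lft g').card + (rgt g').card - 2) + 1 := by
      rw [← hl, hr]
      rw [hr] at hlpos
      omega
    rw [hexp]
    have e : σ ^ 2 * ((ρ * σ ^ ((lft g').card + (rgt g').card - 2)) ^ 2 * N1)
        = (ρ * σ ^ ((lft g').card + (rgt g').card - 2 + 1)) ^ 2 * N1 := by
      rw [pow_succ σ ((lft g').card + (rgt g').card - 2)]; ring
    rw [e] at h1
    exact h1
  -- an isolated edge
  push Not at hL hR
  obtain ⟨⟨i, j0⟩, hi0⟩ := hg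
  have hi : i ∈ lft g := grn2_mem_lft.2 ⟨j0, hi0⟩
  have hne := hL i hi
  have hex : ∃ j ∈ rgt g, ∀ a, (a, j) ∈ g → a = i := by
    by_contra hcon
    push Not at hcon
    apply hne
    ext j
    constructor
    · intro hj
      obtain ⟨a, ha⟩ := grn2_mem_rgt.1 hj
      exact grn2_mem_rgt.2 ⟨a, (mem_filter.1 ha).1⟩
    · intro hj
      obtain ⟨a, ha, hai⟩ := hcon j hj
      exact grn2_mem_rgt.2 ⟨a, mem_filter.2 ⟨ha, hai⟩⟩
  obtain ⟨j, hj, hji⟩ := hex
  obtain ⟨i1, hi1⟩ := grn2_mem_rgt.1 hj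
  have hij : (i, j) ∈ g := by
    rw [← hji i1 hi1]; exact hi1
  have hne2 := hR j hj
  have hex2 : ∃ a ∈ lft g, ∀ b, (a, b) ∈ g → b = j := by
    by_contra hcon
    push Not at hcon
    apply hne2
    ext a
    constructor
    · intro ha
      obtain ⟨b, hb⟩ := grn2_mem_lft.1 ha
      exact grn2_mem_lft.2 ⟨b, (mem_filter.1 hb).1⟩
    · intro ha
      obtain ⟨b, hb, hbj⟩ := hcon a ha
      exact grn2_mem_lft.2 ⟨b, mem_filter.2 ⟨hb, hbj⟩⟩
  obtain ⟨a, ha, haj⟩ := hex2
  obtain ⟨b, hab⟩ := grn2_mem_lft.1 ha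
  have hb := haj b hab
  subst hb
  have hai := hji a hab
  subst hai
  -- the edge `(a, b)` is isolated
  have he1 : ∀ e ∈ g.erase (a, b), e.1 ≠ a := by
    rintro ⟨x, y⟩ he hx
    obtain ⟨h1, h2⟩ := mem_erase.1 he
    simp only at hx
    subst hx
    exact h1 (by rw [haj y h2])
  have he2 : ∀ e ∈ g.erase (a, b), e.2 ≠ b := by
    rintro ⟨x, y⟩ he hy
    obtain ⟨h1, h2⟩ := mem_erase.1 he
    simp only at hy
    subst hy
    exact h1 (by rw [hji x h2])
  have hl : (lft (g.erase (a, b))).card + 1 = (lft g).card := by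
    have e : lft (g.erase (a, b)) = (lft g).erase a := by
      ext x
      rw [mem_erase, grn2_mem_lft, grn2_mem_lft]
      constructor
      · rintro ⟨y, hy⟩
        exact ⟨he1 _ hy, y, mem_of_mem_erase hy⟩
      · rintro ⟨h1, y, hy⟩
        exact ⟨y, mem_erase.2 ⟨fun h => h1 (congrArg Prod.fst h), hy⟩⟩
    rw [e]
    exact card_erase_add_one ha
  have hr : (rgt (g.erase (a, b))).card + 1 = (rgt g).card := by
    have e : rgt (g.erase (a, b)) = (rgt g).erase b := by
      ext x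
      rw [mem_erase, grn2_mem_rgt, grn2_mem_rgt]
      constructor
      · rintro ⟨y, hy⟩
        exact ⟨he2 _ hy, y, mem_of_mem_erase hy⟩
      · rintro ⟨h1, y, hy⟩
        exact ⟨y, mem_erase.2 ⟨fun h => h1 (congrArg Prod.snd h), hy⟩⟩
    rw [e]
    exact card_erase_add_one hj
  rcases (g.erase (a, b)).eq_empty_or_nonempty with hemp | hne'
  · have h1 : GB Φ N1 (g.erase (a, b)) := by
      intro p r
      have := grn2_empty (V := V) p r
      rw [hemp]
      unfold kerG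
      simp only [prod_empty]
      exact this
    have h2 := grn2_edge h hij he1 he2 hN10 h1
    rw [hemp] at hl hr
    have e1 : (lft (∅ : Finset (ι × κ))).card = 0 := by simp [lft]
    have e2 : (rgt (∅ : Finset (ι × κ))).card = 0 := by simp [rgt]
    rw [e1] at hl
    rw [e2] at hr
    rw [← hl, ← hr]
    simpa using h2
  · have hcard : (g.erase (a, b)).card < n := by
      rw [← hgn]
      exact card_lt_card (erase_ssubset hij)
    have h1 := grn2_edge h hij he1 he2 (by positivity) (ih _ hcard _ rfl hne')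
    have hlpos : 0 < (lft (g.erase (a, b))).card := by
      obtain ⟨⟨x, y⟩, hxy⟩ := hne'
      exact card_pos.2 ⟨x, grn2_mem_lft.2 ⟨y, hxy⟩⟩
    have hrpos : 0 < (rgt (g.erase (a, b))).card := by
      obtain ⟨⟨x, y⟩, hxy⟩ := hne'
      exact card_pos.2 ⟨y, grn2_mem_rgt.2 ⟨x, hxy⟩⟩
    set m := (lft (g.erase (a, b))).card + (rgt (g.erase (a, b))).card - 2 with hm
    have hexp : (lft g).card + (rgt g).card - 2 = m + 2 := by omega
    rw [hexp]
    intro p r
    refine (h1 p r).trans ?_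
    apply mul_le_mul_of_nonneg_right _ (mul_nonneg (sum_nonneg fun _ _ => sq_nonneg _)
      (sum_nonneg fun _ _ => sq_nonneg _))
    have hρ := h.ρ0
    have hσ := h.σ0
    have hρσ := h.ρσ
    have e : ρ ^ 2 * ((ρ * σ ^ m) ^ 2 * N1) = ρ ^ 2 * ((ρ * σ ^ m) ^ 2 * N1) := rfl
    calc ρ ^ 2 * ((ρ * σ ^ m) ^ 2 * N1) ≤ (σ ^ 2) ^ 2 * ((ρ * σ ^ m) ^ 2 * N1) := by
          apply mul_le_mul_of_nonneg_right _ (by positivity)
          exact pow_le_pow_left₀ hρ hρσ 2
      _ = (ρ * σ ^ (m + 2)) ^ 2 * N1 := by ring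

/-- The norm of a graph. -/
theorem graph_bound [Nonempty V] (h : Ker Φ θ σ ρ) (g : Finset (ι × κ)) (hg : g.Nonempty)
    (p : (ι → V) → ℝ) (r : (κ → V) → ℝ) :
    (∑ α, ∑ β, (∏ e ∈ g, (Φ (α e.1) (β e.2) - 1)) * p α * r β) ^ 2 ≤
      (ρ * σ ^ ((lft g).card + (rgt g).card - 2)) ^ 2 *
        (Fintype.card V : ℝ) ^ (Fintype.card ι + Fintype.card κ) *
        ((∑ α, p α ^ 2) * ∑ β, r β ^ 2) :=
  grn2_main h _ g rfl hg p r

end Pool.Agent.Lib.MP_0430e4_lc.Las
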