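import Pool.Agent.Lib.MP_0430e4_lc.Las.PSD
import Pool.Agent.Lib.MP_0430e4_lc.LPL.CUB1

/-!
# KERC: the kernel on the cube, and the bound at finite length
-/

set_option autoImplicit false

namespace Pool.Agent.Lib.MP_0430e4_lc.Las

open Finset
open Tensor (chi flp)
open Impr (wt)
open LPL (hat)

variable {n : ℕ}

theorem kerc_xor_xor (x u : Fin n → Bool) : (fun i => xor (x i) (xor (x i) (u i))) = u := by
  funext i
  cases x i <;> cases u i <;> rfl

/-- The change of variables `u ↦ x xor u`. -/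
theorem kerc_sum_xor (x : Fin n → Bool) (F : (Fin n → Bool) → ℝ) :
    ∑ u : Fin n → Bool, F (fun i => xor (x i) (u i)) = ∑ v, F v := by
  apply Fintype.sum_bijective (fun u : Fin n → Bool => (fun i => xor (x i) (u i)))
  · constructor
    · intro u u' h
      have h1 : (fun i => xor (x i) (xor (x i) (u i))) = (fun i => xor (x i) (xor (x i) (u' i))) := by
        funext i
        have := congrFun h i
        simp only at this
        rw [this]
      rwa [kerc_xor_xor, kerc_xor_xor] at h1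
    · intro v
      exact ⟨fun i => xor (x i) (v i), kerc_xor_xor x v⟩
  · intro u
    rfl

theorem kerc_dist (x y : Fin n → Bool) : hammingDist x y = wt (fun i => xor (x i) (y i)) :=
  Tensor.hammingDist_eq_card_xor x y

theorem kerc_dist_le (x y : Fin n → Bool) : hammingDist x y ≤ n := by
  have := hammingDist_le_card_fintype (x := x) (y := y)
  rwa [Fintype.card_fin] at this

theorem kerc_card : (Fintype.card (Fin n → Bool) : ℝ) = 2 ^ n := by
  rw [Fintype.card_fun, Fintype.card_bool, Fintype.card_fin]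
  push_cast
  rfl

/-- Fourier inversion for the convolution form. -/
theorem kerc_form (A p r : (Fin n → Bool) → ℝ) :
    ∑ v, hat A v * (hat p v * hat r v) =
      2 ^ n * ∑ x, ∑ y, A (fun i => xor (x i) (y i)) * p x * r y := by
  have h1 : ∀ v, hat p v * hat r v = ∑ x, ∑ y, p x * r y * chi (fun i => xor (x i) (y i)) v := by
    intro v
    unfold hat
    rw [Finset.sum_mul_sum]
    refine Finset.sum_congr rfl fun x _ => Finset.sum_congr rfl fun y _ => ?_
    rw [Tensor.chi_xor]
    ring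
  have h2 : ∀ z, ∑ v, hat A v * chi z v = 2 ^ n * A z := by
    intro z
    unfold hat
    calc ∑ v, (∑ u, A u * chi u v) * chi z v = ∑ v, ∑ u, A u * (chi u v * chi z v) := by
          refine Finset.sum_congr rfl fun v _ => ?_
          rw [Finset.sum_mul]
          exact Finset.sum_congr rfl fun u _ => by ring
      _ = ∑ u, A u * ∑ v, chi u v * chi z v := by
          rw [Finset.sum_comm]
          refine Finset.sum_congr rfl fun u _ => ?_
          rw [Finset.mul_sum]
      _ = ∑ u, A u * (if u = z then (2 : ℝ) ^ n else 0) := by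
          refine Finset.sum_congr rfl fun u _ => ?_
          rw [LPL.sum_chi_mul]
      _ = _ := by
          simp only [mul_ite, mul_zero, Finset.sum_ite_eq', Finset.mem_univ, if_true]
          ring
  calc ∑ v, hat A v * (hat p v * hat r v)
      = ∑ v, ∑ x, ∑ y, (p x * r y) * (hat A v * chi (fun i => xor (x i) (y i)) v) := by
        refine Finset.sum_congr rfl fun v _ => ?_
        rw [h1, Finset.mul_sum]
        refine Finset.sum_congr rfl fun x _ => ?_
        rw [Finset.mul_sum]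
        exact Finset.sum_congr rfl fun y _ => by ring
    _ = ∑ x, ∑ y, ∑ v, (p x * r y) * (hat A v * chi (fun i => xor (x i) (y i)) v) := by
        rw [Finset.sum_comm]
        refine Finset.sum_congr rfl fun x _ => ?_
        rw [Finset.sum_comm]
    _ = ∑ x, ∑ y, (p x * r y) * (2 ^ n * A (fun i => xor (x i) (y i))) := by
        refine Finset.sum_congr rfl fun x _ => Finset.sum_congr rfl fun y _ => ?_
        rw [← Finset.mul_sum, h2]
    _ = _ := by
        rw [Finset.mul_sum]
        refine Finset.sum_congr rfl fun x _ => ?_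
        rw [Finset.mul_sum]
        exact Finset.sum_congr rfl fun y _ => by ring

/-- The kernel of a profile. -/
theorem ker_of_profile {a : ℕ → ℝ} {θ σ ρ : ℝ} (ha0 : a 0 = -1)
    (hlo : ∀ j ≤ n, -1 ≤ a j) (hup : ∀ j ≤ n, a j ≤ θ) (hθ0 : 0 ≤ θ) (hθ1 : θ ≤ 1) (hσ : 0 ≤ σ)
    (hsq : ∑ x : Fin n → Bool, a (wt x) ^ 2 ≤ 2 ^ n * σ ^ 2) (hρ : 0 ≤ ρ) (hρσ : ρ ≤ σ ^ 2)
    (hhat : ∀ v : Fin n → Bool, |hat (fun x => a (wt x)) v| ≤ 2 ^ n * ρ) :
    Ker (fun x y : Fin n → Bool => 1 + a (hammingDist x y)) θ σ ρ where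
  symm x y := by rw [hammingDist_comm]
  diag x := by rw [hammingDist_self, ha0]; ring
  nonneg x y := by
    have := hlo _ (kerc_dist_le x y)
    linarith
  le x y := by
    have := hup _ (kerc_dist_le x y)
    linarith
  θ0 := hθ0
  θ1 := hθ1
  σ0 := hσ
  sq x := by
    rw [kerc_card]
    refine le_trans (le_of_eq ?_) hsq
    rw [← kerc_sum_xor x fun v => a (wt v) ^ 2]
    refine Finset.sum_congr rfl fun y _ => ?_
    rw [← kerc_dist]
    ring
  ρ0 := hρ
  ρσ := hρσ
  op p r := by
    rw [kerc_card]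
    set A : (Fin n → Bool) → ℝ := fun x => a (wt x) with hA
    set S := ∑ x, ∑ y, (1 + a (hammingDist x y) - 1) * p x * r y with hS
    have e1 : S = ∑ x, ∑ y, A (fun i => xor (x i) (y i)) * p x * r y := by
      rw [hS]
      refine Finset.sum_congr rfl fun x _ => Finset.sum_congr rfl fun y _ => ?_
      rw [hA]
      simp only
      rw [← kerc_dist]
      ring
    have e2 : 2 ^ n * S = ∑ v, hat A v * (hat p v * hat r v) := by rw [e1, kerc_form]
    have hN : (0 : ℝ) < 2 ^ n := by positivity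
    have e3 : |2 ^ n * S| ≤ (2 ^ n * ρ) * ∑ v, |hat p v| * |hat r v| := by
      rw [e2, Finset.mul_sum]
      refine (Finset.abs_sum_le_sum_abs _ _).trans (Finset.sum_le_sum fun v _ => ?_)
      rw [abs_mul, abs_mul]
      exact mul_le_mul_of_nonneg_right (hhat v) (by positivity)
    have e4 : (∑ v, |hat p v| * |hat r v|) ^ 2 ≤ (2 ^ n * ∑ x, p x ^ 2) * (2 ^ n * ∑ x, r x ^ 2) := by
      refine (Finset.sum_mul_sq_le_sq_mul_sq _ _ _).trans (le_of_eq ?_)
      have q : ∀ G : (Fin n → Bool) → ℝ, ∑ v, |hat G v| ^ 2 = 2 ^ n * ∑ x, G x ^ 2 := by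
        intro G
        have := LPL.parseval G G
        simp only [← sq] at this
        rw [← this]
        exact Finset.sum_congr rfl fun v _ => sq_abs _
      rw [q, q]
    have e5 : (2 ^ n * S) ^ 2 ≤ ((2 ^ n * ρ) * ∑ v, |hat p v| * |hat r v|) ^ 2 := by
      rw [← sq_abs (2 ^ n * S)]
      exact pow_le_pow_left₀ (abs_nonneg _) e3 2
    have e6 : (2 ^ n * S) ^ 2 ≤
        (2 ^ n * ρ) ^ 2 * ((2 ^ n * ∑ x, p x ^ 2) * (2 ^ n * ∑ x, r x ^ 2)) := by
      refine e5.trans ?_
      rw [mul_pow (2 ^ n * ρ)]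
      exact mul_le_mul_of_nonneg_left e4 (sq_nonneg _)
    have e7 : ((2 : ℝ) ^ n) ^ 2 * S ^ 2 ≤
        (2 ^ n) ^ 2 * ((2 ^ n * ρ) ^ 2 * ((∑ x, p x ^ 2) * ∑ x, r x ^ 2)) := by
      calc ((2 : ℝ) ^ n) ^ 2 * S ^ 2 = (2 ^ n * S) ^ 2 := by ring
        _ ≤ _ := e6
        _ = _ := by ring
    exact le_of_mul_le_mul_left e7 (by positivity)

/-- The values of the feasible points at single words. -/
theorem kerc_le_one {V : Type*} [Fintype V] [DecidableEq V] {t : ℕ} (ht : 1 ≤ t)
    {y : Finset V → ℝ} (h1 : y ∅ = 1) (h : MomPos t y) (x : V) : y {x} ≤ 1 := by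
  classical
  have hne : (∅ : Finset V) ≠ {x} := (Finset.singleton_ne_empty x).symm
  let f : ℝ → ℝ → Finset V → ℝ := fun a b A => if A = ∅ then a else if A = {x} then b else 0
  have hf0 : ∀ a b, f a b ∅ = a := fun a b => if_pos rfl
  have hf1 : ∀ a b, f a b {x} = b := fun a b => by
    show (if ({x} : Finset V) = ∅ then a else if ({x} : Finset V) = {x} then b else 0) = b
    rw [if_neg (Finset.singleton_ne_empty x), if_pos rfl]
  have hf2 : ∀ a b, ∀ A ∉ ({∅, {x}} : Finset (Finset V)), f a b A = 0 := by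
    intro a b A hA
    rw [Finset.mem_insert, Finset.mem_singleton, not_or] at hA
    show (if A = ∅ then a else if A = {x} then b else 0) = 0
    rw [if_neg hA.1, if_neg hA.2]
  have hsub : ({∅, {x}} : Finset (Finset V)) ⊆ small V t := by
    intro A hA
    rw [Finset.mem_insert, Finset.mem_singleton] at hA
    unfold small
    rw [Finset.mem_filter]
    refine ⟨Finset.mem_univ _, ?_⟩
    rcases hA with rfl | rfl
    · simp
    · rw [Finset.card_singleton]; exact ht
  have key : ∀ a b : ℝ, 0 ≤ a * a * y ∅ + a * b * y {x} + (b * a * y {x} + b * b * y {x}) := by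
    intro a b
    have h2 := h (f a b)
    have h3 : ∑ A ∈ small V t, ∑ B ∈ small V t, f a b A * f a b B * y (A ∪ B) =
        ∑ A ∈ ({∅, {x}} : Finset (Finset V)), ∑ B ∈ ({∅, {x}} : Finset (Finset V)),
          f a b A * f a b B * y (A ∪ B) := by
      symm
      rw [← Finset.sum_subset hsub]
      · refine Finset.sum_congr rfl fun A _ => ?_
        refine Finset.sum_subset hsub fun B _ hB => ?_
        rw [hf2 a b B hB, mul_zero, zero_mul]
      · intro A _ hA
        refine Finset.sum_eq_zero fun B _ => ?_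
        rw [hf2 a b A hA, zero_mul, zero_mul]
    rw [h3, Finset.sum_pair hne, Finset.sum_pair hne, Finset.sum_pair hne, hf0, hf1,
      Finset.empty_union, Finset.empty_union, Finset.union_empty, Finset.union_self] at h2
    exact h2
  have k1 := key 1 (-1)
  rw [h1] at k1
  linarith

/-- The values of the feasible points are bounded. -/
theorem las_bdd {t : ℕ} (ht : 1 ≤ t) (n d : ℕ) :
    BddAbove {s : ℝ | ∃ y : Finset (Fin n → Bool) → ℝ, y ∅ = 1 ∧
      (∀ S : Finset (Fin n → Bool), (∃ u ∈ S, ∃ v ∈ S, u ≠ v ∧ hammingDist u v < d) → y S = 0) ∧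
      MomPos t y ∧ s = ∑ x, y {x}} := by
  refine ⟨∑ _x : Fin n → Bool, (1 : ℝ), ?_⟩
  rintro s ⟨y, h1, -, h2, rfl⟩
  exact Finset.sum_le_sum fun x _ => kerc_le_one ht h1 h2 x

/-- The bound at finite length. -/
theorem las_ge {t d : ℕ} (ht : 1 ≤ t) {a : ℕ → ℝ} {θ σ ρ M R : ℝ} (hd : 1 ≤ d)
    (ha : ∀ j < d, a j = -1) (hlo : ∀ j ≤ n, -1 ≤ a j) (hup : ∀ j ≤ n, a j ≤ θ) (hθ0 : 0 ≤ θ)
    (hθ1 : θ ≤ 1) (hσ : 0 ≤ σ) (hsq : ∑ x : Fin n → Bool, a (wt x) ^ 2 ≤ 2 ^ n * σ ^ 2)
    (hρ : 0 ≤ ρ) (hρσ : ρ ≤ σ ^ 2)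
    (hhat : ∀ v : Fin n → Bool, |hat (fun x => a (wt x)) v| ≤ 2 ^ n * ρ) (hM : 0 < M)
    (hR : ∀ m ≤ 2 * t - 2, M * ρ * (σ * Real.sqrt M) ^ m ≤ R)
    (hc : t * 2 ^ (t + t ^ 2) * (1 + θ) ^ (t ^ 2) * R ≤ 1) :
    M ≤ las t n d := by
  have hker := ker_of_profile (n := n) (ha 0 (by omega)) hlo hup hθ0 hθ1 hσ hsq hρ hρσ hhat
  have hmom := momPos hker ht hM hR hc
  unfold las
  refine le_csSup (las_bdd ht n d) ⟨_, ?_, ?_, hmom, ?_⟩
  · simp [wgt]
  · rintro S ⟨u, hu, v, hv, huv, hdist⟩
    have hz : wgt (fun x y : Fin n → Bool => 1 + a (hammingDist x y)) S = 0 := by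
      unfold wgt
      rw [Finset.prod_eq_zero (i := (u, v)) (Finset.mem_offDiag.2 ⟨hu, hv, huv⟩), Real.sqrt_zero]
      show 1 + a (hammingDist u v) = 0
      rw [ha _ hdist]
      ring
    show (M / Fintype.card (Fin n → Bool)) ^ S.card *
      wgt (fun x y : Fin n → Bool => 1 + a (hammingDist x y)) S = 0
    rw [hz, mul_zero]
  · have h1 : ∀ x : Fin n → Bool, (M / Fintype.card (Fin n → Bool)) ^ ({x} : Finset _).card *
        wgt (fun x y : Fin n → Bool => 1 + a (hammingDist x y)) {x} =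
        M / Fintype.card (Fin n → Bool) := by
      intro x
      rw [Finset.card_singleton, pow_one]
      have : wgt (fun x y : Fin n → Bool => 1 + a (hammingDist x y)) {x} = 1 := by
        unfold wgt
        rw [Finset.offDiag_singleton, Finset.prod_empty, Real.sqrt_one]
      rw [this, mul_one]
    show M = ∑ x : Fin n → Bool, (M / Fintype.card (Fin n → Bool)) ^ ({x} : Finset _).card *
        wgt (fun x y : Fin n → Bool => 1 + a (hammingDist x y)) {x}
    rw [Finset.sum_congr rfl fun x _ => h1 x, Finset.sum_const, Finset.card_univ, nsmul_eq_mul]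
    have : (Fintype.card (Fin n → Bool) : ℝ) ≠ 0 := by
      rw [kerc_card]; positivity
    field_simp

end Pool.Agent.Lib.MP_0430e4_lc.Las
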