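import Pool.Agent.Lib.MP_0430e4_lc.Las.Defs

/-!
# WGT: the product over the pairs of a set
-/

set_option autoImplicit false

namespace Pool.Agent.Lib.MP_0430e4_lc.Las

open Finset

variable {V : Type*} [Fintype V] [DecidableEq V] {Φ : V → V → ℝ}

theorem wgt_nonneg (S : Finset V) : 0 ≤ wgt Φ S := Real.sqrt_nonneg _

omit [Fintype V] in
theorem wgt_empty' : wgt Φ ∅ = 1 := by
  unfold wgt
  rw [offDiag_empty, prod_empty, Real.sqrt_one]

theorem wgt_empty : wgt Φ ∅ = 1 := wgt_empty'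

theorem wgt_singleton (x : V) : wgt Φ {x} = 1 := by
  unfold wgt
  rw [offDiag_singleton, prod_empty, Real.sqrt_one]

theorem wgt_insert (hs : ∀ x y, Φ x y = Φ y x) (h0 : ∀ x y, 0 ≤ Φ x y) {x : V} {S : Finset V}
    (hx : x ∉ S) : wgt Φ (insert x S) = wgt Φ S * ∏ s ∈ S, Φ x s := by
  unfold wgt
  have hQ : 0 ≤ ∏ s ∈ S, Φ x s := prod_nonneg fun s _ => h0 x s
  have hP : ∏ p ∈ (insert x S).offDiag, Φ p.1 p.2 =
      (∏ p ∈ S.offDiag, Φ p.1 p.2) * (∏ s ∈ S, Φ x s) ^ 2 := by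
    rw [offDiag_insert hx]
    have d1 : Disjoint S.offDiag ({x} ×ˢ S) := by
      rw [Finset.disjoint_left]
      rintro ⟨a, b⟩ h1 h2
      rw [mem_offDiag] at h1
      rw [mem_product, mem_singleton] at h2
      simp only at h1 h2
      exact hx (h2.1 ▸ h1.1)
    have d2 : Disjoint (S.offDiag ∪ {x} ×ˢ S) (S ×ˢ {x}) := by
      rw [Finset.disjoint_left]
      rintro ⟨a, b⟩ h1 h2
      rw [mem_product, mem_singleton] at h2
      rw [mem_union, mem_offDiag, mem_product, mem_singleton] at h1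
      simp only at h1 h2
      rcases h1 with h1 | h1
      · exact hx (h2.2 ▸ h1.2.1)
      · exact hx (h1.1 ▸ h2.1)
    rw [prod_union d2, prod_union d1, prod_product, prod_product]
    rw [prod_singleton]
    have h3 : ∏ a ∈ S, ∏ b ∈ ({x} : Finset V), Φ (a, b).1 (a, b).2 = ∏ s ∈ S, Φ x s := by
      refine prod_congr rfl fun a _ => ?_
      rw [prod_singleton]
      exact hs a x
    rw [h3]
    ring
  rw [hP, Real.sqrt_mul' _ (sq_nonneg _), Real.sqrt_sq hQ]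

/-- a bad pair makes the weight vanish -/
theorem wgt_eq_zero (hs : ∀ x y, Φ x y = Φ y x) (h0 : ∀ x y, 0 ≤ Φ x y) {S : Finset V} {x y : V}
    (hx : x ∈ S) (hy : y ∈ S) (hxy : x ≠ y) (h : Φ x y = 0) : wgt Φ S = 0 := by
  unfold wgt
  rw [Finset.prod_eq_zero (i := (x, y)) (by rw [mem_offDiag]; exact ⟨hx, hy, hxy⟩) h,
    Real.sqrt_zero]

/-- disjoint unions -/
theorem wgt_union (hs : ∀ x y, Φ x y = Φ y x) (h0 : ∀ x y, 0 ≤ Φ x y) {A B : Finset V}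
    (hAB : Disjoint A B) :
    wgt Φ (A ∪ B) = wgt Φ A * wgt Φ B * ∏ e ∈ A ×ˢ B, Φ e.1 e.2 := by
  induction A using Finset.induction_on with
  | empty => rw [empty_union, wgt_empty, empty_product, prod_empty]; ring
  | insert a A ha ih =>
    rw [disjoint_insert_left] at hAB
    rw [insert_union, wgt_insert hs h0 (by rw [mem_union, not_or]; exact ⟨ha, hAB.1⟩),
      ih hAB.2, wgt_insert hs h0 ha, prod_union hAB.2, prod_product, prod_product,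
      prod_insert ha]
    ring

/-- The main identity; `A ∪ I` and `B ∪ I` with intersection `I`. -/
theorem wgt_main (hs : ∀ x y, Φ x y = Φ y x) (h0 : ∀ x y, 0 ≤ Φ x y) {I A B : Finset V}
    (hA : Disjoint I A) (hB : Disjoint I B) (hAB : Disjoint A B) :
    wgt Φ (I ∪ A ∪ (I ∪ B)) =
      (wgt Φ I)⁻¹ * wgt Φ (I ∪ A) * wgt Φ (I ∪ B) * ∏ e ∈ A ×ˢ B, Φ e.1 e.2 := by
  have h1 : I ∪ A ∪ (I ∪ B) = I ∪ (A ∪ B) := by
    ext x
    simp only [mem_union]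
    tauto
  have h2 : Disjoint I (A ∪ B) := disjoint_union_right.2 ⟨hA, hB⟩
  have h3 : ∏ e ∈ I ×ˢ (A ∪ B), Φ e.1 e.2 =
      (∏ e ∈ I ×ˢ A, Φ e.1 e.2) * ∏ e ∈ I ×ˢ B, Φ e.1 e.2 := by
    rw [product_union, prod_union]
    rw [disjoint_product]
    exact Or.inr hAB
  rw [h1, wgt_union hs h0 h2, wgt_union hs h0 hAB, wgt_union hs h0 hA, wgt_union hs h0 hB, h3]
  by_cases hI : wgt Φ I = 0
  · rw [hI]
    ring
  · field_simp

omit [Fintype V] in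
theorem wgt_le_pow (h0 : ∀ x y, 0 ≤ Φ x y) {θ : ℝ} (hθ : 0 ≤ θ)
    (hle : ∀ x y, Φ x y ≤ 1 + θ) (S : Finset V) : wgt Φ S ≤ (1 + θ) ^ (S.card ^ 2) := by
  have h1 : (1 : ℝ) ≤ 1 + θ := by linarith
  have hP : ∏ p ∈ S.offDiag, Φ p.1 p.2 ≤ (1 + θ) ^ (S.card ^ 2) := by
    calc ∏ p ∈ S.offDiag, Φ p.1 p.2 ≤ ∏ _p ∈ S.offDiag, (1 + θ) :=
          prod_le_prod (fun p _ => h0 _ _) (fun p _ => hle _ _)
      _ = (1 + θ) ^ S.offDiag.card := by rw [prod_const]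
      _ ≤ (1 + θ) ^ (S.card ^ 2) := by
          refine pow_le_pow_right₀ h1 ?_
          rw [offDiag_card, sq]
          exact Nat.sub_le _ _
  have hR : (1 : ℝ) ≤ (1 + θ) ^ (S.card ^ 2) := one_le_pow₀ h1
  unfold wgt
  refine (Real.sqrt_le_sqrt hP).trans ?_
  rw [Real.sqrt_le_left (by linarith)]
  nlinarith

/-- If `I ⊆ J` and `|J| ≤ t` then `1 / w(I) ≤ (1 + θ)^(t^2) / w(J)`. -/
theorem wgt_inv_le (hs : ∀ x y, Φ x y = Φ y x) (h0 : ∀ x y, 0 ≤ Φ x y) {θ : ℝ} (hθ : 0 ≤ θ)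
    (hle : ∀ x y, Φ x y ≤ 1 + θ) {I J : Finset V} (hIJ : I ⊆ J) {t : ℕ} (ht : J.card ≤ t)
    (hJ : wgt Φ J ≠ 0) : (wgt Φ I)⁻¹ ≤ (1 + θ) ^ (t ^ 2) * (wgt Φ J)⁻¹ := by
  have h1 : (1 : ℝ) ≤ 1 + θ := by linarith
  have hd : Disjoint I (J \ I) := disjoint_sdiff
  have hu : I ∪ (J \ I) = J := union_sdiff_of_subset hIJ
  have hw := wgt_union hs h0 hd
  rw [hu] at hw
  have hI : wgt Φ I ≠ 0 := by
    intro h
    rw [h] at hw
    exact hJ (by rw [hw]; ring)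
  have hIp : 0 < wgt Φ I := lt_of_le_of_ne (wgt_nonneg I) (Ne.symm hI)
  have hJp : 0 < wgt Φ J := lt_of_le_of_ne (wgt_nonneg J) (Ne.symm hJ)
  have hc : I.card + (J \ I).card = J.card := by
    rw [← card_union_of_disjoint hd, hu]
  have hprod : ∏ e ∈ I ×ˢ (J \ I), Φ e.1 e.2 ≤ (1 + θ) ^ (I.card * (J \ I).card) := by
    calc ∏ e ∈ I ×ˢ (J \ I), Φ e.1 e.2 ≤ ∏ _e ∈ I ×ˢ (J \ I), (1 + θ) :=
          prod_le_prod (fun p _ => h0 _ _) (fun p _ => hle _ _)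
      _ = _ := by rw [prod_const, card_product]
  have hprod0 : 0 ≤ ∏ e ∈ I ×ˢ (J \ I), Φ e.1 e.2 := prod_nonneg fun e _ => h0 _ _
  have hwl := wgt_le_pow h0 hθ hle (J \ I)
  have key : wgt Φ J ≤ (1 + θ) ^ (t ^ 2) * wgt Φ I := by
    rw [hw]
    have h2 : wgt Φ (J \ I) * ∏ e ∈ I ×ˢ (J \ I), Φ e.1 e.2 ≤ (1 + θ) ^ (t ^ 2) := by
      calc wgt Φ (J \ I) * ∏ e ∈ I ×ˢ (J \ I), Φ e.1 e.2
          ≤ (1 + θ) ^ ((J \ I).card ^ 2) * (1 + θ) ^ (I.card * (J \ I).card) :=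
            mul_le_mul hwl hprod hprod0 (by positivity)
        _ = (1 + θ) ^ ((J \ I).card ^ 2 + I.card * (J \ I).card) := by rw [pow_add]
        _ ≤ (1 + θ) ^ (t ^ 2) := by
            refine pow_le_pow_right₀ h1 ?_
            have h3 : (J \ I).card ^ 2 + I.card * (J \ I).card = (J \ I).card * J.card := by
              rw [← hc]; ring
            rw [h3, sq]
            exact Nat.mul_le_mul (by omega) ht
    calc wgt Φ I * wgt Φ (J \ I) * ∏ e ∈ I ×ˢ (J \ I), Φ e.1 e.2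
        = wgt Φ I * (wgt Φ (J \ I) * ∏ e ∈ I ×ˢ (J \ I), Φ e.1 e.2) := by ring
      _ ≤ wgt Φ I * (1 + θ) ^ (t ^ 2) := mul_le_mul_of_nonneg_left h2 hIp.le
      _ = _ := by ring
  rw [inv_le_iff_one_le_mul₀ hIp]
  have h5 : (1 + θ) ^ (t ^ 2) * (wgt Φ J)⁻¹ * wgt Φ I =
      ((1 + θ) ^ (t ^ 2) * wgt Φ I) * (wgt Φ J)⁻¹ := by ring
  rw [h5, ← div_eq_mul_inv, one_le_div hJp]
  exact key

end Pool.Agent.Lib.MP_0430e4_lc.Las
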